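import Mathlib

/-!
Definitions for the theorem: almost no integer is the radical of an abc triple.
-/

namespace Pool.Agent.H374R2.Z

open Finset

/-- The radical. -/
def rad (n : ℕ) : ℕ := ∏ p ∈ n.primeFactors, p

/-- The part of `s` free of `q`-th powers (`s = lo q s * hi q s ^ q`). -/
def lo (q s : ℕ) : ℕ := ∏ p ∈ s.primeFactors, p ^ (s.factorization p % q)

/-- The `q`-th root of the largest `q`-th power dividing `s` (`s = lo q s * hi q s ^ q`). -/
def hi (q s : ℕ) : ℕ := ∏ p ∈ s.primeFactors, p ^ (s.factorization p / q)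

/-- `t - σ s = T` with `T` highly divisible by `p`. -/
structure PairP (κ : ℝ) (q p : ℕ) (σ : ℤ) (s t T : ℕ) : Prop where
  s0 : 0 < s
  t0 : 0 < t
  T0 : 0 < T
  eq : (t : ℤ) - σ * s = T
  co : Nat.Coprime s t
  pT : p ∣ T
  good : ∃ v : ℕ, p ^ v ∣ T ∧
    κ * ((q - 1 : ℕ) * Real.log (lo q t) + Real.log (max s t : ℕ)) ≤ v * Real.log p
  large : 50 * (3 / κ + 1) * Real.log (10 ^ 8 * (q : ℝ) ^ 9) ≤ Real.log (max s t : ℕ)

/-- `s + T = t` with `T` small compared with `t`. -/
structure PairR (κ : ℝ) (q : ℕ) (s t T : ℕ) : Prop where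
  s0 : 0 < s
  T0 : 0 < T
  eq : s + T = t
  co : Nat.Coprime s t
  good : (q - 1 : ℕ) * Real.log (lo q t) + Real.log T ≤
    (1 - κ) * ((q - 1 : ℕ) * Real.log (lo q t) + Real.log t)
  large : 50 * (3 / κ + 1) * Real.log (10 ^ 8 * (q : ℝ) ^ 9) ≤ Real.log t

/-- The parameter `κ`. -/
noncomputable def kap (W : ℕ) : ℝ := 1 / (8 * (W : ℝ))

/-- The bound for `q`. -/
def QQ (W : ℕ) : ℕ := 19200 * W ^ 2

/-- The bound for the exponents in the solutions of small height. -/
def EE (X W : ℕ) : ℕ := QQ W ^ 2 * (Nat.log 2 X + 1)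

/-- The triple `(s, t, T)` with `t - σ s = T`, radical `n`, and with two large primes in `T`. -/
structure Cfg (X W y n : ℕ) (σ : ℤ) (s t T : ℕ) : Prop where
  s0 : 0 < s
  t0 : 0 < t
  T0 : 0 < T
  eq : (t : ℤ) - σ * s = T
  st : Nat.Coprime s t
  sT : Nat.Coprime s T
  tT : Nat.Coprime t T
  n_eq : rad (s * t * T) = n
  nX : n ≤ X
  om : n.primeFactors.card ≤ W
  two : 2 ≤ (T.primeFactors.filter (fun p => y < p)).card

/-- `n` has at most `W` prime factors, at least four of them larger than `y`. -/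
def Typ (X W y n : ℕ) : Prop :=
  n ≤ X ∧ n.primeFactors.card ≤ W ∧ 4 ≤ (n.primeFactors.filter (fun p => y < p)).card

/-- `n` is the radical of `a b (a + b)` for some coprime positive `a`, `b`. -/
def IsRad (n : ℕ) : Prop :=
  ∃ a b : ℕ, 0 < a ∧ 0 < b ∧ Nat.Coprime a b ∧ rad (a * b * (a + b)) = n

/-- `z` to the number of prime factors of `n` larger than `y`. -/
noncomputable def wt (z : ℝ) (y n : ℕ) : ℝ := z ^ (n.primeFactors.filter (fun p => y < p)).card

/-- The data: two divisors of `m ^ E` and a prime divisor of `m`, for squarefree `m ≤ Z` with at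
most `W` prime factors. -/
def dataP (Z W E : ℕ) : Finset (ℕ × ℕ × ℕ) :=
  ((Icc 1 Z).filter (fun m => Squarefree m ∧ m.primeFactors.card ≤ W)).biUnion
    (fun m => (m ^ E).divisors ×ˢ (m ^ E).divisors ×ˢ m.primeFactors)

/-- The data without the prime. -/
def data (Z W E : ℕ) : Finset (ℕ × ℕ) :=
  ((Icc 1 Z).filter (fun m => Squarefree m ∧ m.primeFactors.card ≤ W)).biUnion
    (fun m => (m ^ E).divisors ×ˢ (m ^ E).divisors)

end Pool.Agent.H374R2.Z
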