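import Mathlib
import Pool.Agent.H374R2.Z.Defs

/-!
Further definitions (powers as terms of abc triples).
-/

namespace Pool.Agent.H374R2.Z

open Finset

/-- Pairs of divisors of `m ^ E`, `m ≤ M` squarefree. -/
def dataQ (M E : ℕ) : Finset (ℕ × ℕ) :=
  ((Icc 1 M).filter Squarefree).biUnion (fun m => (m ^ E).divisors ×ˢ (m ^ E).divisors)

/-- Bases `B` of powers in triples of the `p`-adic kind. -/
def SetQP (κ : ℝ) (q p M N : ℕ) (σ : ℤ) : Set ℕ :=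
  {B | 0 < B ∧ B ≤ N ∧ (¬ ∃ w k : ℕ, 2 ≤ k ∧ B = w ^ k) ∧
    ∃ y s t : ℕ, 0 < y ∧ PairP κ q p σ s t (B ^ y) ∧ rad (s * t) ≤ M}

/-- Bases `B` of powers in triples of the real kind. -/
def SetQR (κ : ℝ) (q M N : ℕ) : Set ℕ :=
  {B | 0 < B ∧ B ≤ N ∧ (¬ ∃ w k : ℕ, 2 ≤ k ∧ B = w ^ k) ∧
    ∃ y s t : ℕ, 0 < y ∧ PairR κ q s t (B ^ y) ∧ rad (s * t) ≤ M}

end Pool.Agent.H374R2.Z
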