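import Pool.Agent.H374R2.Z.Defs

/-! Task CD: the number of data. -/

namespace Pool.Agent.H374R2.Z.CD

open Finset
open Pool.Agent.H374R2.Z

theorem card_div {m W E : ℕ} (hm : m ≠ 0) (hsq : Squarefree m) (hW : m.primeFactors.card ≤ W) :
    (m ^ E).divisors.card ≤ (E + 1) ^ W := by
  have h0 : m ^ E ≠ 0 := pow_ne_zero _ hm
  rw [Nat.card_divisors h0]
  have hsub : (m ^ E).primeFactors ⊆ m.primeFactors := by
    intro p hp
    rw [Nat.mem_primeFactors] at hp ⊢
    exact ⟨hp.1, hp.1.dvd_of_dvd_pow hp.2.1, hm⟩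
  calc ∏ x ∈ (m ^ E).primeFactors, ((m ^ E).factorization x + 1)
      ≤ ∏ x ∈ (m ^ E).primeFactors, (E + 1) := by
        refine Finset.prod_le_prod' fun x hx => ?_
        rw [Nat.factorization_pow]
        have h1 : m.factorization x ≤ 1 := hsq.natFactorization_le_one x
        have h2 : (E • m.factorization) x = E * m.factorization x := by simp
        rw [h2]
        nlinarith
    _ = (E + 1) ^ (m ^ E).primeFactors.card := by rw [Finset.prod_const]
    _ ≤ (E + 1) ^ W := Nat.pow_le_pow_right (by omega) ((Finset.card_le_card hsub).trans hW)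

/-- Task CD (number of data). -/
theorem card_dataP (Z W E : ℕ) : (dataP Z W E).card ≤ Z * (W * (E + 1) ^ (2 * W)) := by
  unfold dataP
  refine Finset.card_biUnion_le.trans ?_
  refine (Finset.sum_le_card_nsmul _ _ (W * (E + 1) ^ (2 * W)) fun m hm => ?_).trans ?_
  · rw [Finset.mem_filter, Finset.mem_Icc] at hm
    have h1 := card_div (E := E) (by omega : m ≠ 0) hm.2.1 hm.2.2
    rw [Finset.card_product, Finset.card_product]
    calc (m ^ E).divisors.card * ((m ^ E).divisors.card * m.primeFactors.card)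
        ≤ (E + 1) ^ W * ((E + 1) ^ W * W) :=
          Nat.mul_le_mul h1 (Nat.mul_le_mul h1 hm.2.2)
      _ = W * (E + 1) ^ (2 * W) := by ring
  · rw [smul_eq_mul]
    refine Nat.mul_le_mul_right _ ?_
    exact (Finset.card_filter_le _ _).trans (by simp)

/-- Task CD, second part. -/
theorem card_data (Z W E : ℕ) : (data Z W E).card ≤ Z * (E + 1) ^ (2 * W) := by
  unfold data
  refine Finset.card_biUnion_le.trans ?_
  refine (Finset.sum_le_card_nsmul _ _ ((E + 1) ^ (2 * W)) fun m hm => ?_).trans ?_
  · rw [Finset.mem_filter, Finset.mem_Icc] at hm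
    have h1 := card_div (E := E) (by omega : m ≠ 0) hm.2.1 hm.2.2
    rw [Finset.card_product]
    calc (m ^ E).divisors.card * (m ^ E).divisors.card
        ≤ (E + 1) ^ W * (E + 1) ^ W := Nat.mul_le_mul h1 h1
      _ = (E + 1) ^ (2 * W) := by ring
  · rw [smul_eq_mul]
    refine Nat.mul_le_mul_right _ ?_
    exact (Finset.card_filter_le _ _).trans (by simp)

end Pool.Agent.H374R2.Z.CD
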