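import Mathlib
import Pool.Agent.H374R2.Z.Defs
import Pool.Agent.H374R2.FcA

/-!
Task CL: at most `q` pairs for given data, `p`-adic kind, as a consequence of the uniqueness
theorem UPT and of the decomposition L (taken as explicit hypotheses).
-/

set_option autoImplicit false

namespace Pool.Agent.H374R2.Z.CL

open Finset Pool.Agent.H374R2.Z

/-- Task CL (at most `q` pairs for given data, `p`-adic; consequence of UPT). -/
theorem class_card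
    (hL : ∀ {q s : ℕ}, 0 < q → 0 < s → 0 < lo q s ∧ 0 < hi q s ∧ lo q s * hi q s ^ q = s ∧
      lo q s ∣ rad s ^ (q - 1))
    (hU : ∀ {κ : ℝ} {q p s t T s' t' T' : ℕ} {σ : ℤ}, 0 < κ → κ ≤ 1 → IsPrimePow q →
      100 / κ ^ 2 ≤ q → p.Prime → ¬ p ∣ q → (σ = 1 ∨ σ = -1) → PairP κ q p σ s t T →
      PairP κ q p σ s' t' T' → lo q s = lo q s' → lo q t = lo q t' →
      hi q t * hi q s' ≡ hi q t' * hi q s [MOD p] → s = s' ∧ t = t')
    {κ : ℝ} {q p d e : ℕ} {σ : ℤ} (hκ0 : 0 < κ) (hκ1 : κ ≤ 1)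
    (hq : IsPrimePow q) (hqκ : 100 / κ ^ 2 ≤ q) (hp : p.Prime) (hpq : ¬ p ∣ q)
    (hσ : σ = 1 ∨ σ = -1) :
    {w : ℕ × ℕ | (∃ T, PairP κ q p σ w.1 w.2 T) ∧ lo q w.1 = d ∧ lo q w.2 = e}.Finite ∧
    {w : ℕ × ℕ | (∃ T, PairP κ q p σ w.1 w.2 T) ∧ lo q w.1 = d ∧ lo q w.2 = e}.ncard ≤ q := by
  classical
  have hq0 : 0 < q := hq.pos
  have : Fact p.Prime := ⟨hp⟩
  set SS := {w : ℕ × ℕ | (∃ T, PairP κ q p σ w.1 w.2 T) ∧ lo q w.1 = d ∧ lo q w.2 = e} with hSS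
  -- facts modulo `p`
  have hfacts : ∀ w ∈ SS, (w.1 : ZMod p) ≠ 0 ∧ (w.2 : ZMod p) ≠ 0 ∧
      (w.2 : ZMod p) = (σ : ZMod p) * (w.1 : ZMod p) := by
    rintro w ⟨⟨T, hT⟩, -, -⟩
    have h1 := congrArg (fun z : ℤ => (z : ZMod p)) hT.eq
    have h2 : (T : ZMod p) = 0 := (ZMod.natCast_eq_zero_iff _ _).mpr hT.pT
    push_cast at h1
    rw [h2, sub_eq_zero] at h1
    have hσ0 : (σ : ZMod p) ≠ 0 := by
      rcases hσ with h | h
      · rw [h]; simp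
      · rw [h]; simp
    have hs0 : (w.1 : ZMod p) ≠ 0 := by
      intro h0
      have h3 : (w.2 : ZMod p) = 0 := by rw [h1, h0, mul_zero]
      rw [ZMod.natCast_eq_zero_iff] at h0 h3
      exact hp.not_dvd_one (hT.co ▸ Nat.dvd_gcd h0 h3)
    exact ⟨hs0, by rw [h1]; exact mul_ne_zero hσ0 hs0, h1⟩
  have hhi : ∀ w ∈ SS, (hi q w.1 : ZMod p) ≠ 0 ∧ (hi q w.2 : ZMod p) ≠ 0 ∧ (e : ZMod p) ≠ 0 ∧
      (e : ZMod p) * (hi q w.2 : ZMod p) ^ q =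
        (σ : ZMod p) * ((d : ZMod p) * (hi q w.1 : ZMod p) ^ q) := by
    intro w hw
    obtain ⟨h1, h2, h3⟩ := hfacts w hw
    obtain ⟨⟨T, hT⟩, hd, he⟩ := hw
    obtain ⟨-, -, h4, -⟩ := hL hq0 hT.s0
    obtain ⟨-, -, h5, -⟩ := hL hq0 hT.t0
    rw [hd] at h4
    rw [he] at h5
    have h6 : (d : ZMod p) * (hi q w.1 : ZMod p) ^ q = (w.1 : ZMod p) := by
      rw [← Nat.cast_pow, ← Nat.cast_mul, h4]
    have h7 : (e : ZMod p) * (hi q w.2 : ZMod p) ^ q = (w.2 : ZMod p) := by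
      rw [← Nat.cast_pow, ← Nat.cast_mul, h5]
    refine ⟨?_, ?_, ?_, ?_⟩
    · intro h0
      rw [h0, zero_pow hq0.ne', mul_zero] at h6
      exact h1 h6.symm
    · intro h0
      rw [h0, zero_pow hq0.ne', mul_zero] at h7
      exact h2 h7.symm
    · intro h0
      rw [h0, zero_mul] at h7
      exact h2 h7.symm
    · rw [h6, h7, h3]
  have hmaps : ∀ w ∈ SS, ((hi q w.2 : ZMod p) * (hi q w.1 : ZMod p)⁻¹) ∈
      {u : ZMod p | u ^ q = (σ : ZMod p) * (d : ZMod p) * (e : ZMod p)⁻¹} := by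
    intro w hw
    obtain ⟨h1, h2, h3, h4⟩ := hhi w hw
    rw [Set.mem_ofPred_eq, mul_pow, inv_pow]
    have h5 : (hi q w.1 : ZMod p) ^ q ≠ 0 := pow_ne_zero _ h1
    field_simp
    rw [mul_comm, h4]
    ring
  have hinj : Set.InjOn (fun w : ℕ × ℕ => (hi q w.2 : ZMod p) * (hi q w.1 : ZMod p)⁻¹) SS := by
    intro w hw w' hw' hww
    obtain ⟨h1, h2, -, -⟩ := hhi w hw
    obtain ⟨h1', h2', -, -⟩ := hhi w' hw'
    obtain ⟨⟨T, hT⟩, hd, he⟩ := hw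
    obtain ⟨⟨T', hT'⟩, hd', he'⟩ := hw'
    have hroot : hi q w.2 * hi q w'.1 ≡ hi q w'.2 * hi q w.1 [MOD p] := by
      rw [← ZMod.natCast_eq_natCast_iff]
      push_cast
      have h3 : (hi q w.2 : ZMod p) * (hi q w.1 : ZMod p)⁻¹ =
          (hi q w'.2 : ZMod p) * (hi q w'.1 : ZMod p)⁻¹ := hww
      field_simp at h3
      rw [h3, mul_comm]
    obtain ⟨e1, e2⟩ := hU hκ0 hκ1 hq hqκ hp hpq hσ hT hT' (hd.trans hd'.symm)
      (he.trans he'.symm) hroot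
    exact Prod.ext e1 e2
  refine ⟨Set.Finite.of_injOn hmaps hinj (Set.toFinite _), ?_⟩
  exact (Set.ncard_le_ncard_of_injOn _ hmaps hinj).trans (Fc.roots_le hp hq0 _)

end Pool.Agent.H374R2.Z.CL
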