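import Pool.Agent.H374R2.Z.Defs
import Pool.Agent.H925R.Szpiro.Semi

/-!
Conductors of semistable elliptic curves with full 2-torsion.
-/

namespace Pool.Agent.H374R2.Z.EC

open Finset Pool.Agent.H374R2.Z

theorem rad_cond (W : WeierstrassCurve ℤ) (hΔ : W.Δ ≠ 0) (g m : ℕ) (hg : g = 1 ∨ g = 2)
    (hm0 : m ≠ 0) (hm2 : 2 ∣ m) (hD : 256 * W.Δ = (g : ℤ) ^ 6 * (m : ℤ) ^ 2) :
    rad m = Pool.Agent.H925R.Szpiro.cond W ∨ rad m = 2 * Pool.Agent.H925R.Szpiro.cond W := by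
  classical
  have heq : m.primeFactors = insert 2 W.Δ.natAbs.primeFactors := by
    ext p
    rw [mem_insert]
    constructor
    · intro hp
      have hpp := Nat.prime_of_mem_primeFactors hp
      have hpn := Nat.dvd_of_mem_primeFactors hp
      by_cases h2 : p = 2
      · exact Or.inl h2
      · right
        have h3 : (p : ℤ) ∣ 256 * W.Δ := by
          rw [hD]
          exact Dvd.dvd.mul_left (Dvd.dvd.pow (by exact_mod_cast hpn) (by norm_num)) _
        have hpc : IsCoprime (p : ℤ) 256 := by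
          have : Nat.Coprime p 256 := by
            have : (256 : ℕ) = 2 ^ 8 := by norm_num
            rw [this]
            exact Nat.Coprime.pow_right _ ((Nat.coprime_primes hpp Nat.prime_two).mpr h2)
          exact_mod_cast Nat.isCoprime_iff_coprime.mpr this
        have h4 : (p : ℤ) ∣ W.Δ := hpc.dvd_of_dvd_mul_left h3
        exact Nat.mem_primeFactors.mpr ⟨hpp, Int.natCast_dvd.mp h4, Int.natAbs_ne_zero.mpr hΔ⟩
    · rintro (rfl | hp)
      · exact Nat.mem_primeFactors.mpr ⟨Nat.prime_two, hm2, hm0⟩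
      · have hpp := Nat.prime_of_mem_primeFactors hp
        have hpn : (p : ℤ) ∣ W.Δ := Int.natCast_dvd.mpr (Nat.dvd_of_mem_primeFactors hp)
        have h3 : (p : ℤ) ∣ (g : ℤ) ^ 6 * (m : ℤ) ^ 2 := by
          rw [← hD]; exact Dvd.dvd.mul_left hpn _
        have h4 : p ∣ g ^ 6 * m ^ 2 := by exact_mod_cast h3
        refine Nat.mem_primeFactors.mpr ⟨hpp, ?_, hm0⟩
        rcases (Nat.Prime.dvd_mul hpp).mp h4 with h5 | h5
        · have h6 : p ∣ g := hpp.dvd_of_dvd_pow h5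
          rcases hg with rfl | rfl
          · exact absurd (Nat.dvd_one.mp h6) hpp.one_lt.ne'
          · exact h6.trans hm2
        · exact hpp.dvd_of_dvd_pow h5
  unfold rad Pool.Agent.H925R.Szpiro.cond
  rw [heq]
  by_cases h2 : 2 ∈ W.Δ.natAbs.primeFactors
  · left; rw [insert_eq_of_mem h2]
  · right; rw [prod_insert h2]

theorem even_pair (u v : ℕ) : 2 ∣ u * v * (u + v) := by
  rcases Nat.even_or_odd u with h | h
  · exact (h.two_dvd.mul_right v).mul_right _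
  · rcases Nat.even_or_odd v with h' | h'
    · exact (h'.two_dvd.mul_left u).mul_right _
    · exact (h.add_odd h').two_dvd.mul_left _

theorem log_two_mul (ε : ℝ) (X : ℕ) (hX : 2 ≤ X) :
    (2 : ℝ) ^ (-|1 - ε|) * Real.log X ^ (1 - ε) ≤ Real.log ((2 * X : ℕ) : ℝ) ^ (1 - ε) := by
  have hX' : (2 : ℝ) ≤ X := by exact_mod_cast hX
  have hl : 0 < Real.log X := Real.log_pos (by linarith)
  have hl2 : Real.log ((2 * X : ℕ) : ℝ) = Real.log 2 + Real.log X := by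
    push_cast
    rw [Real.log_mul (by norm_num) (by positivity)]
  have hlog2 : 0 < Real.log 2 := Real.log_pos (by norm_num)
  have h2X : Real.log 2 ≤ Real.log X := Real.log_le_log (by norm_num) hX'
  rcases le_total 0 (1 - ε) with h | h
  · have h1 : Real.log X ^ (1 - ε) ≤ Real.log ((2 * X : ℕ) : ℝ) ^ (1 - ε) :=
      Real.rpow_le_rpow hl.le (by rw [hl2]; linarith) h
    have h2 : (2 : ℝ) ^ (-|1 - ε|) ≤ 1 :=
      Real.rpow_le_one_of_one_le_of_nonpos (by norm_num) (by simp)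
    have h3 : 0 ≤ Real.log X ^ (1 - ε) := by positivity
    calc _ ≤ 1 * Real.log X ^ (1 - ε) := by gcongr
      _ ≤ _ := by rw [one_mul]; exact h1
  · rw [abs_of_nonpos h, neg_neg]
    rw [← Real.mul_rpow (by norm_num) hl.le]
    refine Real.rpow_le_rpow_of_nonpos ?_ ?_ h
    · rw [hl2]; positivity
    · rw [hl2]; linarith

theorem fin_le (P : ℕ → Prop) (X : ℕ) : {n | n ≤ X ∧ P n}.Finite :=
  Set.Finite.subset (Set.finite_Iic X) (fun _ h => h.1)

/-- Task EC (conductors of semistable curves with full 2-torsion; hypothesis FIN). -/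
theorem semi (hFIN : ∀ {ε : ℝ}, 0 < ε → ∃ C : ℝ, 0 < C ∧ ∀ X : ℕ, 2 ≤ X →
    ({n | n ≤ X ∧ Pool.Agent.H374R2.Z.IsRad n}.ncard : ℝ) ≤ C * X / Real.log X ^ (1 - ε))
    {ε : ℝ} (hε : 0 < ε) : ∃ C : ℝ, 0 < C ∧ ∀ X : ℕ, 2 ≤ X →
    ({n : ℕ | n ≤ X ∧ ∃ W : WeierstrassCurve ℤ, W.Δ ≠ 0 ∧ IsCoprime W.c₄ W.Δ ∧
      Pool.Agent.H925R.Szpiro.Full W ∧ Pool.Agent.H925R.Szpiro.cond W = n}.ncard : ℝ) ≤
      C * X / Real.log X ^ (1 - ε) := by
  classical
  obtain ⟨C, hC, h⟩ := hFIN hε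
  refine ⟨C + 2 * C * 2 ^ |1 - ε|, by positivity, fun X hX => ?_⟩
  set R : ℕ → Set ℕ := fun Y => {n | n ≤ Y ∧ IsRad n} with hR
  have hfinR : ∀ Y, (R Y).Finite := fun Y => fin_le _ Y
  have hsub : {n : ℕ | n ≤ X ∧ ∃ W : WeierstrassCurve ℤ, W.Δ ≠ 0 ∧ IsCoprime W.c₄ W.Δ ∧
      Pool.Agent.H925R.Szpiro.Full W ∧ Pool.Agent.H925R.Szpiro.cond W = n} ⊆
      R X ∪ (fun n => n / 2) '' (R (2 * X)) := by
    rintro n ⟨hnX, W, hΔ, hc, hf, hn⟩
    obtain ⟨g, u, v, hg, hu, hv, hcop, E4, ED⟩ :=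
      Pool.Agent.H925R.Szpiro.semi_pair W hΔ hc hf
    have hD' : 256 * W.Δ = (g : ℤ) ^ 6 * ((u * v * (u + v) : ℕ) : ℤ) ^ 2 := by
      rw [ED]; push_cast; ring
    have hm0 : u * v * (u + v) ≠ 0 := by positivity
    rcases rad_cond W hΔ g _ hg hm0 (even_pair u v) hD' with h1 | h1
    · left
      exact ⟨hnX, u, v, hu, hv, hcop, h1.trans hn⟩
    · right
      refine ⟨2 * n, ⟨by omega, u, v, hu, hv, hcop, ?_⟩, by simp⟩
      rw [h1, hn]
  have h1 := h X hX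
  have h2 := h (2 * X) (by omega)
  have hcard : ({n : ℕ | n ≤ X ∧ ∃ W : WeierstrassCurve ℤ, W.Δ ≠ 0 ∧ IsCoprime W.c₄ W.Δ ∧
      Pool.Agent.H925R.Szpiro.Full W ∧ Pool.Agent.H925R.Szpiro.cond W = n}.ncard : ℝ) ≤
      (R X).ncard + (R (2 * X)).ncard := by
    have h3 := Set.ncard_le_ncard hsub ((hfinR X).union ((hfinR (2 * X)).image _))
    have h4 := Set.ncard_union_le (R X) ((fun n => n / 2) '' (R (2 * X)))
    have h5 := Set.ncard_image_le (f := fun n => n / 2) (hfinR (2 * X))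
    exact_mod_cast h3.trans (h4.trans (Nat.add_le_add_left h5 _))
  have hX' : (2 : ℝ) ≤ X := by exact_mod_cast hX
  have hl : 0 < Real.log X := Real.log_pos (by linarith)
  have hpos : 0 < Real.log X ^ (1 - ε) := by positivity
  have hpos2 : 0 < (2 : ℝ) ^ (-|1 - ε|) * Real.log X ^ (1 - ε) := by positivity
  have h6 := log_two_mul ε X hX
  have h7 : C * ((2 * X : ℕ) : ℝ) / Real.log ((2 * X : ℕ) : ℝ) ^ (1 - ε) ≤
      C * ((2 * X : ℕ) : ℝ) / ((2 : ℝ) ^ (-|1 - ε|) * Real.log X ^ (1 - ε)) :=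
    div_le_div_of_nonneg_left (by positivity) hpos2 h6
  have h8 : C * ((2 * X : ℕ) : ℝ) / ((2 : ℝ) ^ (-|1 - ε|) * Real.log X ^ (1 - ε)) =
      2 * C * 2 ^ |1 - ε| * X / Real.log X ^ (1 - ε) := by
    rw [Real.rpow_neg (by norm_num)]
    push_cast
    field_simp
  calc _ ≤ ((R X).ncard : ℝ) + (R (2 * X)).ncard := hcard
    _ ≤ C * X / Real.log X ^ (1 - ε) + 2 * C * 2 ^ |1 - ε| * X / Real.log X ^ (1 - ε) := by
      rw [← h8]
      exact add_le_add h1 (h2.trans h7)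
    _ = _ := by ring

end Pool.Agent.H374R2.Z.EC
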