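import Mathlib

/-!
Task DOM: a dominating prime power.
-/

set_option autoImplicit false

namespace Pool.Agent.H374R2.Z.DOM

open Finset

/-- Task DOM (dominating prime power). -/
theorem dom {T W : ℕ} (hT : 2 ≤ T) (hc : T.primeFactors.card ≤ W) :
    ∃ p ∈ T.primeFactors, T ≤ (p ^ T.factorization p) ^ W := by
  have hne : T.primeFactors.Nonempty := Nat.nonempty_primeFactors.mpr (by omega)
  obtain ⟨p, hp, hmax⟩ := exists_max_image T.primeFactors (fun p => p ^ T.factorization p) hne
  refine ⟨p, hp, ?_⟩
  have h1 : ∏ q ∈ T.primeFactors, q ^ T.factorization q = T := by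
    have := Nat.prod_factorization_pow_eq_self (n := T) (by omega)
    rwa [Finsupp.prod, Nat.support_factorization] at this
  have h2 : ∏ q ∈ T.primeFactors, q ^ T.factorization q ≤
      (p ^ T.factorization p) ^ T.primeFactors.card :=
    prod_le_pow_card _ _ _ hmax
  have h3 : 1 ≤ p ^ T.factorization p :=
    Nat.one_le_pow _ _ (Nat.prime_of_mem_primeFactors hp).pos
  calc T = ∏ q ∈ T.primeFactors, q ^ T.factorization q := h1.symm
    _ ≤ (p ^ T.factorization p) ^ T.primeFactors.card := h2
    _ ≤ (p ^ T.factorization p) ^ W := Nat.pow_le_pow_right h3 hc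

end Pool.Agent.H374R2.Z.DOM
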