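import Pool.Agent.H374R2.Z.Defs

/-!
# Task FIN of project Z
-/

set_option autoImplicit false

namespace Pool.Agent.H374R2.Z.FIN

open Finset
open Pool.Agent.H374R2.Z

theorem rad_pos (n : ℕ) : 0 < rad n :=
  Finset.prod_pos fun _ hp => (Nat.prime_of_mem_primeFactors hp).pos

/-- Logarithms: `log X ≤ Nat.log 2 X + 1`. -/
theorem log_le {X : ℕ} (hX : 2 ≤ X) : Real.log X ≤ (Nat.log 2 X : ℝ) + 1 := by
  have h1 : X < 2 ^ (Nat.log 2 X + 1) := Nat.lt_pow_succ_log_self (by norm_num) X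
  have h2 : (X : ℝ) ≤ 2 ^ (Nat.log 2 X + 1) := by exact_mod_cast h1.le
  have h3 : Real.log X ≤ Real.log ((2 : ℝ) ^ (Nat.log 2 X + 1)) :=
    Real.log_le_log (by positivity) h2
  rw [Real.log_pow] at h3
  have h4 : Real.log 2 ≤ 1 := by
    have := Real.log_two_lt_d9
    linarith
  push_cast at h3
  have h5 : (0 : ℝ) ≤ (Nat.log 2 X : ℝ) + 1 := by positivity
  nlinarith

/-- `Nat.log 2 X ≤ 2 log X`. -/
theorem le_log {X : ℕ} (hX : 2 ≤ X) : (Nat.log 2 X : ℝ) ≤ 2 * Real.log X := by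
  have h1 : 2 ^ Nat.log 2 X ≤ X := Nat.pow_log_le_self 2 (by omega)
  have h2 : ((2 : ℝ) ^ Nat.log 2 X) ≤ X := by exact_mod_cast h1
  have h3 : Real.log ((2 : ℝ) ^ Nat.log 2 X) ≤ Real.log X :=
    Real.log_le_log (by positivity) h2
  rw [Real.log_pow] at h3
  have h4 : (1 : ℝ) / 2 ≤ Real.log 2 := by
    have := Real.log_two_gt_d9
    linarith
  have h5 : (0 : ℝ) ≤ (Nat.log 2 X : ℝ) := by positivity
  nlinarith

/-- The number `l` is small. -/
theorem l_le {X l : ℕ} (hX : 2 ≤ X) (hl : l = Nat.log 2 (Nat.log 2 X) + 1)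
    (hu : 1 ≤ Real.log X) : (l : ℝ) ≤ 3 + 2 * Real.log (Real.log X) := by
  have hL : 1 ≤ Nat.log 2 X := Nat.log_pos (by norm_num) hX
  have h1 : 2 ^ Nat.log 2 (Nat.log 2 X) ≤ Nat.log 2 X := Nat.pow_log_le_self 2 (by omega)
  have h2 : ((2 : ℝ) ^ Nat.log 2 (Nat.log 2 X)) ≤ 2 * Real.log X :=
    le_trans (by exact_mod_cast h1) (le_log hX)
  have h3 : Real.log ((2 : ℝ) ^ Nat.log 2 (Nat.log 2 X)) ≤ Real.log (2 * Real.log X) :=
    Real.log_le_log (by positivity) h2
  rw [Real.log_pow, Real.log_mul (by norm_num) (by linarith)] at h3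
  have h4 : (1 : ℝ) / 2 ≤ Real.log 2 := by
    have := Real.log_two_gt_d9
    linarith
  have h4' : Real.log 2 ≤ 1 := by
    have := Real.log_two_lt_d9
    linarith
  have h5 : (0 : ℝ) ≤ (Nat.log 2 (Nat.log 2 X) : ℝ) := by positivity
  have h6 : (0 : ℝ) ≤ Real.log (Real.log X) := Real.log_nonneg hu
  rw [hl]
  push_cast
  nlinarith

/-- Powers of `l` are smaller than powers of `log X`. -/
theorem l_cube {δ : ℝ} (hδ : 0 < δ) : ∃ C : ℝ, 1 ≤ C ∧ ∀ X l : ℕ, 2 ≤ X →
    l = Nat.log 2 (Nat.log 2 X) + 1 → 1 ≤ Real.log X →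
    (l : ℝ) ^ 3 ≤ C * Real.log X ^ δ := by
  refine ⟨(3 + 2 * (3 / δ)) ^ 3, ?_, ?_⟩
  · have h1 : (1 : ℝ) ≤ 3 + 2 * (3 / δ) := by
      have : 0 < 3 / δ := by positivity
      linarith
    exact one_le_pow₀ h1
  · intro X l hX hl hu
    have h1 := l_le hX hl hu
    have h2 : Real.log (Real.log X) ≤ Real.log X ^ (δ / 3) / (δ / 3) :=
      Real.log_le_rpow_div (by linarith) (by positivity)
    have h3 : (1 : ℝ) ≤ Real.log X ^ (δ / 3) := Real.one_le_rpow hu (by positivity)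
    have h4 : (l : ℝ) ≤ (3 + 2 * (3 / δ)) * Real.log X ^ (δ / 3) := by
      have h5 : Real.log X ^ (δ / 3) / (δ / 3) = (3 / δ) * Real.log X ^ (δ / 3) := by
        field_simp
      rw [h5] at h2
      nlinarith
    calc (l : ℝ) ^ 3 ≤ ((3 + 2 * (3 / δ)) * Real.log X ^ (δ / 3)) ^ 3 :=
          pow_le_pow_left₀ (by positivity) h4 3
      _ = (3 + 2 * (3 / δ)) ^ 3 * Real.log X ^ δ := by
          rw [mul_pow]
          congr 1
          rw [← Real.rpow_natCast, ← Real.rpow_mul (by linarith)]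
          congr 1
          push_cast
          ring

/-- The trivial bound. -/
theorem trivial_bound (X : ℕ) (hX : 2 ≤ X) : ({n | n ≤ X ∧ IsRad n}.ncard : ℝ) ≤ 2 * X := by
  have h1 : {n | n ≤ X ∧ IsRad n} ⊆ (↑(Finset.range (X + 1)) : Set ℕ) := by
    intro n hn
    rw [Finset.coe_range, Set.mem_Iio]
    have := hn.1
    omega
  have h2 := Set.ncard_le_ncard h1 (Finset.finite_toSet _)
  rw [Set.ncard_coe_finset, Finset.card_range] at h2
  have h3 : (({n | n ≤ X ∧ IsRad n}.ncard : ℕ) : ℝ) ≤ ((X + 1 : ℕ) : ℝ) := by exact_mod_cast h2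
  refine le_trans h3 ?_
  push_cast
  have h4 : (2 : ℝ) ≤ X := by exact_mod_cast hX
  linarith

theorem part3 {C₂ ε u v : ℝ} (hC₂ : 1 ≤ C₂) (hε : 0 < ε) (hε1 : ε ≤ 1 / 2) (hu1 : 1 ≤ u)
    (h2 : 0 ≤ v) (h1 : v ≤ C₂ * u ^ (ε / 2)) :
    (v / u) ^ (1 - ε / 2) ≤ C₂ * (u ^ (1 - ε))⁻¹ := by
  have hlogpos : 0 < u := by linarith
  have h3 : v / u ≤ C₂ * u ^ (-(1 - ε / 2)) := by
    rw [div_le_iff₀ hlogpos]
    refine le_trans h1 (le_of_eq ?_)
    rw [mul_assoc]
    congr 1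
    nth_rewrite 3 [← Real.rpow_one u]
    rw [← Real.rpow_add hlogpos]
    congr 1
    ring
  have h4 : (v / u) ^ (1 - ε / 2) ≤ (C₂ * u ^ (-(1 - ε / 2))) ^ (1 - ε / 2) :=
    Real.rpow_le_rpow (div_nonneg h2 hlogpos.le) h3 (by linarith)
  refine le_trans h4 ?_
  rw [Real.mul_rpow (by linarith) (by positivity), ← Real.rpow_mul hlogpos.le,
    ← Real.rpow_neg hlogpos.le]
  have h6 : C₂ ^ (1 - ε / 2) ≤ C₂ := by
    calc C₂ ^ (1 - ε / 2) ≤ C₂ ^ (1 : ℝ) :=
          Real.rpow_le_rpow_of_exponent_le hC₂ (by linarith)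
      _ = C₂ := Real.rpow_one C₂
  have h7 : u ^ (-(1 - ε / 2) * (1 - ε / 2)) ≤ u ^ (-(1 - ε)) := by
    apply Real.rpow_le_rpow_of_exponent_le hu1
    nlinarith [sq_nonneg ε]
  exact mul_le_mul h6 h7 (by positivity) (by linarith)

theorem main
    (main_count : ∀ {X W y : ℕ}, 2 ≤ X → 1 ≤ W → 1 ≤ y →
      {n | Typ X W y n ∧ IsRad n}.Finite ∧
      {n | Typ X W y n ∧ IsRad n}.ncard ≤ (X / y) * (8 * W * (EE X W + 2) ^ (2 * W + 1)))
    (few_large : ∀ {z : ℝ}, 0 < z → z ≤ 1 → ∃ C : ℝ, 0 < C ∧ ∀ y X : ℕ, 3 ≤ y →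
      y ≤ X → (((Icc 1 X).filter
        (fun n => (n.primeFactors.filter (fun p => y < p)).card ≤ 3)).card : ℝ) ≤
        C * X * (Real.log y / Real.log X) ^ (1 - z))
    (many_primes : ∀ {X W : ℕ}, 1 ≤ X →
      (((Icc 1 X).filter (fun n => W < n.primeFactors.card)).card : ℝ) * 2 ^ W ≤
        X * (1 + Real.log X))
    (num_final : ∃ X₀ : ℕ, ∀ X l : ℕ, X₀ ≤ X → l = Nat.log 2 (Nat.log 2 X) + 1 →
      8 * (10 * l) * (EE X (10 * l) + 2) ^ (2 * (10 * l) + 1) * (Nat.log 2 X + 1) ≤ 2 ^ (l ^ 3))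
    {ε : ℝ} (hε : 0 < ε) (hε1 : ε ≤ 1 / 2) : ∃ C : ℝ, 0 < C ∧ ∀ X : ℕ, 2 ≤ X →
    ({n | n ≤ X ∧ IsRad n}.ncard : ℝ) ≤ C * X / Real.log X ^ (1 - ε) := by
  obtain ⟨X₀, hX₀⟩ := num_final
  obtain ⟨C₁, hC₁, hfew⟩ := few_large (z := ε / 2) (by positivity) (by linarith)
  obtain ⟨C₂, hC₂, hl2⟩ := l_cube (δ := ε / 2) (by positivity)
  obtain ⟨C₃, hC₃, hl3⟩ := l_cube (δ := 1 / 2) (by norm_num)
  -- the threshold
  obtain ⟨X₁, hX₁⟩ : ∃ X₁ : ℕ, ∀ X : ℕ, X₁ ≤ X → 2 + 4 * C₃ ^ 2 ≤ Real.log X := by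
    have h1 := (Real.tendsto_log_atTop.comp tendsto_natCast_atTop_atTop).eventually_ge_atTop
      (2 + 4 * C₃ ^ 2)
    exact Filter.eventually_atTop.mp h1
  set X₂ : ℕ := max (max X₀ X₁) 4 with hX₂
  refine ⟨2 * (1 + Real.log X₂) + (3 + C₁ * C₂), ?_, ?_⟩
  · have h1 : 0 ≤ Real.log X₂ := Real.log_natCast_nonneg X₂
    have h2 : 0 < C₁ * C₂ := by positivity
    linarith
  intro X hX
  have hlogpos : 0 < Real.log X := Real.log_pos (by exact_mod_cast hX)
  have hXR : (0 : ℝ) < X := by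
    have : 0 < X := by omega
    exact_mod_cast this
  have hden : 0 < Real.log X ^ (1 - ε) := Real.rpow_pos_of_pos hlogpos _
  have hlX2 : 0 ≤ Real.log X₂ := Real.log_natCast_nonneg X₂
  by_cases hbig : X₂ ≤ X
  · -- large X
    have hX0 : X₀ ≤ X := le_trans (le_trans (le_max_left _ _) (le_max_left _ _)) hbig
    have hX1 : X₁ ≤ X := le_trans (le_trans (le_max_right _ _) (le_max_left _ _)) hbig
    have hX4 : 4 ≤ X := le_trans (le_max_right _ _) hbig
    have hu := hX₁ X hX1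
    set u : ℝ := Real.log X with hudef
    have hC3sq : 0 ≤ 4 * C₃ ^ 2 := by positivity
    have hu2 : 2 ≤ u := by linarith
    have hu1 : 1 ≤ u := by linarith
    set L : ℕ := Nat.log 2 X with hL
    set l : ℕ := Nat.log 2 L + 1 with hl
    have hL2 : 2 ≤ L := by
      have h1 : Nat.log 2 4 ≤ Nat.log 2 X := Nat.log_mono_right hX4
      have h2 : Nat.log 2 4 = 2 := by
        rw [show (4 : ℕ) = 2 ^ 2 by norm_num, Nat.log_pow (by norm_num)]
      omega
    have hl2' : 2 ≤ l := by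
      have h1 : 1 ≤ Nat.log 2 L := Nat.log_pos (by norm_num) hL2
      omega
    have hLu : u ≤ (L : ℝ) + 1 := log_le hX
    -- y
    set y : ℕ := 2 ^ (l ^ 3) with hy
    have hlL : l ^ 3 ≤ L := by
      have h1 := hl3 X l hX rfl hu1
      have h2 : u ^ ((1 : ℝ) / 2) = √u := (Real.sqrt_eq_rpow u).symm
      rw [h2] at h1
      have h3 : 2 * C₃ ≤ √u := by
        apply Real.le_sqrt_of_sq_le
        nlinarith
      have h4 : √u * √u = u := Real.mul_self_sqrt (by linarith)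
      have h5 : 0 ≤ √u := Real.sqrt_nonneg u
      have h6 : (l : ℝ) ^ 3 ≤ u / 2 := by nlinarith
      have h7 : (l : ℝ) ^ 3 ≤ L := by linarith
      exact_mod_cast h7
    have hl2fact := hl2 X l hX rfl hu1
    have hNF := hX₀ X l hX0 rfl
    have hylog : Real.log (y : ℝ) = (l : ℝ) ^ 3 * Real.log 2 := by
      rw [hy]
      push_cast
      rw [Real.log_pow]
      push_cast
      ring
    have hLl : L + 1 ≤ 2 ^ l := Nat.lt_pow_succ_log_self (b := 2) (by norm_num) L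
    have hyX : y ≤ X := le_trans (Nat.pow_le_pow_right (by norm_num) hlL)
      (Nat.pow_log_le_self 2 (by omega))
    have hy3 : 3 ≤ y := by
      have h1 : 2 ^ 3 ≤ l ^ 3 := Nat.pow_le_pow_left hl2' 3
      have h2 : 2 ^ 2 ≤ 2 ^ (l ^ 3) := Nat.pow_le_pow_right (by norm_num) (by omega)
      omega
    have hyR : (0 : ℝ) < y := by
      have : 0 < y := by omega
      exact_mod_cast this
    have hNF' : 8 * (10 * l) * (EE X (10 * l) + 2) ^ (2 * (10 * l) + 1) * (L + 1) ≤ y := hNF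
    clear hNF
    clear_value y l L u X₂
    -- the three parts
    obtain ⟨hfin, hcount⟩ := main_count (X := X) (W := 10 * l) (y := y) hX (by omega) (by omega)
    have hsub : {n | n ≤ X ∧ IsRad n} ⊆ {n | Typ X (10 * l) y n ∧ IsRad n} ∪
        ((↑((Icc 1 X).filter (fun n => 10 * l < n.primeFactors.card)) : Set ℕ) ∪
        (↑((Icc 1 X).filter (fun n => (n.primeFactors.filter (fun p => y < p)).card ≤ 3)) :
          Set ℕ)) := by
      rintro n ⟨hnX, hr⟩
      have hn1 : 1 ≤ n := by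
        obtain ⟨a, b, _, _, _, hab⟩ := hr
        rw [← hab]
        exact rad_pos _
      by_cases h1 : 10 * l < n.primeFactors.card
      · right; left
        rw [Finset.mem_coe, Finset.mem_filter, Finset.mem_Icc]
        exact ⟨⟨hn1, hnX⟩, h1⟩
      · by_cases h2 : (n.primeFactors.filter (fun p => y < p)).card ≤ 3
        · right; right
          rw [Finset.mem_coe, Finset.mem_filter, Finset.mem_Icc]
          exact ⟨⟨hn1, hnX⟩, h2⟩
        · left
          exact ⟨⟨hnX, by omega, by omega⟩, hr⟩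
    have hcard : {n | n ≤ X ∧ IsRad n}.ncard ≤ {n | Typ X (10 * l) y n ∧ IsRad n}.ncard +
        (((Icc 1 X).filter (fun n => 10 * l < n.primeFactors.card)).card +
        ((Icc 1 X).filter (fun n => (n.primeFactors.filter (fun p => y < p)).card ≤ 3)).card) := by
      refine le_trans (Set.ncard_le_ncard hsub (hfin.union
        ((Finset.finite_toSet _).union (Finset.finite_toSet _)))) ?_
      refine le_trans (Set.ncard_union_le _ _) ?_
      refine Nat.add_le_add_left ?_ _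
      refine le_trans (Set.ncard_union_le _ _) ?_
      rw [Set.ncard_coe_finset, Set.ncard_coe_finset]
    have hcardR : ({n | n ≤ X ∧ IsRad n}.ncard : ℝ) ≤
        ({n | Typ X (10 * l) y n ∧ IsRad n}.ncard : ℝ) +
        ((((Icc 1 X).filter (fun n => 10 * l < n.primeFactors.card)).card : ℝ) +
        (((Icc 1 X).filter
          (fun n => (n.primeFactors.filter (fun p => y < p)).card ≤ 3)).card : ℝ)) := by
      exact_mod_cast hcard
    have hXu : (X : ℝ) / u ≤ X / u ^ (1 - ε) := by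
      apply div_le_div_of_nonneg_left hXR.le hden
      calc u ^ (1 - ε) ≤ u ^ (1 : ℝ) := Real.rpow_le_rpow_of_exponent_le hu1 (by linarith)
        _ = u := Real.rpow_one u
    -- part 1
    have hp1 : ({n | Typ X (10 * l) y n ∧ IsRad n}.ncard : ℝ) ≤ X / u := by
      set K : ℕ := 8 * (10 * l) * (EE X (10 * l) + 2) ^ (2 * (10 * l) + 1) with hK
      have h1 : K * (L + 1) ≤ y := hNF'
      clear_value K
      have h1R : (K : ℝ) * ((L : ℝ) + 1) ≤ y := by exact_mod_cast h1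
      have h2 : ({n | Typ X (10 * l) y n ∧ IsRad n}.ncard : ℝ) ≤ ((X / y : ℕ) : ℝ) * K := by
        exact_mod_cast hcount
      have h3 : ((X / y : ℕ) : ℝ) ≤ X / y := Nat.cast_div_le
      refine le_trans h2 (le_trans (mul_le_mul_of_nonneg_right h3 (by positivity)) ?_)
      rw [div_mul_eq_mul_div, div_le_div_iff₀ hyR hlogpos]
      have h4 : (K : ℝ) * u ≤ y := le_trans (mul_le_mul_of_nonneg_left hLu (by positivity)) h1R
      calc (X : ℝ) * K * u = X * (K * u) := by ring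
        _ ≤ X * y := mul_le_mul_of_nonneg_left h4 hXR.le
    -- part 2
    have hp2 : (((Icc 1 X).filter (fun n => 10 * l < n.primeFactors.card)).card : ℝ) ≤
        2 * (X / u) := by
      have h1 := many_primes (X := X) (W := 10 * l) (by omega)
      rw [← hudef] at h1
      have h2 : L + 1 ≤ 2 ^ l := hLl
      have h3 : u ≤ (2 : ℝ) ^ l := by
        refine le_trans hLu ?_
        exact_mod_cast h2
      have h4 : u ^ 2 ≤ (2 : ℝ) ^ (10 * l) := by
        calc u ^ 2 ≤ ((2 : ℝ) ^ l) ^ 2 := pow_le_pow_left₀ (by linarith) h3 2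
          _ = (2 : ℝ) ^ (2 * l) := by rw [← pow_mul, mul_comm]
          _ ≤ (2 : ℝ) ^ (10 * l) := pow_le_pow_right₀ (by norm_num) (by omega)
      set N : ℝ := (((Icc 1 X).filter (fun n => 10 * l < n.primeFactors.card)).card : ℝ) with hN
      have hN0 : 0 ≤ N := by positivity
      have h5 : N * u ^ 2 ≤ X * (1 + u) :=
        le_trans (mul_le_mul_of_nonneg_left h4 hN0) h1
      have h6 : N * u ^ 2 ≤ 2 * X * u := by nlinarith
      rw [← mul_div_assoc, le_div_iff₀ hlogpos]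
      have h7 : (N * u) * u ≤ (2 * X) * u := by nlinarith
      exact le_of_mul_le_mul_right h7 hlogpos
    -- part 3
    have hp3 : (((Icc 1 X).filter
        (fun n => (n.primeFactors.filter (fun p => y < p)).card ≤ 3)).card : ℝ) ≤
        C₁ * C₂ * (X / u ^ (1 - ε)) := by
      refine le_trans (hfew y X hy3 hyX) ?_
      rw [← hudef]
      have h1 : Real.log y ≤ C₂ * u ^ (ε / 2) := by
        rw [hylog]
        have h3 := hl2fact
        rw [← hudef] at h3
        have h4 : Real.log 2 ≤ 1 := by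
          have := Real.log_two_lt_d9
          linarith
        have h5 : (0 : ℝ) ≤ (l : ℝ) ^ 3 := by positivity
        exact le_trans (mul_le_of_le_one_right h5 h4) h3
      have h5 := part3 hC₂ hε hε1 hu1 (Real.log_natCast_nonneg y) h1
      calc C₁ * X * (Real.log y / u) ^ (1 - ε / 2)
          ≤ C₁ * X * (C₂ * (u ^ (1 - ε))⁻¹) :=
            mul_le_mul_of_nonneg_left h5 (by positivity)
        _ = C₁ * C₂ * (X / u ^ (1 - ε)) := by
            rw [div_eq_mul_inv]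
            ring
    have hq0 : 0 ≤ (X : ℝ) / u ^ (1 - ε) := by positivity
    calc ({n | n ≤ X ∧ IsRad n}.ncard : ℝ) ≤ X / u + (2 * (X / u) +
          C₁ * C₂ * (X / u ^ (1 - ε))) :=
          le_trans hcardR (add_le_add hp1 (add_le_add hp2 hp3))
      _ ≤ (3 + C₁ * C₂) * (X / u ^ (1 - ε)) := by linarith
      _ ≤ (2 * (1 + Real.log X₂) + (3 + C₁ * C₂)) * (X / u ^ (1 - ε)) :=
          mul_le_mul_of_nonneg_right (by linarith) hq0
      _ = _ := by rw [mul_div_assoc]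
  · -- small X
    have hXX : X ≤ X₂ := by omega
    refine le_trans (trivial_bound X hX) ?_
    rw [le_div_iff₀ hden]
    have h1 : Real.log X ≤ Real.log X₂ := Real.log_le_log hXR (by exact_mod_cast hXX)
    have h2 : Real.log X ^ (1 - ε) ≤ 1 + Real.log X₂ := by
      calc Real.log X ^ (1 - ε) ≤ (1 + Real.log X₂) ^ (1 - ε) :=
            Real.rpow_le_rpow hlogpos.le (by linarith) (by linarith)
        _ ≤ (1 + Real.log X₂) ^ (1 : ℝ) :=
            Real.rpow_le_rpow_of_exponent_le (by linarith) (by linarith)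
        _ = 1 + Real.log X₂ := Real.rpow_one _
    have h3 : 0 < C₁ * C₂ := by positivity
    calc 2 * (X : ℝ) * Real.log X ^ (1 - ε) ≤ 2 * X * (1 + Real.log X₂) :=
          mul_le_mul_of_nonneg_left h2 (by positivity)
      _ ≤ (2 * (1 + Real.log X₂) + (3 + C₁ * C₂)) * X := by nlinarith

/-- Task FIN (from MC, H4, MP, NF). -/
theorem final
    (main_count : ∀ {X W y : ℕ}, 2 ≤ X → 1 ≤ W → 1 ≤ y →
      {n | Typ X W y n ∧ IsRad n}.Finite ∧
      {n | Typ X W y n ∧ IsRad n}.ncard ≤ (X / y) * (8 * W * (EE X W + 2) ^ (2 * W + 1)))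
    (few_large : ∀ {z : ℝ}, 0 < z → z ≤ 1 → ∃ C : ℝ, 0 < C ∧ ∀ y X : ℕ, 3 ≤ y →
      y ≤ X → (((Icc 1 X).filter
        (fun n => (n.primeFactors.filter (fun p => y < p)).card ≤ 3)).card : ℝ) ≤
        C * X * (Real.log y / Real.log X) ^ (1 - z))
    (many_primes : ∀ {X W : ℕ}, 1 ≤ X →
      (((Icc 1 X).filter (fun n => W < n.primeFactors.card)).card : ℝ) * 2 ^ W ≤
        X * (1 + Real.log X))
    (num_final : ∃ X₀ : ℕ, ∀ X l : ℕ, X₀ ≤ X → l = Nat.log 2 (Nat.log 2 X) + 1 →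
      8 * (10 * l) * (EE X (10 * l) + 2) ^ (2 * (10 * l) + 1) * (Nat.log 2 X + 1) ≤ 2 ^ (l ^ 3))
    {ε : ℝ} (hε : 0 < ε) : ∃ C : ℝ, 0 < C ∧ ∀ X : ℕ, 2 ≤ X →
    ({n | n ≤ X ∧ IsRad n}.ncard : ℝ) ≤ C * X / Real.log X ^ (1 - ε) := by
  have hm0 : 0 < min ε (1 / 2) := lt_min hε (by norm_num)
  obtain ⟨C, hC, h⟩ := main (@main_count) (@few_large) (@many_primes) num_final hm0
    (min_le_right _ _)
  set δ : ℝ := min ε (1 / 2) with hδ
  have hδε : δ ≤ ε := min_le_left _ _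
  have hlog2 : 0 < Real.log 2 := Real.log_pos (by norm_num)
  have hc : 0 < Real.log 2 ^ (ε - δ) := Real.rpow_pos_of_pos hlog2 _
  refine ⟨C / Real.log 2 ^ (ε - δ), by positivity, ?_⟩
  intro X hX
  refine le_trans (h X hX) ?_
  have hlogX : Real.log 2 ≤ Real.log X := Real.log_le_log (by norm_num) (by exact_mod_cast hX)
  have hpos : 0 < Real.log X := lt_of_lt_of_le hlog2 hlogX
  have h1 : Real.log X ^ (1 - δ) = Real.log X ^ (1 - ε) * Real.log X ^ (ε - δ) := by
    rw [← Real.rpow_add hpos]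
    congr 1
    ring
  have h2 : Real.log 2 ^ (ε - δ) ≤ Real.log X ^ (ε - δ) :=
    Real.rpow_le_rpow hlog2.le hlogX (by linarith)
  have h3 : 0 < Real.log X ^ (1 - ε) := Real.rpow_pos_of_pos hpos _
  rw [h1, div_mul_eq_mul_div, div_div, mul_comm (Real.log 2 ^ (ε - δ))]
  apply div_le_div_of_nonneg_left (by positivity) (by positivity)
  exact mul_le_mul_of_nonneg_left h2 h3.le

end Pool.Agent.H374R2.Z.FIN
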