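import Pool.Agent.H374R2.Z.Defs

/-! Task H1: Chebyshev with a submultiplicative weight. -/

namespace Pool.Agent.H374R2.Z.H1

open Finset Pool.Agent.H374R2.Z
open scoped ArithmeticFunction.vonMangoldt

theorem wt_mono {z : ℝ} {y m n : ℕ} (hz : 0 < z) (hz1 : z ≤ 1) (hn : n ≠ 0) (hmn : m ∣ n) :
    wt z y n ≤ wt z y m := by
  unfold wt
  apply pow_le_pow_of_le_one hz.le hz1
  exact card_le_card (filter_subset_filter _ (Nat.primeFactors_mono hmn hn))

/-- the weight as an arithmetic function -/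
noncomputable def wA (z : ℝ) (y : ℕ) : ArithmeticFunction ℝ :=
  ⟨fun n => if n = 0 then 0 else wt z y n, if_pos rfl⟩

theorem wA_apply (z : ℝ) (y : ℕ) {n : ℕ} (hn : n ≠ 0) : wA z y n = wt z y n := if_neg hn

theorem wt_log_sum : ∃ C : ℝ, 0 < C ∧ ∀ (z : ℝ) (y X : ℕ), 0 < z → z ≤ 1 → 1 ≤ X →
    ∑ n ∈ Icc 1 X, wt z y n * Real.log n ≤ C * X * ∑ n ∈ Icc 1 X, wt z y n / n := by
  have hC : 0 < Real.log 4 + 4 := by
    have := Real.log_pos (show (1 : ℝ) < 4 by norm_num)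
    linarith
  refine ⟨Real.log 4 + 4, hC, fun z y X hz hz1 hX => ?_⟩
  have hI : Icc 1 X = Ioc 0 X := by
    ext n
    rw [mem_Icc, mem_Ioc]
    omega
  rw [hI]
  have h1 : ∑ n ∈ Ioc 0 X, wt z y n * Real.log n ≤ ∑ n ∈ Ioc 0 X, (wA z y * Λ) n := by
    apply sum_le_sum
    intro n hn
    have hn0 : n ≠ 0 := by
      have := (mem_Ioc.1 hn).1
      omega
    rw [← ArithmeticFunction.vonMangoldt_sum, ArithmeticFunction.mul_apply, mul_sum,
      Nat.sum_divisorsAntidiagonal (fun a b => wA z y a * Λ b),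
      ← Nat.sum_div_divisors n (fun d => wt z y n * Λ d)]
    apply sum_le_sum
    intro d hd
    have hdn := Nat.dvd_of_mem_divisors hd
    have hd0 : d ≠ 0 := by
      rintro rfl
      exact hn0 (Nat.eq_zero_of_zero_dvd hdn)
    rw [wA_apply z y hd0]
    exact mul_le_mul_of_nonneg_right (wt_mono hz hz1 hn0 hdn)
      ArithmeticFunction.vonMangoldt_nonneg
  refine h1.trans ?_
  rw [ArithmeticFunction.sum_Ioc_mul_eq_sum_sum, mul_sum]
  apply sum_le_sum
  intro n hn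
  have hn0 : n ≠ 0 := by
    have := (mem_Ioc.1 hn).1
    omega
  rw [wA_apply z y hn0]
  have h2 : ∑ m ∈ Ioc 0 (X / n), Λ m ≤ (Real.log 4 + 4) * (X / n) := by
    have h3 := Chebyshev.psi_le_const_mul_self (x := ((X / n : ℕ) : ℝ)) (Nat.cast_nonneg _)
    unfold Chebyshev.psi at h3
    rw [Nat.floor_natCast] at h3
    refine h3.trans ?_
    exact mul_le_mul_of_nonneg_left Nat.cast_div_le hC.le
  have h4 : 0 ≤ wt z y n := pow_nonneg hz.le _
  calc wt z y n * ∑ m ∈ Ioc 0 (X / n), Λ m ≤ wt z y n * ((Real.log 4 + 4) * (X / n)) :=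
        mul_le_mul_of_nonneg_left h2 h4
    _ = _ := by ring

end Pool.Agent.H374R2.Z.H1
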