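import Pool.Agent.H374R2.Z.Defs

/-!
Task H2: from H1 (helper913).
-/

set_option autoImplicit false

namespace Pool.Agent.H374R2.Z.H2

open Finset

theorem wt_sum
    (H1 : ∃ C : ℝ, 0 < C ∧ ∀ (z : ℝ) (y X : ℕ), 0 < z → z ≤ 1 → 1 ≤ X →
      ∑ n ∈ Icc 1 X, wt z y n * Real.log n ≤ C * X * ∑ n ∈ Icc 1 X, wt z y n / n) :
    ∃ C : ℝ, 0 < C ∧ ∀ (z : ℝ) (y X : ℕ), 0 < z → z ≤ 1 → 2 ≤ X →
    Real.log X * ∑ n ∈ Icc 1 X, wt z y n ≤ C * X * ∑ n ∈ Icc 1 X, wt z y n / n := by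
  obtain ⟨C, hC, h⟩ := H1
  refine ⟨C + 1, by linarith, fun z y X hz hz1 hX => ?_⟩
  have h1 := h z y X hz hz1 (by omega)
  have h2 : Real.log X * ∑ n ∈ Icc 1 X, wt z y n ≤
      ∑ n ∈ Icc 1 X, wt z y n * Real.log n + X * ∑ n ∈ Icc 1 X, wt z y n / n := by
    rw [mul_sum, mul_sum, ← sum_add_distrib]
    refine sum_le_sum fun n hn => ?_
    rw [mem_Icc] at hn
    have hn0 : (0 : ℝ) < n := by exact_mod_cast hn.1
    have hX0 : (0 : ℝ) < X := by exact_mod_cast (by omega : 0 < X)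
    have hw : 0 ≤ wt z y n := pow_nonneg hz.le _
    have h3 : Real.log X - Real.log n ≤ X / n := by
      rw [← Real.log_div hX0.ne' hn0.ne']
      have h4 := Real.log_le_sub_one_of_pos (div_pos hX0 hn0)
      linarith
    have h5 : Real.log X * wt z y n - wt z y n * Real.log n ≤ (X / n) * wt z y n := by
      have := mul_le_mul_of_nonneg_right h3 hw
      linarith
    have h6 : (X : ℝ) / n * wt z y n = X * (wt z y n / n) := by ring
    linarith
  have h7 : (C + 1) * X * ∑ n ∈ Icc 1 X, wt z y n / n =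
      C * X * ∑ n ∈ Icc 1 X, wt z y n / n + X * ∑ n ∈ Icc 1 X, wt z y n / n := by ring
  linarith

end Pool.Agent.H374R2.Z.H2
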