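import Pool.Agent.H374R2.Z.Defs
import Pool.Agent.Erdos456.Mertens

/-!
Task H3: Euler product and Mertens for the weight `wt`.
-/

namespace Pool.Agent.H374R2.Z.H3

open Finset Pool.Agent.H374R2.Z

lemma wt_nonneg (z : ℝ) (hz : 0 < z) (y n : ℕ) : 0 ≤ wt z y n := by
  unfold wt
  positivity

lemma wt_one (z : ℝ) (y : ℕ) : wt z y 1 = 1 := by simp [wt]

lemma wt_mul (z : ℝ) (y : ℕ) {m n : ℕ} (h : Nat.Coprime m n) :
    wt z y (m * n) = wt z y m * wt z y n := by
  unfold wt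
  rw [h.primeFactors_mul, filter_union, card_union_of_disjoint, pow_add]
  exact disjoint_filter_filter h.disjoint_primeFactors

lemma wt_prime_pow (z : ℝ) (y : ℕ) {p k : ℕ} (hp : p.Prime) (hk : k ≠ 0) :
    wt z y (p ^ k) = if y < p then z else 1 := by
  unfold wt
  rw [Nat.primeFactors_prime_pow hk hp, filter_singleton]
  split_ifs <;> simp

/-- the local factor -/
noncomputable def w (z : ℝ) (y p : ℕ) : ℝ := if y < p then z else 1

lemma w_nonneg (z : ℝ) (hz : 0 < z) (y p : ℕ) : 0 ≤ w z y p := by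
  unfold w
  split_ifs <;> linarith

lemma w_le (z : ℝ) (hz1 : z ≤ 1) (y p : ℕ) : w z y p ≤ 1 := by
  unfold w
  split_ifs <;> linarith

lemma local_hasSum (z : ℝ) (y : ℕ) {p : ℕ} (hp : p.Prime) :
    HasSum (fun k : ℕ => wt z y (p ^ k) / ((p ^ k : ℕ) : ℝ)) (1 + w z y p / ((p : ℝ) - 1)) := by
  have hp2 : (2 : ℝ) ≤ p := by exact_mod_cast hp.two_le
  have hp0 : (0 : ℝ) < p := by linarith
  have h1 : HasSum (fun k : ℕ => w z y p * ((p : ℝ)⁻¹) ^ k) (w z y p * (1 - (p : ℝ)⁻¹)⁻¹) :=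
    (hasSum_geometric_of_lt_one (by positivity) (by
      rw [inv_lt_one₀ hp0]; linarith)).mul_left _
  have h2 : HasSum (fun k : ℕ => if k = 0 then 1 - w z y p else 0) (1 - w z y p) :=
    hasSum_ite_eq 0 _
  have h3 := h1.add h2
  have e1 : w z y p * (1 - (p : ℝ)⁻¹)⁻¹ + (1 - w z y p) = 1 + w z y p / ((p : ℝ) - 1) := by
    have : (p : ℝ) - 1 ≠ 0 := by linarith
    have h4 : (1 - (p : ℝ)⁻¹)⁻¹ = p / (p - 1) := by
      have : (1 : ℝ) - (p : ℝ)⁻¹ = (p - 1) / p := by field_simp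
      rw [this, inv_div]
    rw [h4]
    field_simp
    ring
  rw [e1] at h3
  have e2 : (fun k : ℕ => wt z y (p ^ k) / ((p ^ k : ℕ) : ℝ)) =
      fun k : ℕ => w z y p * ((p : ℝ)⁻¹) ^ k + if k = 0 then 1 - w z y p else 0 := by
    funext k
    by_cases hk : k = 0
    · subst hk
      simp [wt_one]
    · rw [wt_prime_pow z y hp hk, if_neg hk, add_zero]
      unfold w
      push_cast
      rw [inv_pow, div_eq_mul_inv]
  rw [e2]
  exact h3

/-- Euler product bound -/
lemma euler (z : ℝ) (hz : 0 < z) (y X : ℕ) :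
    ∑ n ∈ Icc 1 X, wt z y n / n ≤
      ∏ p ∈ (Icc 1 X).filter Nat.Prime, (1 + w z y p / ((p : ℝ) - 1)) := by
  set f : ℕ → ℝ := fun n => wt z y n / n with hf
  have hf1 : f 1 = 1 := by simp [hf, wt_one]
  have hmul : ∀ {m n : ℕ}, Nat.Coprime m n → f (m * n) = f m * f n := by
    intro m n h
    simp only [hf]
    rw [wt_mul z y h]
    push_cast
    rw [mul_div_mul_comm]
  have hnn : ∀ n, 0 ≤ f n := fun n => div_nonneg (wt_nonneg z hz y n) (by positivity)
  have hsum : ∀ {p : ℕ}, p.Prime → Summable (fun n : ℕ => ‖f (p ^ n)‖) := by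
    intro p hp
    have h1 := (local_hasSum z y hp).summable
    refine h1.congr fun n => ?_
    rw [Real.norm_eq_abs, abs_of_nonneg (hnn _)]
  obtain ⟨-, h2⟩ := EulerProduct.summable_and_hasSum_factoredNumbers_prod_filter_prime_tsum
    hf1 hmul hsum (Icc 1 X)
  have h3 : ∏ p ∈ (Icc 1 X).filter Nat.Prime, ∑' n : ℕ, f (p ^ n) =
      ∏ p ∈ (Icc 1 X).filter Nat.Prime, (1 + w z y p / ((p : ℝ) - 1)) := by
    refine prod_congr rfl fun p hp => ?_
    exact (local_hasSum z y (mem_filter.1 hp).2).tsum_eq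
  rw [h3] at h2
  classical
  have h4 : ∀ n ∈ Icc 1 X, n ∈ Nat.factoredNumbers (Icc 1 X) := by
    intro n hn
    rw [mem_Icc] at hn
    rw [Nat.mem_factoredNumbers]
    refine ⟨by omega, fun p hp => ?_⟩
    have hp' := Nat.prime_of_mem_primeFactorsList hp
    have hd := Nat.le_of_dvd (by omega) (Nat.dvd_of_mem_primeFactorsList hp)
    exact mem_Icc.2 ⟨hp'.one_lt.le, hd.trans hn.2⟩
  have h5 : ∑ n ∈ Icc 1 X, f n =
      ∑ n ∈ (Icc 1 X).subtype (fun n => n ∈ Nat.factoredNumbers (Icc 1 X)), f n :=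
    (sum_subtype_of_mem f h4).symm
  calc ∑ n ∈ Icc 1 X, wt z y n / n = ∑ n ∈ Icc 1 X, f n := rfl
    _ = ∑ n ∈ (Icc 1 X).subtype (fun n => n ∈ Nat.factoredNumbers (Icc 1 X)), f n := h5
    _ ≤ _ := sum_le_hasSum _ (fun n _ => hnn _) h2

/-- telescoping -/
lemma tele (X : ℕ) : ∑ p ∈ (Icc 1 X).filter Nat.Prime, (1 : ℝ) / (p * (p - 1)) ≤ 1 := by
  have h1 : ∀ N : ℕ, 1 ≤ N → ∑ n ∈ Icc 2 N, (1 : ℝ) / (n * (n - 1)) = 1 - 1 / N := by
    intro N hN
    induction N, hN using Nat.le_induction with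
    | base => simp
    | succ N hN ih =>
      rw [sum_Icc_succ_top (by omega), ih]
      have hN0 : (0 : ℝ) < N := by exact_mod_cast hN
      push_cast
      rw [add_sub_cancel_right]
      field_simp
      ring
  rcases Nat.eq_zero_or_pos X with h0 | h0
  · subst h0; simp
  · calc ∑ p ∈ (Icc 1 X).filter Nat.Prime, (1 : ℝ) / (p * (p - 1))
        ≤ ∑ n ∈ Icc 2 X, (1 : ℝ) / (n * (n - 1)) := by
          apply sum_le_sum_of_subset_of_nonneg
          · intro p hp
            rw [mem_filter, mem_Icc] at hp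
            exact mem_Icc.2 ⟨hp.2.two_le, hp.1.2⟩
          · intro n hn _
            rw [mem_Icc] at hn
            have : (2 : ℝ) ≤ n := by exact_mod_cast hn.1
            have : (0 : ℝ) ≤ n - 1 := by linarith
            positivity
      _ = 1 - 1 / X := h1 X h0
      _ ≤ 1 := by
          have : (0 : ℝ) ≤ 1 / X := by positivity
          linarith

/-- Task H3 (Mertens). -/
theorem wt_div_sum : ∃ C : ℝ, 0 < C ∧ ∀ (z : ℝ) (y X : ℕ), 0 < z → z ≤ 1 → 3 ≤ y → y ≤ X →
    ∑ n ∈ Icc 1 X, wt z y n / n ≤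
      C * (Real.log y * (Real.log X / Real.log y) ^ z) := by
  obtain ⟨C0, hC0⟩ := Pool.Agent.Erdos456.Mert.mertens_inv
  have hC00 : 0 ≤ C0 := (abs_nonneg _).trans (hC0 3 le_rfl)
  refine ⟨Real.exp (3 * C0 + 1), Real.exp_pos _, ?_⟩
  intro z y X hz hz1 hy hyX
  have hy3 : (3 : ℝ) ≤ y := by exact_mod_cast hy
  have hyXr : (y : ℝ) ≤ X := by exact_mod_cast hyX
  have hly : 0 < Real.log y := Real.log_pos (by linarith)
  have hlX : 0 < Real.log X := Real.log_pos (by linarith)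
  have hlyX : Real.log y ≤ Real.log X := Real.log_le_log (by linarith) hyXr
  set P := (Icc 1 X).filter Nat.Prime with hP
  -- step 1
  have h1 : ∏ p ∈ P, (1 + w z y p / ((p : ℝ) - 1)) ≤
      Real.exp (∑ p ∈ P, w z y p / p + 1) := by
    have h2 : ∏ p ∈ P, (1 + w z y p / ((p : ℝ) - 1)) ≤
        ∏ p ∈ P, Real.exp (w z y p / p + 1 / (p * (p - 1))) := by
      apply prod_le_prod
      · intro p hp
        have hp2 : (2 : ℝ) ≤ p := by exact_mod_cast (mem_filter.1 hp).2.two_le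
        have : 0 ≤ w z y p / ((p : ℝ) - 1) := div_nonneg (w_nonneg z hz y p) (by linarith)
        linarith
      · intro p hp
        have hp2 : (2 : ℝ) ≤ p := by exact_mod_cast (mem_filter.1 hp).2.two_le
        have hp1 : (0 : ℝ) < (p : ℝ) - 1 := by linarith
        have hp0 : (0 : ℝ) < p := by linarith
        have e1 : w z y p / ((p : ℝ) - 1) = w z y p / p + w z y p / (p * (p - 1)) := by
          field_simp
          ring
        have e2 : w z y p / (p * ((p : ℝ) - 1)) ≤ 1 / (p * (p - 1)) := by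
          apply div_le_div_of_nonneg_right (w_le z hz1 y p) (by positivity)
        have e3 := Real.add_one_le_exp (w z y p / p + 1 / (p * ((p : ℝ) - 1)))
        linarith
    refine h2.trans ?_
    rw [← Real.exp_sum, sum_add_distrib]
    apply Real.exp_le_exp.2
    have := tele X
    linarith
  -- step 2
  have h3 : ∑ p ∈ P, w z y p / p =
      ∑ p ∈ (Icc 1 y).filter Nat.Prime, (1 : ℝ) / p +
      z * (∑ p ∈ P, (1 : ℝ) / p - ∑ p ∈ (Icc 1 y).filter Nat.Prime, (1 : ℝ) / p) := by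
    have e0 : (P.filter fun p => ¬ y < p) = (Icc 1 y).filter Nat.Prime := by
      ext p
      simp only [hP, mem_filter, mem_Icc]
      constructor
      · rintro ⟨⟨⟨a1, a2⟩, a3⟩, a4⟩
        exact ⟨⟨a1, by omega⟩, a3⟩
      · rintro ⟨⟨a1, a2⟩, a3⟩
        exact ⟨⟨⟨a1, by omega⟩, a3⟩, by omega⟩
    have e1 := sum_filter_add_sum_filter_not P (fun p => y < p) (fun p => w z y p / (p : ℝ))
    have e2 := sum_filter_add_sum_filter_not P (fun p => y < p) (fun p => (1 : ℝ) / p)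
    rw [e0] at e1 e2
    have e3 : ∑ p ∈ P.filter (fun p => y < p), w z y p / (p : ℝ) =
        z * ∑ p ∈ P.filter (fun p => y < p), (1 : ℝ) / p := by
      rw [mul_sum]
      refine sum_congr rfl fun p hp => ?_
      unfold w
      rw [if_pos (mem_filter.1 hp).2]
      ring
    have e4 : ∑ p ∈ (Icc 1 y).filter Nat.Prime, w z y p / (p : ℝ) =
        ∑ p ∈ (Icc 1 y).filter Nat.Prime, (1 : ℝ) / p := by
      refine sum_congr rfl fun p hp => ?_
      unfold w
      rw [if_neg]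
      have := (mem_Icc.1 (mem_filter.1 hp).1).2
      omega
    rw [← e1, e3, e4, ← e2]
    ring
  have h4 := abs_le.1 (hC0 y hy)
  have h5 := abs_le.1 (hC0 X (hy.trans hyX))
  rw [← hP] at h5
  set My := ∑ p ∈ (Icc 1 y).filter Nat.Prime, (1 : ℝ) / p
  set MX := ∑ p ∈ P, (1 : ℝ) / p
  set a := Real.log (Real.log y)
  set b := Real.log (Real.log X)
  have h6 : z * (MX - My) ≤ z * (b - a) + 2 * C0 := by
    have e1 : MX - My ≤ (b - a) + 2 * C0 := by linarith [h4.1, h5.2]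
    calc z * (MX - My) ≤ z * ((b - a) + 2 * C0) := mul_le_mul_of_nonneg_left e1 hz.le
      _ = z * (b - a) + z * (2 * C0) := by ring
      _ ≤ z * (b - a) + 1 * (2 * C0) := by gcongr
      _ = _ := by ring
  have h7 : ∑ p ∈ P, w z y p / p + 1 ≤ (3 * C0 + 1) + (a + z * (b - a)) := by
    rw [h3]
    linarith [h4.2]
  have h8 : Real.exp (a + z * (b - a)) = Real.log y * (Real.log X / Real.log y) ^ z := by
    rw [Real.exp_add, Real.exp_log hly, Real.rpow_def_of_pos (by positivity),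
      Real.log_div hlX.ne' hly.ne', mul_comm z]
  calc ∑ n ∈ Icc 1 X, wt z y n / n ≤ ∏ p ∈ P, (1 + w z y p / ((p : ℝ) - 1)) := euler z hz y X
    _ ≤ Real.exp (∑ p ∈ P, w z y p / p + 1) := h1
    _ ≤ Real.exp ((3 * C0 + 1) + (a + z * (b - a))) := Real.exp_le_exp.2 h7
    _ = Real.exp (3 * C0 + 1) * (Real.log y * (Real.log X / Real.log y) ^ z) := by
        rw [Real.exp_add, h8]

end Pool.Agent.H374R2.Z.H3
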