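import Pool.Agent.H374R2.Z.Defs

/-!
Task H4: few large prime factors.
-/

namespace Pool.Agent.H374R2.Z.H4

open Finset Pool.Agent.H374R2.Z

/-- Task H4 (few large prime factors; from H2, H3). -/
theorem few_large
    (hH2 : ∃ C : ℝ, 0 < C ∧ ∀ (z : ℝ) (y X : ℕ), 0 < z → z ≤ 1 → 2 ≤ X →
      Real.log X * ∑ n ∈ Icc 1 X, wt z y n ≤ C * X * ∑ n ∈ Icc 1 X, wt z y n / n)
    (hH3 : ∃ C : ℝ, 0 < C ∧ ∀ (z : ℝ) (y X : ℕ), 0 < z → z ≤ 1 → 3 ≤ y → y ≤ X →
      ∑ n ∈ Icc 1 X, wt z y n / n ≤ C * (Real.log y * (Real.log X / Real.log y) ^ z))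
    {z : ℝ} (hz0 : 0 < z) (hz1 : z ≤ 1) : ∃ C : ℝ, 0 < C ∧ ∀ y X : ℕ, 3 ≤ y →
    y ≤ X → (((Icc 1 X).filter
      (fun n => (n.primeFactors.filter (fun p => y < p)).card ≤ 3)).card : ℝ) ≤
      C * X * (Real.log y / Real.log X) ^ (1 - z) := by
  obtain ⟨C₂, hC₂, h2⟩ := hH2
  obtain ⟨C₃, hC₃, h3⟩ := hH3
  refine ⟨(z ^ 3)⁻¹ * C₂ * C₃, by positivity, ?_⟩
  intro y X hy hyX
  set S := (Icc 1 X).filter (fun n => (n.primeFactors.filter (fun p => y < p)).card ≤ 3) with hS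
  have hz3 : 0 < z ^ 3 := by positivity
  have hly : 0 < Real.log y := Real.log_pos (by exact_mod_cast (by omega : 1 < y))
  have hlX : 0 < Real.log X := Real.log_pos (by exact_mod_cast (by omega : 1 < X))
  have hX0 : (0 : ℝ) ≤ X := Nat.cast_nonneg X
  have hwt0 : ∀ n, 0 ≤ wt z y n := fun n => by unfold wt; positivity
  have hA : (S.card : ℝ) * z ^ 3 ≤ ∑ n ∈ Icc 1 X, wt z y n := by
    calc (S.card : ℝ) * z ^ 3 = ∑ n ∈ S, z ^ 3 := by
          rw [Finset.sum_const, nsmul_eq_mul]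
      _ ≤ ∑ n ∈ S, wt z y n := by
          apply Finset.sum_le_sum
          intro n hn
          rw [hS, Finset.mem_filter] at hn
          unfold wt
          exact pow_le_pow_of_le_one hz0.le hz1 hn.2
      _ ≤ ∑ n ∈ Icc 1 X, wt z y n :=
          Finset.sum_le_sum_of_subset_of_nonneg (Finset.filter_subset _ _)
            (fun n _ _ => hwt0 n)
  have hB := h2 z y X hz0 hz1 (by omega)
  have hC := h3 z y X hz0 hz1 hy hyX
  -- combine
  have hD : Real.log X * ((S.card : ℝ) * z ^ 3) ≤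
      C₂ * X * (C₃ * (Real.log y * (Real.log X / Real.log y) ^ z)) := by
    calc Real.log X * ((S.card : ℝ) * z ^ 3) ≤ Real.log X * ∑ n ∈ Icc 1 X, wt z y n :=
          mul_le_mul_of_nonneg_left hA hlX.le
      _ ≤ C₂ * X * ∑ n ∈ Icc 1 X, wt z y n / n := hB
      _ ≤ _ := mul_le_mul_of_nonneg_left hC (by positivity)
  have hE : (Real.log y / Real.log X) ^ (1 - z) =
      (Real.log y / Real.log X) * (Real.log X / Real.log y) ^ z := by
    have hq : 0 < Real.log y / Real.log X := by positivity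
    rw [Real.rpow_sub hq, Real.rpow_one, div_eq_mul_inv, ← Real.inv_rpow hq.le, inv_div]
  rw [hE]
  have hF : (S.card : ℝ) = (Real.log X * ((S.card : ℝ) * z ^ 3)) * ((z ^ 3)⁻¹ / Real.log X) := by
    field_simp
  rw [hF]
  calc (Real.log X * ((S.card : ℝ) * z ^ 3)) * ((z ^ 3)⁻¹ / Real.log X)
      ≤ (C₂ * X * (C₃ * (Real.log y * (Real.log X / Real.log y) ^ z))) *
        ((z ^ 3)⁻¹ / Real.log X) :=
        mul_le_mul_of_nonneg_right hD (by positivity)
    _ = (z ^ 3)⁻¹ * C₂ * C₃ * X *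
        (Real.log y / Real.log X * (Real.log X / Real.log y) ^ z) := by
        field_simp

end Pool.Agent.H374R2.Z.H4
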