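import Pool.Agent.H374R2.Z.Defs

set_option autoImplicit false

namespace Pool.Agent.H374R2.Z.KQ

open Finset
open Pool.Agent.H374R2.Z

/-- Task KQ (`100 / κ ^ 2 ≤ q`). -/
theorem kap_q {W q : ℕ} (hW : 1 ≤ W) (hq : 6400 * W ^ 2 ≤ q) :
    0 < kap W ∧ kap W ≤ 1 ∧ 100 / kap W ^ 2 ≤ q := by
  have hW' : (1 : ℝ) ≤ W := by exact_mod_cast hW
  have hq' : (6400 : ℝ) * (W : ℝ) ^ 2 ≤ q := by exact_mod_cast hq
  unfold kap
  refine ⟨by positivity, ?_, ?_⟩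
  · rw [div_le_one (by positivity)]
    linarith
  · have e : 100 / (1 / (8 * (W : ℝ))) ^ 2 = 6400 * (W : ℝ) ^ 2 := by
      field_simp
      norm_num
    rw [e]
    exact hq'

end Pool.Agent.H374R2.Z.KQ
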