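import Pool.Agent.H374R2.Z.Defs

/-!
# Z, task L: decomposition into a `q`-free part and a `q`-th power
-/

namespace Pool.Agent.H374R2.Z.L

open Finset

theorem lo_hi {q s : ℕ} (hq : 0 < q) (hs : 0 < s) :
    0 < lo q s ∧ 0 < hi q s ∧ lo q s * hi q s ^ q = s ∧ lo q s ∣ rad s ^ (q - 1) := by
  have hpos : ∀ f : ℕ → ℕ, 0 < ∏ p ∈ s.primeFactors, p ^ f p := by
    intro f
    refine prod_pos fun p hp => pow_pos (Nat.prime_of_mem_primeFactors hp).pos _
  refine ⟨hpos _, hpos _, ?_, ?_⟩
  · unfold lo hi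
    rw [← prod_pow, ← prod_mul_distrib]
    have h1 : ∀ p ∈ s.primeFactors, p ^ (s.factorization p % q) *
        (p ^ (s.factorization p / q)) ^ q = p ^ s.factorization p := by
      intro p _
      rw [← pow_mul, ← pow_add]
      congr 1
      rw [mul_comm (s.factorization p / q) q]
      exact Nat.mod_add_div _ _
    rw [prod_congr rfl h1]
    exact Nat.prod_factorization_pow_eq_self hs.ne'
  · unfold lo rad
    rw [← prod_pow]
    refine prod_dvd_prod_of_dvd _ _ fun p _ => pow_dvd_pow _ ?_
    have := Nat.mod_lt (s.factorization p) hq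
    omega

end Pool.Agent.H374R2.Z.L
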