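import Mathlib
import Pool.Agent.H374R2.Z.Defs

/-!
# Task MC: assembly (helper368)
-/

set_option autoImplicit false

namespace Pool.Agent.H374R2.Z.MC

open Finset

theorem primeFactors_sub {X W y n : ℕ} {σ : ℤ} {s t T : ℕ} (C : Cfg X W y n σ s t T) :
    T.primeFactors ⊆ n.primeFactors := by
  intro p hp
  have hpp := Nat.prime_of_mem_primeFactors hp
  have hpT := Nat.dvd_of_mem_primeFactors hp
  have h0 : s * t * T ≠ 0 := by
    have := C.s0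
    have := C.t0
    have := C.T0
    positivity
  have h1 : p ∈ (s * t * T).primeFactors :=
    Nat.mem_primeFactors.2 ⟨hpp, hpT.mul_left _, h0⟩
  rw [Nat.mem_primeFactors]
  refine ⟨hpp, ?_, ?_⟩
  · rw [← C.n_eq]
    exact Finset.dvd_prod_of_mem (fun p => p) h1
  · rw [← C.n_eq]
    exact Finset.prod_ne_zero_iff.2 fun q hq => (Nat.prime_of_mem_primeFactors hq).ne_zero

/-- Task MC (assembly; from PIG, SM, RE, PA, TQ, DOM). -/
theorem main_count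
    (hPIG : ∀ {X W y n : ℕ}, Typ X W y n → IsRad n →
      ∃ (σ : ℤ) (s t T : ℕ), (σ = 1 ∨ σ = -1) ∧ Cfg X W y n σ s t T)
    (hSM : ∀ {X W y : ℕ} {σ : ℤ}, 2 ≤ X → 1 ≤ y → (σ = 1 ∨ σ = -1) →
      {n | ∃ s t T, Cfg X W y n σ s t T ∧ max s t < X ^ (QQ W ^ 2)}.Finite ∧
      {n | ∃ s t T, Cfg X W y n σ s t T ∧ max s t < X ^ (QQ W ^ 2)}.ncard ≤
        (X / y) * (EE X W + 1) ^ (2 * W))
    (hRE : ∀ {X W y q : ℕ}, 2 ≤ X → 1 ≤ W → 1 ≤ y → IsPrimePow q →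
      6400 * W ^ 2 ≤ q → q ≤ QQ W →
      {n | ∃ s t T, Cfg X W y n 1 s t T ∧ X ^ (QQ W ^ 2) ≤ max s t ∧ T ^ 2 ≤ max s t}.Finite ∧
      {n | ∃ s t T, Cfg X W y n 1 s t T ∧ X ^ (QQ W ^ 2) ≤ max s t ∧ T ^ 2 ≤ max s t}.ncard ≤
        (X / y) * QQ W ^ (2 * W))
    (hPA : ∀ {X W y q : ℕ} {σ : ℤ}, 2 ≤ X → 1 ≤ W → 1 ≤ y →
      IsPrimePow q → 6400 * W ^ 2 ≤ q → q ≤ QQ W → (σ = 1 ∨ σ = -1) →
      {n | ∃ s t T p, Cfg X W y n σ s t T ∧ X ^ (QQ W ^ 2) ≤ max s t ∧ max s t < T ^ 2 ∧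
        p ∈ T.primeFactors ∧ ¬ p ∣ q ∧ T ≤ (p ^ T.factorization p) ^ W}.Finite ∧
      {n | ∃ s t T p, Cfg X W y n σ s t T ∧ X ^ (QQ W ^ 2) ≤ max s t ∧ max s t < T ^ 2 ∧
        p ∈ T.primeFactors ∧ ¬ p ∣ q ∧ T ≤ (p ^ T.factorization p) ^ W}.ncard ≤
        (X / y) * (W * QQ W ^ (2 * W + 1)))
    (hTQ : ∀ {W : ℕ}, 1 ≤ W → ∃ q₂ q₃ : ℕ, IsPrimePow q₂ ∧ IsPrimePow q₃ ∧
      6400 * W ^ 2 ≤ q₂ ∧ q₂ ≤ QQ W ∧ 6400 * W ^ 2 ≤ q₃ ∧ q₃ ≤ QQ W ∧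
      ∀ p : ℕ, p.Prime → ¬ p ∣ q₂ ∨ ¬ p ∣ q₃)
    (hDOM : ∀ {T W : ℕ}, 2 ≤ T → T.primeFactors.card ≤ W →
      ∃ p ∈ T.primeFactors, T ≤ (p ^ T.factorization p) ^ W)
    {X W y : ℕ} (hX : 2 ≤ X) (hW : 1 ≤ W) (hy : 1 ≤ y) :
    {n | Typ X W y n ∧ IsRad n}.Finite ∧
    {n | Typ X W y n ∧ IsRad n}.ncard ≤ (X / y) * (8 * W * (EE X W + 2) ^ (2 * W + 1)) := by
  obtain ⟨q₂, q₃, pp2, pp3, l2, u2, l3, u3, hq⟩ := hTQ hW
  obtain ⟨fa, ca⟩ := hSM (W := W) (σ := 1) hX hy (Or.inl rfl)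
  obtain ⟨fb, cb⟩ := hSM (W := W) (σ := -1) hX hy (Or.inr rfl)
  obtain ⟨fc, cc⟩ := hRE hX hW hy pp2 l2 u2
  obtain ⟨fd, cd⟩ := hPA (σ := 1) hX hW hy pp2 l2 u2 (Or.inl rfl)
  obtain ⟨fe, ce⟩ := hPA (σ := 1) hX hW hy pp3 l3 u3 (Or.inl rfl)
  obtain ⟨ff, cf⟩ := hPA (σ := -1) hX hW hy pp2 l2 u2 (Or.inr rfl)
  obtain ⟨fg, cg⟩ := hPA (σ := -1) hX hW hy pp3 l3 u3 (Or.inr rfl)
  obtain ⟨A, hA⟩ : ∃ A : ℤ → Set ℕ, A = fun σ => {n | ∃ s t T, Cfg X W y n σ s t T ∧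
    max s t < X ^ (QQ W ^ 2)} := ⟨_, rfl⟩
  obtain ⟨B, hB⟩ : ∃ B : Set ℕ, B = {n | ∃ s t T, Cfg X W y n 1 s t T ∧
    X ^ (QQ W ^ 2) ≤ max s t ∧ T ^ 2 ≤ max s t} := ⟨_, rfl⟩
  obtain ⟨P, hP⟩ : ∃ P : ℤ → ℕ → Set ℕ, P = fun σ q => {n | ∃ s t T p, Cfg X W y n σ s t T ∧
    X ^ (QQ W ^ 2) ≤ max s t ∧ max s t < T ^ 2 ∧
      p ∈ T.primeFactors ∧ ¬ p ∣ q ∧ T ≤ (p ^ T.factorization p) ^ W} := ⟨_, rfl⟩
  have ea : ∀ σ, {n | ∃ s t T, Cfg X W y n σ s t T ∧ max s t < X ^ (QQ W ^ 2)} = A σ := by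
    intro σ; rw [hA]
  have ep : ∀ σ q, {n | ∃ s t T p, Cfg X W y n σ s t T ∧
    X ^ (QQ W ^ 2) ≤ max s t ∧ max s t < T ^ 2 ∧
      p ∈ T.primeFactors ∧ ¬ p ∣ q ∧ T ≤ (p ^ T.factorization p) ^ W} = P σ q := by
    intro σ q; rw [hP]
  rw [ea] at fa ca fb cb
  rw [← hB] at fc cc
  rw [ep] at fd cd fe ce ff cf fg cg
  have hsub : {n | Typ X W y n ∧ IsRad n} ⊆
      (((((A 1 ∪ A (-1)) ∪ B) ∪ P 1 q₂) ∪ P 1 q₃) ∪ P (-1) q₂) ∪ P (-1) q₃ := by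
    rintro n ⟨hT, hr⟩
    obtain ⟨σ, s, t, T, hσ, C⟩ := hPIG hT hr
    by_cases hsm : max s t < X ^ (QQ W ^ 2)
    · have hn : n ∈ A σ := by
        rw [hA]
        exact ⟨s, t, T, C, hsm⟩
      rcases hσ with rfl | rfl
      · exact Or.inl (Or.inl (Or.inl (Or.inl (Or.inl (Or.inl hn)))))
      · exact Or.inl (Or.inl (Or.inl (Or.inl (Or.inl (Or.inr hn)))))
    · push Not at hsm
      by_cases hre : T ^ 2 ≤ max s t
      · have hσ1 : σ = 1 := by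
          rcases hσ with h | h
          · exact h
          · exfalso
            have h1 := C.eq
            rw [h] at h1
            have h2 : t + s = T := by
              have : (t : ℤ) + s = T := by linarith
              exact_mod_cast this
            have h3 := C.s0
            have h4 := C.t0
            have h5 : max s t < T := by
              rw [← h2]
              exact max_lt (by omega) (by omega)
            have h6 : T ≤ T ^ 2 := Nat.le_self_pow (by norm_num) T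
            omega
        subst hσ1
        have hn : n ∈ B := by
          rw [hB]
          exact ⟨s, t, T, C, hsm, hre⟩
        exact Or.inl (Or.inl (Or.inl (Or.inl (Or.inr hn))))
      · push Not at hre
        have hT2 : 2 ≤ T := by
          have h1 : 1 ≤ X ^ (QQ W ^ 2) := Nat.one_le_pow _ _ (by omega)
          have h2 : 1 < T ^ 2 := by omega
          by_contra hcon
          push Not at hcon
          interval_cases T
          · simp at h2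
          · simp at h2
        obtain ⟨p, hp, hd⟩ := hDOM hT2 ((Finset.card_le_card (primeFactors_sub C)).trans C.om)
        have hpp := Nat.prime_of_mem_primeFactors hp
        rcases hq p hpp with h | h
        · have hn : n ∈ P σ q₂ := by
            rw [hP]
            exact ⟨s, t, T, p, C, hsm, hre, hp, h, hd⟩
          rcases hσ with rfl | rfl
          · exact Or.inl (Or.inl (Or.inl (Or.inr hn)))
          · exact Or.inl (Or.inr hn)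
        · have hn : n ∈ P σ q₃ := by
            rw [hP]
            exact ⟨s, t, T, p, C, hsm, hre, hp, h, hd⟩
          rcases hσ with rfl | rfl
          · exact Or.inl (Or.inl (Or.inr hn))
          · exact Or.inr hn
  have hfin : ((((((A 1 ∪ A (-1)) ∪ B) ∪ P 1 q₂) ∪ P 1 q₃) ∪ P (-1) q₂) ∪ P (-1) q₃).Finite :=
    (((((fa.union fb).union fc).union fd).union fe).union ff).union fg
  refine ⟨hfin.subset hsub, ?_⟩
  have h1 := Set.ncard_le_ncard hsub hfin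
  have n1 := Set.ncard_union_le (((((A 1 ∪ A (-1)) ∪ B) ∪ P 1 q₂) ∪ P 1 q₃) ∪ P (-1) q₂)
    (P (-1) q₃)
  have n2 := Set.ncard_union_le ((((A 1 ∪ A (-1)) ∪ B) ∪ P 1 q₂) ∪ P 1 q₃) (P (-1) q₂)
  have n3 := Set.ncard_union_le (((A 1 ∪ A (-1)) ∪ B) ∪ P 1 q₂) (P 1 q₃)
  have n4 := Set.ncard_union_le ((A 1 ∪ A (-1)) ∪ B) (P 1 q₂)
  have n5 := Set.ncard_union_le (A 1 ∪ A (-1)) B
  have n6 := Set.ncard_union_le (A 1) (A (-1))
  have hQE : QQ W ≤ EE X W + 2 := by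
    unfold EE
    have h2 : QQ W ≤ QQ W ^ 2 := Nat.le_self_pow (by norm_num) _
    have h3 : QQ W ^ 2 ≤ QQ W ^ 2 * (Nat.log 2 X + 1) := Nat.le_mul_of_pos_right _ (by omega)
    omega
  have hF : ∀ k, k ≤ 2 * W + 1 → ∀ m, m ≤ EE X W + 2 →
      m ^ k ≤ W * (EE X W + 2) ^ (2 * W + 1) := by
    intro k hk m hm
    calc m ^ k ≤ (EE X W + 2) ^ k := Nat.pow_le_pow_left hm k
      _ ≤ (EE X W + 2) ^ (2 * W + 1) := Nat.pow_le_pow_right (by omega) hk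
      _ ≤ W * (EE X W + 2) ^ (2 * W + 1) := Nat.le_mul_of_pos_left _ hW
  have g1 := hF (2 * W) (by omega) (EE X W + 1) (by omega)
  have g2 := hF (2 * W) (by omega) (QQ W) hQE
  have g3 : W * QQ W ^ (2 * W + 1) ≤ W * (EE X W + 2) ^ (2 * W + 1) :=
    Nat.mul_le_mul_left _ (Nat.pow_le_pow_left hQE _)
  have k1 := Nat.mul_le_mul_left (X / y) g1
  have k2 := Nat.mul_le_mul_left (X / y) g2
  have k3 := Nat.mul_le_mul_left (X / y) g3
  have e1 : X / y * (8 * W * (EE X W + 2) ^ (2 * W + 1)) =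
      8 * (X / y * (W * (EE X W + 2) ^ (2 * W + 1))) := by ring
  rw [e1]
  omega

end Pool.Agent.H374R2.Z.MC
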