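import Pool.Agent.H374R2.Z.Defs

/-!
Task MP: integers with many prime factors (helper847).
-/

set_option autoImplicit false

namespace Pool.Agent.H374R2.Z.MP

open Finset

theorem two_pow_le {n : ℕ} (hn : n ≠ 0) : 2 ^ n.primeFactors.card ≤ n.divisors.card := by
  rw [Nat.card_divisors hn, ← Finset.prod_const]
  refine Finset.prod_le_prod' fun p hp => ?_
  have h1 : 0 < n.factorization p := by
    have := Nat.mem_primeFactors.1 hp
    exact this.1.factorization_pos_of_dvd hn this.2.1
  omega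

theorem sum_divisors (X : ℕ) : ∑ n ∈ Icc 1 X, n.divisors.card = ∑ d ∈ Icc 1 X, X / d := by
  have h1 : ∀ n ∈ Icc 1 X, n.divisors.card = ∑ d ∈ Icc 1 X, if d ∣ n then 1 else 0 := by
    intro n hn
    rw [Finset.mem_Icc] at hn
    rw [← Finset.card_filter]
    congr 1
    ext d
    simp only [Nat.mem_divisors, Finset.mem_filter, Finset.mem_Icc]
    constructor
    · rintro ⟨h, h0⟩
      have h2 := Nat.le_of_dvd (by omega) h
      have h3 := Nat.pos_of_dvd_of_pos h (by omega)
      exact ⟨⟨h3, by omega⟩, h⟩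
    · rintro ⟨-, h⟩
      exact ⟨h, by omega⟩
  rw [Finset.sum_congr rfl h1, Finset.sum_comm]
  refine Finset.sum_congr rfl fun d _ => ?_
  rw [← Finset.card_filter, ← Nat.Ioc_filter_dvd_card_eq_div X d]
  rfl

theorem sum_div_le (X : ℕ) : ((∑ d ∈ Icc 1 X, X / d : ℕ) : ℝ) ≤ X * (1 + Real.log X) := by
  have h1 : ((∑ d ∈ Icc 1 X, X / d : ℕ) : ℝ) ≤ ∑ d ∈ Icc 1 X, (X : ℝ) * (d : ℝ)⁻¹ := by
    push_cast
    refine Finset.sum_le_sum fun d _ => ?_
    rw [← div_eq_mul_inv]
    exact Nat.cast_div_le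
  refine h1.trans ?_
  rw [← Finset.mul_sum]
  refine mul_le_mul_of_nonneg_left ?_ (Nat.cast_nonneg X)
  have h2 := harmonic_le_one_add_log X
  rw [harmonic_eq_sum_Icc] at h2
  push_cast at h2
  exact h2

/-- Task MP (many prime factors). -/
theorem many_primes {X W : ℕ} (hX : 1 ≤ X) :
    (((Icc 1 X).filter (fun n => W < n.primeFactors.card)).card : ℝ) * 2 ^ W ≤
      X * (1 + Real.log X) := by
  have h1 : ((Icc 1 X).filter (fun n => W < n.primeFactors.card)).card * 2 ^ W ≤
      ∑ n ∈ Icc 1 X, n.divisors.card := by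
    rw [← smul_eq_mul, ← Finset.sum_const]
    calc ∑ n ∈ (Icc 1 X).filter (fun n => W < n.primeFactors.card), 2 ^ W
        ≤ ∑ n ∈ (Icc 1 X).filter (fun n => W < n.primeFactors.card), n.divisors.card := by
          refine Finset.sum_le_sum fun n hn => ?_
          rw [Finset.mem_filter, Finset.mem_Icc] at hn
          refine (Nat.pow_le_pow_right (by norm_num) hn.2.le).trans (two_pow_le (by omega))
      _ ≤ ∑ n ∈ Icc 1 X, n.divisors.card :=
          Finset.sum_le_sum_of_subset (Finset.filter_subset _ _)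
  have h2 := sum_div_le X
  rw [← sum_divisors] at h2
  refine le_trans ?_ h2
  exact_mod_cast h1

end Pool.Agent.H374R2.Z.MP
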