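import Pool.Agent.H374R2.Z.Defs

/-!
Task NF: numerics of the choice of the parameters (helper879).
-/

set_option autoImplicit false

namespace Pool.Agent.H374R2.Z.NF

theorem large_loglog (k : ℕ) : ∃ X₀ : ℕ, ∀ X : ℕ, X₀ ≤ X → k ≤ Nat.log 2 (Nat.log 2 X) := by
  refine ⟨2 ^ (2 ^ k), fun X hX => ?_⟩
  have h1 : 2 ^ k ≤ Nat.log 2 X := Nat.le_log_of_pow_le (by norm_num) hX
  exact Nat.le_log_of_pow_le (by norm_num) h1

theorem pow_four_le (l : ℕ) (hl : 16 ≤ l) : l ^ 4 ≤ 2 ^ l := by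
  induction l, hl using Nat.le_induction with
  | base => norm_num
  | succ l hl ih =>
    have h1 : (l + 1) ^ 4 ≤ 2 * l ^ 4 := by
      have h2 : l ^ 4 = l * l ^ 3 := by ring
      have h3 : 16 * l ^ 3 ≤ l * l ^ 3 := Nat.mul_le_mul_right _ hl
      have h4 : 1 ≤ l ^ 3 := Nat.one_le_pow _ _ (by omega)
      have h5 : l ^ 2 ≤ l ^ 3 := Nat.pow_le_pow_right (by omega) (by norm_num)
      have h6 : l ≤ l ^ 3 := by
        calc l = l ^ 1 := (pow_one l).symm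
          _ ≤ l ^ 3 := Nat.pow_le_pow_right (by omega) (by norm_num)
      have h7 : (l + 1) ^ 4 = l ^ 4 + 4 * l ^ 3 + 6 * l ^ 2 + 4 * l + 1 := by ring
      rw [h7]
      omega
    calc (l + 1) ^ 4 ≤ 2 * l ^ 4 := h1
      _ ≤ 2 * 2 ^ l := Nat.mul_le_mul_left _ ih
      _ = 2 ^ (l + 1) := by ring

theorem core (a l : ℕ) (hl : 100 ≤ l) (ha : a + 1 ≤ 2 ^ l) :
    8 * (10 * l) * (((19200 * (10 * l) ^ 2) ^ 2 * (a + 1)) + 2) ^ (2 * (10 * l) + 1) * (a + 1) ≤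
      2 ^ (l ^ 3) := by
  have h4 := pow_four_le l (by omega)
  have hE : (19200 * (10 * l) ^ 2) ^ 2 * (a + 1) + 2 ≤ 2 ^ (2 * l + 43) := by
    have e1 : (19200 * (10 * l) ^ 2) ^ 2 = 3686400000000 * l ^ 4 := by ring
    have e2 : (3686400000000 : ℕ) ≤ 2 ^ 42 := by norm_num
    have e3 : 3686400000000 * l ^ 4 * (a + 1) ≤ 2 ^ 42 * 2 ^ l * 2 ^ l :=
      Nat.mul_le_mul (Nat.mul_le_mul e2 h4) ha
    have e4 : 2 ^ 42 * 2 ^ l * 2 ^ l = 2 ^ (2 * l + 42) := by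
      rw [← pow_add, ← pow_add]
      congr 1
      omega
    have e5 : 2 ^ (2 * l + 43) = 2 * 2 ^ (2 * l + 42) := by rw [← pow_succ']
    have e6 : 2 ≤ 2 ^ (2 * l + 42) := by
      calc 2 = 2 ^ 1 := (pow_one 2).symm
        _ ≤ 2 ^ (2 * l + 42) := Nat.pow_le_pow_right (by norm_num) (by omega)
    rw [e1, e5]
    rw [e4] at e3
    omega
  have h80 : 8 * (10 * l) ≤ 2 ^ (l + 7) := by
    have : l < 2 ^ l := Nat.lt_two_pow_self
    have e : 2 ^ (l + 7) = 128 * 2 ^ l := by rw [pow_add]; ring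
    rw [e]
    omega
  calc 8 * (10 * l) * (((19200 * (10 * l) ^ 2) ^ 2 * (a + 1)) + 2) ^ (2 * (10 * l) + 1) * (a + 1)
      ≤ 2 ^ (l + 7) * (2 ^ (2 * l + 43)) ^ (2 * (10 * l) + 1) * 2 ^ l :=
        Nat.mul_le_mul (Nat.mul_le_mul h80 (Nat.pow_le_pow_left hE _)) ha
    _ = 2 ^ ((l + 7) + (2 * l + 43) * (2 * (10 * l) + 1) + l) := by
        rw [← pow_mul, ← pow_add, ← pow_add]
    _ ≤ 2 ^ (l ^ 3) := by
        apply Nat.pow_le_pow_right (by norm_num)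
        have h1 : 100 * l ^ 2 ≤ l ^ 3 := by
          rw [pow_succ l 2, mul_comm (l ^ 2) l]
          exact Nat.mul_le_mul_right _ hl
        have h2 : 100 * l ≤ l ^ 2 := by
          rw [pow_two]
          exact Nat.mul_le_mul_right _ hl
        have h3 : (l + 7) + (2 * l + 43) * (2 * (10 * l) + 1) + l = 40 * l ^ 2 + 864 * l + 50 := by
          ring
        rw [h3]
        omega

/-- Task NF (numerics of the choice of the parameters). -/
theorem num_final : ∃ X₀ : ℕ, ∀ X l : ℕ, X₀ ≤ X → l = Nat.log 2 (Nat.log 2 X) + 1 →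
    8 * (10 * l) * (EE X (10 * l) + 2) ^ (2 * (10 * l) + 1) * (Nat.log 2 X + 1) ≤ 2 ^ (l ^ 3) := by
  obtain ⟨X₀, hX₀⟩ := large_loglog 99
  refine ⟨X₀, fun X l hX hl => ?_⟩
  have h1 : 100 ≤ l := by
    have := hX₀ X hX
    omega
  have h2 : Nat.log 2 X + 1 ≤ 2 ^ l := by
    rw [hl]
    exact Nat.lt_pow_succ_log_self (by norm_num) _
  unfold EE QQ
  exact core (Nat.log 2 X) l h1 h2

end Pool.Agent.H374R2.Z.NF
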