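import Mathlib
import Pool.Agent.H374R2.Z.Defs

/-! Task NUM (numerics). -/

set_option autoImplicit false

namespace Pool.Agent.H374R2.Z.NUM

open Finset
open Pool.Agent.H374R2.Z

/-- Task NUM (numerics). -/
theorem num_large {W q : ℕ} {h : ℝ} (hW : 1 ≤ W) (hq : 6400 * W ^ 2 ≤ q)
    (hh : (q : ℝ) ^ 2 * Real.log 2 ≤ h) :
    50 * (3 / kap W + 1) * Real.log (10 ^ 8 * (q : ℝ) ^ 9) ≤ h := by
  have hW1 : (1 : ℝ) ≤ W := by exact_mod_cast hW
  have hqr : 6400 * (W : ℝ) ^ 2 ≤ q := by exact_mod_cast hq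
  have hW2 : (W : ℝ) ≤ (W : ℝ) ^ 2 := by nlinarith
  have hqW : 6400 * (W : ℝ) ≤ q := by linarith
  have hq1 : (6400 : ℝ) ≤ q := by linarith
  have hl2 := Real.log_two_gt_d9
  have hl2' := Real.log_two_lt_d9
  have hq0 : (0 : ℝ) < q := by linarith
  -- log q
  have hlq : Real.log q ≤ q / 4 + 1 := by
    have h1 : Real.log ((q : ℝ) / 4) ≤ q / 4 - 1 := Real.log_le_sub_one_of_pos (by positivity)
    rw [Real.log_div (by linarith) (by norm_num)] at h1
    have h4 : Real.log 4 = 2 * Real.log 2 := by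
      rw [show (4 : ℝ) = 2 ^ 2 by norm_num, Real.log_pow]
      norm_num
    rw [h4] at h1
    linarith
  have hlq0 : 0 ≤ Real.log q := Real.log_nonneg (by linarith)
  have hlog : Real.log (10 ^ 8 * (q : ℝ) ^ 9) ≤ 12 * Real.log q := by
    have h1 : (10 : ℝ) ^ 8 * (q : ℝ) ^ 9 ≤ (q : ℝ) ^ 12 := by
      have h2 : (10 : ℝ) ^ 8 ≤ (q : ℝ) ^ 3 := by
        have h3 : (6400 : ℝ) ^ 3 ≤ (q : ℝ) ^ 3 := pow_le_pow_left₀ (by norm_num) hq1 3
        refine le_trans (by norm_num) h3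
      calc (10 : ℝ) ^ 8 * (q : ℝ) ^ 9 ≤ (q : ℝ) ^ 3 * (q : ℝ) ^ 9 :=
            mul_le_mul_of_nonneg_right h2 (by positivity)
        _ = (q : ℝ) ^ 12 := by ring
    have h2 := Real.log_le_log (by positivity) h1
    rw [Real.log_pow] at h2
    exact_mod_cast h2
  have hk : 3 / kap W = 24 * (W : ℝ) := by
    unfold kap
    field_simp
    norm_num
  rw [hk]
  refine le_trans ?_ hh
  have s1 : 50 * (24 * (W : ℝ) + 1) ≤ 1250 * W := by linarith
  have s2 : 50 * (24 * (W : ℝ) + 1) * Real.log (10 ^ 8 * (q : ℝ) ^ 9) ≤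
      1250 * W * (12 * Real.log q) := by
    refine le_trans (mul_le_mul_of_nonneg_left hlog (by positivity)) ?_
    exact mul_le_mul_of_nonneg_right s1 (by positivity)
  refine le_trans s2 ?_
  have s3 : 12 * Real.log q ≤ 7 / 2 * q := by linarith
  have s4 : 1250 * (W : ℝ) * (12 * Real.log q) ≤ 1250 * W * (7 / 2 * q) :=
    mul_le_mul_of_nonneg_left s3 (by positivity)
  refine le_trans s4 ?_
  have s5 : 6400 * (W : ℝ) * q * (69 / 100) ≤ (q : ℝ) ^ 2 * Real.log 2 := by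
    have a1 : 6400 * (W : ℝ) * q ≤ q * q := mul_le_mul_of_nonneg_right hqW hq0.le
    have a2 : 6400 * (W : ℝ) * q ≤ (q : ℝ) ^ 2 := by rw [pow_two]; exact a1
    exact mul_le_mul a2 (by linarith) (by norm_num) (by positivity)
  have s6 : 1250 * (W : ℝ) * (7 / 2 * q) ≤ 6400 * (W : ℝ) * q * (69 / 100) := by
    have : 0 ≤ (W : ℝ) * q := by positivity
    nlinarith
  exact s6.trans s5

end Pool.Agent.H374R2.Z.NUM
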