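import Pool.Agent.H374R2.Z.Defs

/-!
# Project Z, task PA: the `p`-adic case (helper742)
-/

set_option autoImplicit false

namespace Pool.Agent.H374R2.Z.PA

open Finset Pool.Agent.H374R2.Z

/-- Task PA (`p`-adic case; from L, RF, CL, KQ, PP, CD). -/
theorem padic_card
    (hL : ∀ {q s : ℕ}, 0 < q → 0 < s →
      0 < lo q s ∧ 0 < hi q s ∧ lo q s * hi q s ^ q = s ∧ lo q s ∣ rad s ^ (q - 1))
    (hRF : (∀ n, 0 < rad n) ∧ (∀ n, rad n ∣ n) ∧ (∀ n, Squarefree (rad n)) ∧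
      (∀ n, (rad n).primeFactors = n.primeFactors) ∧
      (∀ m n, m ≠ 0 → n ≠ 0 → Nat.Coprime m n → rad (m * n) = rad m * rad n) ∧
      (∀ s E, s ≠ 0 → Nat.log 2 s ≤ E → s ∣ rad s ^ E))
    (hCL : ∀ {κ : ℝ} {q p d e : ℕ} {σ : ℤ}, 0 < κ → κ ≤ 1 →
      IsPrimePow q → 100 / κ ^ 2 ≤ q → p.Prime → ¬ p ∣ q → (σ = 1 ∨ σ = -1) →
      {w : ℕ × ℕ | (∃ T, PairP κ q p σ w.1 w.2 T) ∧ lo q w.1 = d ∧ lo q w.2 = e}.Finite ∧
      {w : ℕ × ℕ | (∃ T, PairP κ q p σ w.1 w.2 T) ∧ lo q w.1 = d ∧ lo q w.2 = e}.ncard ≤ q)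
    (hKQ : ∀ {W q : ℕ}, 1 ≤ W → 6400 * W ^ 2 ≤ q →
      0 < kap W ∧ kap W ≤ 1 ∧ 100 / kap W ^ 2 ≤ q)
    (hPP : ∀ {X W y n q p s t T : ℕ} {σ : ℤ}, 2 ≤ X → 1 ≤ W →
      6400 * W ^ 2 ≤ q → q ≤ QQ W → Cfg X W y n σ s t T →
      X ^ (QQ W ^ 2) ≤ max s t → max s t < T ^ 2 → p ∈ T.primeFactors →
      T ≤ (p ^ T.factorization p) ^ W → PairP (kap W) q p σ s t T)
    (hCD : ∀ Z W E : ℕ, (dataP Z W E).card ≤ Z * (W * (E + 1) ^ (2 * W)))
    {X W y q : ℕ} {σ : ℤ} (hX : 2 ≤ X) (hW : 1 ≤ W) (hy : 1 ≤ y)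
    (hpp : IsPrimePow q) (hq : 6400 * W ^ 2 ≤ q) (hqQ : q ≤ QQ W) (hσ : σ = 1 ∨ σ = -1) :
    {n | ∃ s t T p, Cfg X W y n σ s t T ∧ X ^ (QQ W ^ 2) ≤ max s t ∧ max s t < T ^ 2 ∧
      p ∈ T.primeFactors ∧ ¬ p ∣ q ∧ T ≤ (p ^ T.factorization p) ^ W}.Finite ∧
    {n | ∃ s t T p, Cfg X W y n σ s t T ∧ X ^ (QQ W ^ 2) ≤ max s t ∧ max s t < T ^ 2 ∧
      p ∈ T.primeFactors ∧ ¬ p ∣ q ∧ T ≤ (p ^ T.factorization p) ^ W}.ncard ≤
      (X / y) * (W * QQ W ^ (2 * W + 1)) := by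
  classical
  obtain ⟨r0, rd, rsq, rpf, rmul, -⟩ := hRF
  set A : Set ℕ := {n | ∃ s t T p, Cfg X W y n σ s t T ∧ X ^ (QQ W ^ 2) ≤ max s t ∧
    max s t < T ^ 2 ∧ p ∈ T.primeFactors ∧ ¬ p ∣ q ∧ T ≤ (p ^ T.factorization p) ^ W} with hA
  have hAfin : A.Finite := by
    refine (Set.finite_Iic X).subset ?_
    rintro n ⟨s, t, T, p, C, -⟩
    exact C.nX
  refine ⟨hAfin, ?_⟩
  have hch : ∀ n : ℕ, ∃ w : ℕ × ℕ × ℕ × ℕ, n ∈ A → Cfg X W y n σ w.1 w.2.1 w.2.2.1 ∧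
      X ^ (QQ W ^ 2) ≤ max w.1 w.2.1 ∧ max w.1 w.2.1 < w.2.2.1 ^ 2 ∧
      w.2.2.2 ∈ w.2.2.1.primeFactors ∧ ¬ w.2.2.2 ∣ q ∧
      w.2.2.1 ≤ (w.2.2.2 ^ w.2.2.1.factorization w.2.2.2) ^ W := by
    intro n
    by_cases hn : n ∈ A
    · obtain ⟨s, t, T, p, h⟩ := hn
      exact ⟨(s, t, T, p), fun _ => h⟩
    · exact ⟨(0, 0, 0, 0), fun h => absurd h hn⟩
  choose w hw using hch
  have hq0 : 0 < q := by
    have : 0 < 6400 * W ^ 2 := by positivity
    omega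
  obtain ⟨k0, k1, kq⟩ := hKQ hW hq
  have hn_of : ∀ n ∈ A, n = rad ((w n).1 * (w n).2.1 * (w n).2.2.1) := fun n hn =>
    ((hw n hn).1.n_eq).symm
  -- the pair determines `n`
  have hinj : Set.InjOn (fun n => ((w n).1, (w n).2.1)) A := by
    intro n hn n' hn' h
    simp only [Prod.mk.injEq] at h
    obtain ⟨h1, h2⟩ := h
    have e1 := (hw n hn).1.eq
    have e2 := (hw n' hn').1.eq
    have h3 : (w n).2.2.1 = (w n').2.2.1 := by
      rw [h1, h2] at e1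
      have : (((w n).2.2.1 : ℕ) : ℤ) = ((w n').2.2.1 : ℕ) := by rw [← e1, ← e2]
      exact_mod_cast this
    rw [hn_of n hn, hn_of n' hn', h1, h2, h3]
  set f : ℕ → ℕ × ℕ × ℕ := fun n => (lo q (w n).1, lo q (w n).2.1, (w n).2.2.2) with hf
  have hmaps : ∀ n ∈ hAfin.toFinset, f n ∈ dataP (X / y) W (q - 1) := by
    intro n hn
    rw [Set.Finite.mem_toFinset] at hn
    obtain ⟨C, -, -, hp, -, -⟩ := hw n hn
    set s := (w n).1 with hs
    set t := (w n).2.1 with ht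
    set T := (w n).2.2.1 with hT
    set p := (w n).2.2.2 with hpdef
    have hs0 : s ≠ 0 := C.s0.ne'
    have ht0 : t ≠ 0 := C.t0.ne'
    have hT0 : T ≠ 0 := C.T0.ne'
    have hst0 : s * t ≠ 0 := mul_ne_zero hs0 ht0
    have hpp' : p.Prime := Nat.prime_of_mem_primeFactors hp
    have hpT : p ∣ T := Nat.dvd_of_mem_primeFactors hp
    have hcoT : Nat.Coprime (s * t) T := Nat.Coprime.mul_left C.sT C.tT
    have hn_eq : n = rad (s * t) * rad T := by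
      rw [← rmul _ _ hst0 hT0 hcoT]; exact C.n_eq.symm
    have hdvdrad : ∀ r : ℕ, r ∈ T.primeFactors → r ∣ rad T := by
      intro r hr
      rw [← rpf] at hr
      exact Nat.dvd_of_mem_primeFactors hr
    have hn0 : n ≠ 0 := by
      rw [hn_eq]; exact (Nat.mul_pos (r0 _) (r0 _)).ne'
    -- coprimality of `p` to `rad (s t)`
    have hcop : ∀ r : ℕ, r.Prime → r ∣ T → Nat.Coprime (rad (s * t)) r := by
      intro r hr hrT
      have h1 : Nat.Coprime (s * t) r := Nat.Coprime.coprime_dvd_right hrT hcoT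
      exact Nat.Coprime.coprime_dvd_left (rd _) h1
    obtain ⟨P, hPT, hPy, hPp⟩ : ∃ P ∈ T.primeFactors, y < P ∧ P ≠ p := by
      have h2 : 1 < (T.primeFactors.filter (fun p => y < p)).card := C.two
      obtain ⟨a, ha, b, hb, hab⟩ := Finset.one_lt_card.mp h2
      rw [Finset.mem_filter] at ha hb
      by_cases hap : a = p
      · exact ⟨b, hb.1, hb.2, fun h => hab (hap.trans h.symm)⟩
      · exact ⟨a, ha.1, ha.2, hap⟩
    have hPP' : P.Prime := Nat.prime_of_mem_primeFactors hPT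
    have hpP : p * P ∣ rad T :=
      Nat.Coprime.mul_dvd_of_dvd_of_dvd ((Nat.coprime_primes hpp' hPP').mpr (Ne.symm hPp))
        (hdvdrad p hp) (hdvdrad P hPT)
    have hmn : rad (s * t) * p * P ∣ n := by
      rw [hn_eq, mul_assoc]
      exact mul_dvd_mul_left _ hpP
    have hmn' : rad (s * t) * p ∣ n := (Dvd.intro _ rfl).trans hmn
    have hm1 : 1 ≤ rad (s * t) * p := Nat.mul_pos (r0 _) hpp'.pos
    have hrs : rad (s * t) = rad s * rad t := rmul _ _ hs0 ht0 C.st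
    rw [dataP, Finset.mem_biUnion]
    refine ⟨rad (s * t) * p, ?_, ?_⟩
    · rw [Finset.mem_filter, Finset.mem_Icc]
      refine ⟨⟨hm1, ?_⟩, ?_, ?_⟩
      · rw [Nat.le_div_iff_mul_le (by omega)]
        calc rad (s * t) * p * y ≤ rad (s * t) * p * P := Nat.mul_le_mul_left _ hPy.le
          _ ≤ n := Nat.le_of_dvd (Nat.pos_of_ne_zero hn0) hmn
          _ ≤ X := C.nX
      · rw [Nat.squarefree_mul_iff]
        exact ⟨hcop p hpp' hpT, rsq _, hpp'.squarefree⟩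
      · exact (Finset.card_le_card (Nat.primeFactors_mono hmn' hn0)).trans C.om
    · have hne : (rad (s * t) * p) ^ (q - 1) ≠ 0 := pow_ne_zero _ (by omega)
      simp only [hf, Finset.mem_product, Nat.mem_divisors, Nat.mem_primeFactors]
      refine ⟨⟨?_, hne⟩, ⟨?_, hne⟩, hpp', Dvd.intro_left _ rfl, by omega⟩
      · refine (hL hq0 C.s0).2.2.2.trans (pow_dvd_pow_of_dvd ?_ _)
        rw [hrs, mul_assoc]
        exact Dvd.intro _ rfl
      · refine (hL hq0 C.t0).2.2.2.trans (pow_dvd_pow_of_dvd ?_ _)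
        rw [hrs, mul_assoc, mul_left_comm]
        exact Dvd.intro _ rfl
  have hfib : ∀ b ∈ dataP (X / y) W (q - 1), (hAfin.toFinset.filter (fun n => f n = b)).card ≤ q := by
    intro b _
    rcases (hAfin.toFinset.filter (fun n => f n = b)).eq_empty_or_nonempty with he | ⟨n₀, hn₀⟩
    · rw [he, Finset.card_empty]; exact Nat.zero_le _
    · rw [Finset.mem_filter, Set.Finite.mem_toFinset] at hn₀
      obtain ⟨hn₀A, hb⟩ := hn₀
      obtain ⟨C₀, -, -, hp₀, hpq₀, -⟩ := hw n₀ hn₀A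
      obtain ⟨hSf, hSc⟩ := hCL (d := b.1) (e := b.2.1) k0 k1 hpp kq
        (Nat.prime_of_mem_primeFactors hp₀) hpq₀ hσ
      refine le_trans ?_ hSc
      rw [← Set.ncard_coe_finset]
      refine Set.ncard_le_ncard_of_injOn (fun n => ((w n).1, (w n).2.1)) ?_ ?_ hSf
      · intro n hn
        rw [Finset.mem_coe, Finset.mem_filter, Set.Finite.mem_toFinset] at hn
        obtain ⟨hnA, hnb⟩ := hn
        obtain ⟨C, hbig, hlt, hp, hpq, hdom⟩ := hw n hnA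
        have hpeq : (w n).2.2.2 = (w n₀).2.2.2 := by
          have := hnb.trans hb.symm
          simp only [hf, Prod.mk.injEq] at this
          exact this.2.2
        refine ⟨⟨(w n).2.2.1, ?_⟩, ?_, ?_⟩
        · have := hPP hX hW hq hqQ C hbig hlt hp hdom
          rw [hpeq] at this
          exact this
        · rw [← hnb]
        · rw [← hnb]
      · intro n hn n' hn' h
        rw [Finset.mem_coe, Finset.mem_filter, Set.Finite.mem_toFinset] at hn hn'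
        exact hinj hn.1 hn'.1 h
  have hcard := Finset.card_le_mul_card_image_of_maps_to hmaps q hfib
  rw [Set.ncard_eq_toFinset_card A hAfin]
  refine hcard.trans ?_
  have h1 := hCD (X / y) W (q - 1)
  rw [Nat.sub_add_cancel hq0] at h1
  calc q * (dataP (X / y) W (q - 1)).card ≤ q * ((X / y) * (W * q ^ (2 * W))) :=
        Nat.mul_le_mul_left _ h1
    _ = (X / y) * (W * q ^ (2 * W + 1)) := by rw [pow_succ]; ring
    _ ≤ (X / y) * (W * QQ W ^ (2 * W + 1)) := by gcongr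

end Pool.Agent.H374R2.Z.PA
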