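import Pool.Agent.H374R2.Z.Defs

/-!
Task PP: the pair is of the `p`-adic kind.
-/

set_option autoImplicit false

namespace Pool.Agent.H374R2.Z.PP

open Finset

/-- Task PP (the pair is of the `p`-adic kind; from RF, L, NUM). -/
theorem pairP_of
    (rad_facts : (∀ n, 0 < rad n) ∧ (∀ n, rad n ∣ n) ∧ (∀ n, Squarefree (rad n)) ∧
      (∀ n, (rad n).primeFactors = n.primeFactors) ∧
      (∀ m n, m ≠ 0 → n ≠ 0 → Nat.Coprime m n → rad (m * n) = rad m * rad n) ∧
      (∀ s E, s ≠ 0 → Nat.log 2 s ≤ E → s ∣ rad s ^ E))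
    (lo_hi : ∀ {q s : ℕ}, 0 < q → 0 < s →
      0 < lo q s ∧ 0 < hi q s ∧ lo q s * hi q s ^ q = s ∧ lo q s ∣ rad s ^ (q - 1))
    (num_large : ∀ {W q : ℕ} {h : ℝ}, 1 ≤ W → 6400 * W ^ 2 ≤ q → (q : ℝ) ^ 2 * Real.log 2 ≤ h →
      50 * (3 / kap W + 1) * Real.log (10 ^ 8 * (q : ℝ) ^ 9) ≤ h)
    {X W y n q p s t T : ℕ} {σ : ℤ} (hX : 2 ≤ X) (hW : 1 ≤ W)
    (hq : 6400 * W ^ 2 ≤ q) (hqQ : q ≤ QQ W) (C : Cfg X W y n σ s t T)
    (hbig : X ^ (QQ W ^ 2) ≤ max s t) (hlt : max s t < T ^ 2) (hp : p ∈ T.primeFactors)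
    (hdom : T ≤ (p ^ T.factorization p) ^ W) : PairP (kap W) q p σ s t T := by
  obtain ⟨rpos, -, -, -, rmul, -⟩ := rad_facts
  have hq0 : 0 < q := by
    have : 1 ≤ W ^ 2 := Nat.one_le_pow _ _ hW
    omega
  obtain ⟨hlo, -, -, hlod⟩ := lo_hi hq0 C.t0
  have hX0 : (0 : ℝ) < X := by
    have : 0 < X := by omega
    exact_mod_cast this
  have hX2 : (2 : ℝ) ≤ X := by exact_mod_cast hX
  have hlogX : Real.log 2 ≤ Real.log X := Real.log_le_log (by norm_num) hX2
  have hlog2 : 0 < Real.log 2 := Real.log_pos (by norm_num)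
  have hW0 : (0 : ℝ) < W := by
    have : (1 : ℝ) ≤ W := by exact_mod_cast hW
    linarith
  have hmax0 : 0 < max s t := lt_of_lt_of_le C.s0 (le_max_left _ _)
  have hmax0' : (0 : ℝ) < (max s t : ℕ) := by exact_mod_cast hmax0
  have hh1 : ((QQ W : ℝ)) ^ 2 * Real.log X ≤ Real.log (max s t : ℕ) := by
    have h1 : ((X ^ (QQ W ^ 2) : ℕ) : ℝ) ≤ (max s t : ℕ) := by exact_mod_cast hbig
    have h2 := Real.log_le_log (by positivity) h1
    push_cast at h2
    rw [Real.log_pow] at h2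
    push_cast at h2 ⊢
    exact h2
  have hqQ' : (q : ℝ) ≤ QQ W := by exact_mod_cast hqQ
  -- the radical of `t`
  have hradt : rad t ≤ X := by
    have h1 : rad (s * T * t) = rad (s * T) * rad t :=
      rmul _ _ (Nat.mul_ne_zero C.s0.ne' C.T0.ne') C.t0.ne'
        (Nat.Coprime.mul_left C.st C.tT.symm)
    have h2 : s * T * t = s * t * T := by ring
    rw [h2, C.n_eq] at h1
    have h3 : rad t ≤ n := by
      rw [h1]
      exact Nat.le_mul_of_pos_left _ (rpos _)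
    exact h3.trans C.nX
  have hloglo : Real.log (lo q t) ≤ ((q - 1 : ℕ) : ℝ) * Real.log X := by
    have h1 : lo q t ≤ rad t ^ (q - 1) := Nat.le_of_dvd (pow_pos (rpos _) _) hlod
    have h2 : lo q t ≤ X ^ (q - 1) := h1.trans (Nat.pow_le_pow_left hradt _)
    have h3 : ((lo q t : ℕ) : ℝ) ≤ ((X ^ (q - 1) : ℕ) : ℝ) := by exact_mod_cast h2
    have h4 := Real.log_le_log (by exact_mod_cast hlo) h3
    push_cast at h4
    rw [Real.log_pow] at h4
    exact h4
  have hq1 : ((q - 1 : ℕ) : ℝ) ≤ QQ W := by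
    have : q - 1 ≤ QQ W := by omega
    exact_mod_cast this
  have hq10 : (0 : ℝ) ≤ ((q - 1 : ℕ) : ℝ) := Nat.cast_nonneg _
  have hA : ((q - 1 : ℕ) : ℝ) * Real.log (lo q t) ≤ Real.log (max s t : ℕ) := by
    calc ((q - 1 : ℕ) : ℝ) * Real.log (lo q t)
        ≤ ((q - 1 : ℕ) : ℝ) * (((q - 1 : ℕ) : ℝ) * Real.log X) :=
          mul_le_mul_of_nonneg_left hloglo hq10
      _ = ((q - 1 : ℕ) : ℝ) ^ 2 * Real.log X := by ring
      _ ≤ (QQ W : ℝ) ^ 2 * Real.log X := by
          refine mul_le_mul_of_nonneg_right ?_ (by linarith)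
          exact pow_le_pow_left₀ hq10 hq1 2
      _ ≤ _ := hh1
  set h : ℝ := Real.log (max s t : ℕ) with hhd
  set v : ℕ := T.factorization p with hv
  have hT0 : (0 : ℝ) < T := by exact_mod_cast C.T0
  have hh2 : h ≤ 2 * Real.log T := by
    have h1 : ((max s t : ℕ) : ℝ) ≤ ((T ^ 2 : ℕ) : ℝ) := by exact_mod_cast hlt.le
    have h2 := Real.log_le_log hmax0' h1
    push_cast at h2
    rw [Real.log_pow] at h2
    push_cast at h2
    rw [hhd]
    push_cast
    exact h2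
  have hh3 : Real.log T ≤ W * (v * Real.log p) := by
    have h1 : (T : ℝ) ≤ (((p ^ v) ^ W : ℕ) : ℝ) := by exact_mod_cast hdom
    have h2 := Real.log_le_log hT0 h1
    push_cast at h2
    rw [Real.log_pow, Real.log_pow] at h2
    exact h2
  refine ⟨C.s0, C.t0, C.T0, C.eq, C.st, Nat.dvd_of_mem_primeFactors hp, ⟨v, Nat.ordProj_dvd T p, ?_⟩, ?_⟩
  · have h0 : 0 ≤ h := by
      refine le_trans ?_ hh1
      have : 0 ≤ Real.log X := by linarith
      positivity
    have h1 : kap W * (((q - 1 : ℕ) : ℝ) * Real.log (lo q t) + h) ≤ kap W * (2 * h) := by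
      refine mul_le_mul_of_nonneg_left (by linarith) ?_
      unfold kap
      positivity
    have h2 : kap W * (2 * h) = h / (4 * W) := by
      unfold kap
      field_simp
      ring
    have h3 : h / (4 * W) ≤ v * Real.log p := by
      rw [div_le_iff₀ (by positivity)]
      have h4 : 0 ≤ (v : ℝ) * Real.log p := by
        have : 0 ≤ Real.log (p : ℝ) := Real.log_natCast_nonneg p
        positivity
      have h5 : h ≤ 2 * (W * (v * Real.log p)) := by linarith
      nlinarith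
    linarith
  · refine num_large hW hq ?_
    calc (q : ℝ) ^ 2 * Real.log 2 ≤ (QQ W : ℝ) ^ 2 * Real.log X := by
          refine mul_le_mul ?_ hlogX hlog2.le (by positivity)
          exact pow_le_pow_left₀ (Nat.cast_nonneg _) hqQ' 2
      _ ≤ h := hh1

end Pool.Agent.H374R2.Z.PP
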