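import Pool.Agent.H374R2.Z.Defs

/-!
Task PR: the pair is of the real kind.
-/

set_option autoImplicit false

namespace Pool.Agent.H374R2.Z.PR

open Finset Pool.Agent.H374R2.Z

theorem rad_pos (n : ℕ) : 0 < rad n := by
  unfold rad
  exact Finset.prod_pos fun p hp => (Nat.prime_of_mem_primeFactors hp).pos

theorem lo_pos (q s : ℕ) : 0 < lo q s := by
  unfold lo
  exact Finset.prod_pos fun p hp => pow_pos (Nat.prime_of_mem_primeFactors hp).pos _

theorem lo_dvd (q s : ℕ) (hq : 0 < q) : lo q s ∣ rad s ^ (q - 1) := by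
  unfold lo rad
  rw [← Finset.prod_pow]
  refine Finset.prod_dvd_prod_of_dvd _ _ fun p _ => ?_
  have := Nat.mod_lt (s.factorization p) hq
  exact pow_dvd_pow _ (by omega)

/-- Task PR (the pair is of the real kind; from NUM). -/
theorem pairR_of (hNUM : ∀ {W q : ℕ} {h : ℝ}, 1 ≤ W → 6400 * W ^ 2 ≤ q →
      (q : ℝ) ^ 2 * Real.log 2 ≤ h →
      50 * (3 / kap W + 1) * Real.log (10 ^ 8 * (q : ℝ) ^ 9) ≤ h)
    {X W y n q s t T : ℕ} (hX : 2 ≤ X) (hW : 1 ≤ W)
    (hq : 6400 * W ^ 2 ≤ q) (hqQ : q ≤ QQ W) (C : Cfg X W y n 1 s t T)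
    (hbig : X ^ (QQ W ^ 2) ≤ max s t) (hle : T ^ 2 ≤ max s t) : PairR (kap W) q s t T := by
  have hst : s + T = t := by
    have h := C.eq
    omega
  have hs0 := C.s0
  have hT0 := C.T0
  have ht0 := C.t0
  have hmax : max s t = t := max_eq_right (by omega)
  rw [hmax] at hbig hle
  have hq1 : 1 ≤ q := by
    have : 1 ≤ W ^ 2 := Nat.one_le_pow _ _ hW
    omega
  have hrad : rad t ≤ X := by
    have h1 : rad t ∣ rad (s * t * T) := by
      unfold rad
      refine Finset.prod_dvd_prod_of_subset _ _ _ ?_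
      refine Nat.primeFactors_mono ⟨s * T, by ring⟩ ?_
      positivity
    exact ((Nat.le_of_dvd (rad_pos _) h1).trans (le_of_eq C.n_eq)).trans C.nX
  have hlo : lo q t ≤ X ^ (q - 1) :=
    (Nat.le_of_dvd (pow_pos (rad_pos t) _) (lo_dvd q t hq1)).trans (Nat.pow_le_pow_left hrad _)
  have hX0 : (0 : ℝ) < X := by positivity
  have hlogX : 0 ≤ Real.log X := Real.log_natCast_nonneg X
  have hL : Real.log (lo q t) ≤ ((q - 1 : ℕ) : ℝ) * Real.log X := by
    rw [← Real.log_pow]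
    refine Real.log_le_log (by exact_mod_cast lo_pos q t) ?_
    exact_mod_cast hlo
  have hh : ((QQ W ^ 2 : ℕ) : ℝ) * Real.log X ≤ Real.log t := by
    rw [← Real.log_pow]
    refine Real.log_le_log (by positivity) ?_
    exact_mod_cast hbig
  have hqQ' : ((q : ℕ) : ℝ) ≤ ((QQ W : ℕ) : ℝ) := by exact_mod_cast hqQ
  have hq1' : ((q - 1 : ℕ) : ℝ) ≤ (q : ℝ) := by exact_mod_cast Nat.sub_le q 1
  have hqn : (0 : ℝ) ≤ ((q - 1 : ℕ) : ℝ) := Nat.cast_nonneg _
  have hLh : ((q - 1 : ℕ) : ℝ) * Real.log (lo q t) ≤ Real.log t := by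
    calc ((q - 1 : ℕ) : ℝ) * Real.log (lo q t)
        ≤ ((q - 1 : ℕ) : ℝ) * (((q - 1 : ℕ) : ℝ) * Real.log X) :=
          mul_le_mul_of_nonneg_left hL hqn
      _ = (((q - 1 : ℕ) : ℝ) * ((q - 1 : ℕ) : ℝ)) * Real.log X := by ring
      _ ≤ ((QQ W : ℝ) * (QQ W : ℝ)) * Real.log X := by
          refine mul_le_mul_of_nonneg_right ?_ hlogX
          exact mul_le_mul (hq1'.trans hqQ') (hq1'.trans hqQ') hqn (by positivity)
      _ = ((QQ W ^ 2 : ℕ) : ℝ) * Real.log X := by
          push_cast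
          ring
      _ ≤ Real.log t := hh
  have hT : Real.log T ≤ Real.log t / 2 := by
    have h1 : Real.log ((T : ℝ) ^ 2) ≤ Real.log t := by
      refine Real.log_le_log (by positivity) ?_
      exact_mod_cast hle
    rw [Real.log_pow] at h1
    push_cast at h1
    linarith
  have hlogt : 0 ≤ Real.log t := Real.log_natCast_nonneg t
  have hκ0 : 0 < kap W := by
    unfold kap
    have : (0 : ℝ) < W := by exact_mod_cast hW
    positivity
  have hκ1 : kap W ≤ 1 / 8 := by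
    unfold kap
    have : (1 : ℝ) ≤ W := by exact_mod_cast hW
    rw [div_le_div_iff₀ (by linarith) (by norm_num)]
    linarith
  refine ⟨hs0, hT0, hst, C.st, ?_, ?_⟩
  · have h1 : kap W * (((q - 1 : ℕ) : ℝ) * Real.log (lo q t)) ≤ 1 / 8 * Real.log t := by
      calc kap W * (((q - 1 : ℕ) : ℝ) * Real.log (lo q t)) ≤ kap W * Real.log t :=
            mul_le_mul_of_nonneg_left hLh hκ0.le
        _ ≤ 1 / 8 * Real.log t := mul_le_mul_of_nonneg_right hκ1 hlogt
    have h2 : kap W * Real.log t ≤ 1 / 8 * Real.log t := mul_le_mul_of_nonneg_right hκ1 hlogt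
    linarith
  · refine hNUM hW hq ?_
    have h2 : Real.log 2 ≤ Real.log X := by
      refine Real.log_le_log (by norm_num) ?_
      exact_mod_cast hX
    have h3 : 0 < Real.log 2 := Real.log_pos (by norm_num)
    calc (q : ℝ) ^ 2 * Real.log 2 ≤ ((QQ W : ℕ) : ℝ) ^ 2 * Real.log X := by
          refine mul_le_mul ?_ h2 h3.le (by positivity)
          exact pow_le_pow_left₀ (Nat.cast_nonneg _) hqQ' 2
      _ = ((QQ W ^ 2 : ℕ) : ℝ) * Real.log X := by push_cast; ring
      _ ≤ Real.log t := hh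

end Pool.Agent.H374R2.Z.PR
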