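import Mathlib
import Pool.Agent.H374R2.Z.Defs

/-!
Task RE (real case).
-/

set_option autoImplicit false

namespace Pool.Agent.H374R2.Z.RE

open Finset
open Pool.Agent.H374R2.Z

/-- the data of a configuration -/
theorem cfg_data
    (hL : ∀ {q s : ℕ}, 0 < q → 0 < s →
      0 < lo q s ∧ 0 < hi q s ∧ lo q s * hi q s ^ q = s ∧ lo q s ∣ rad s ^ (q - 1))
    (hRF : (∀ n, 0 < rad n) ∧ (∀ n, rad n ∣ n) ∧ (∀ n, Squarefree (rad n)) ∧
      (∀ n, (rad n).primeFactors = n.primeFactors) ∧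
      (∀ m n, m ≠ 0 → n ≠ 0 → Nat.Coprime m n → rad (m * n) = rad m * rad n) ∧
      (∀ s E, s ≠ 0 → Nat.log 2 s ≤ E → s ∣ rad s ^ E))
    {X W y n q s t T : ℕ} {σ : ℤ} (hy : 1 ≤ y) (hq : 0 < q) (C : Cfg X W y n σ s t T) :
    (lo q s, lo q t) ∈ data (X / y) W (q - 1) := by
  obtain ⟨hr0, hrd, hrs, hrp, hrm, _⟩ := hRF
  have hst0 : s * t ≠ 0 := Nat.mul_ne_zero C.s0.ne' C.t0.ne'
  have hT0 : T ≠ 0 := C.T0.ne'
  have hcop : Nat.Coprime (s * t) T := Nat.Coprime.mul_left C.sT C.tT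
  have h1 : rad (s * t * T) = rad (s * t) * rad T := hrm _ _ hst0 hT0 hcop
  have h2 : rad (s * t) = rad s * rad t := hrm _ _ C.s0.ne' C.t0.ne' C.st
  have h3 : y ≤ rad T := by
    have h4 := C.two
    obtain ⟨p, hp⟩ : (T.primeFactors.filter (fun p => y < p)).Nonempty := by
      rw [← card_pos]; omega
    rw [mem_filter] at hp
    have h5 : p ∣ rad T := by
      have : p ∈ (rad T).primeFactors := by rw [hrp]; exact hp.1
      exact Nat.dvd_of_mem_primeFactors this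
    have h6 := Nat.le_of_dvd (hr0 T) h5
    omega
  have h4 : rad (s * t) ≤ X / y := by
    rw [Nat.le_div_iff_mul_le (by omega)]
    calc rad (s * t) * y ≤ rad (s * t) * rad T := Nat.mul_le_mul_left _ h3
      _ = n := by rw [← h1, C.n_eq]
      _ ≤ X := C.nX
  unfold data
  rw [mem_biUnion]
  refine ⟨rad (s * t), ?_, ?_⟩
  · rw [mem_filter, mem_Icc]
    refine ⟨⟨hr0 _, h4⟩, hrs _, ?_⟩
    refine le_trans (card_le_card ?_) C.om
    rw [hrp, ← C.n_eq, hrp]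
    exact Nat.primeFactors_mono (Dvd.intro T rfl) (Nat.mul_ne_zero hst0 hT0)
  · have hm0 : rad (s * t) ^ (q - 1) ≠ 0 := (pow_pos (hr0 _) _).ne'
    rw [mem_product, Nat.mem_divisors, Nat.mem_divisors]
    refine ⟨⟨?_, hm0⟩, ?_, hm0⟩
    · refine (hL hq C.s0).2.2.2.trans (pow_dvd_pow_of_dvd ?_ _)
      rw [h2]; exact Dvd.intro _ rfl
    · refine (hL hq C.t0).2.2.2.trans (pow_dvd_pow_of_dvd ?_ _)
      rw [h2]; exact Dvd.intro_left _ rfl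

/-- Task RE (real case; from L, RF, URT, KQ, PR, CD). -/
theorem real_card
    (lo_hi : ∀ {q s : ℕ}, 0 < q → 0 < s →
      0 < lo q s ∧ 0 < hi q s ∧ lo q s * hi q s ^ q = s ∧ lo q s ∣ rad s ^ (q - 1))
    (rad_facts : (∀ n, 0 < rad n) ∧ (∀ n, rad n ∣ n) ∧ (∀ n, Squarefree (rad n)) ∧
      (∀ n, (rad n).primeFactors = n.primeFactors) ∧
      (∀ m n, m ≠ 0 → n ≠ 0 → Nat.Coprime m n → rad (m * n) = rad m * rad n) ∧
      (∀ s E, s ≠ 0 → Nat.log 2 s ≤ E → s ∣ rad s ^ E))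
    (unique_rt : ∀ {κ : ℝ} {q s t T s' t' T' : ℕ}, 0 < κ → κ ≤ 1 →
      IsPrimePow q → 100 / κ ^ 2 ≤ q → PairR κ q s t T → PairR κ q s' t' T' →
      lo q s = lo q s' → lo q t = lo q t' → s = s' ∧ t = t')
    (kap_q : ∀ {W q : ℕ}, 1 ≤ W → 6400 * W ^ 2 ≤ q →
      0 < kap W ∧ kap W ≤ 1 ∧ 100 / kap W ^ 2 ≤ q)
    (pairR_of : ∀ {X W y n q s t T : ℕ}, 2 ≤ X → 1 ≤ W → 6400 * W ^ 2 ≤ q → q ≤ QQ W →
      Cfg X W y n 1 s t T → X ^ (QQ W ^ 2) ≤ max s t → T ^ 2 ≤ max s t →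
      PairR (kap W) q s t T)
    (card_data : ∀ Z W E : ℕ, (data Z W E).card ≤ Z * (E + 1) ^ (2 * W))
    {X W y q : ℕ} (hX : 2 ≤ X) (hW : 1 ≤ W) (hy : 1 ≤ y) (hpp : IsPrimePow q)
    (hq : 6400 * W ^ 2 ≤ q) (hqQ : q ≤ QQ W) :
    {n | ∃ s t T, Cfg X W y n 1 s t T ∧ X ^ (QQ W ^ 2) ≤ max s t ∧ T ^ 2 ≤ max s t}.Finite ∧
    {n | ∃ s t T, Cfg X W y n 1 s t T ∧ X ^ (QQ W ^ 2) ≤ max s t ∧ T ^ 2 ≤ max s t}.ncard ≤
      (X / y) * QQ W ^ (2 * W) := by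
  classical
  have hq0 : 0 < q := hpp.pos
  set A := {n | ∃ s t T, Cfg X W y n 1 s t T ∧ X ^ (QQ W ^ 2) ≤ max s t ∧ T ^ 2 ≤ max s t} with hA
  have hch : ∀ n : ℕ, ∃ w : ℕ × ℕ × ℕ, n ∈ A → (Cfg X W y n 1 w.1 w.2.1 w.2.2 ∧
      X ^ (QQ W ^ 2) ≤ max w.1 w.2.1 ∧ w.2.2 ^ 2 ≤ max w.1 w.2.1) := by
    intro n
    by_cases hn : n ∈ A
    · obtain ⟨s, t, T, h⟩ := hn
      exact ⟨(s, t, T), fun _ => h⟩
    · exact ⟨(0, 0, 0), fun h => absurd h hn⟩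
  choose w hw using hch
  obtain ⟨hk0, hk1, hk2⟩ := kap_q hW hq
  have hmaps : ∀ n ∈ A, (lo q (w n).1, lo q (w n).2.1) ∈
      (data (X / y) W (q - 1) : Set (ℕ × ℕ)) := by
    intro n hn
    exact cfg_data lo_hi rad_facts hy hq0 (hw n hn).1
  have hinj : Set.InjOn (fun n => (lo q (w n).1, lo q (w n).2.1)) A := by
    intro n hn n' hn' h
    obtain ⟨C, hb, hl⟩ := hw n hn
    obtain ⟨C', hb', hl'⟩ := hw n' hn'
    have P := pairR_of hX hW hq hqQ C hb hl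
    have P' := pairR_of hX hW hq hqQ C' hb' hl'
    have h1 : lo q (w n).1 = lo q (w n').1 := congrArg Prod.fst h
    have h2 : lo q (w n).2.1 = lo q (w n').2.1 := congrArg Prod.snd h
    obtain ⟨h3, h4⟩ := unique_rt hk0 hk1 hpp hk2 P P' h1 h2
    have h5 : (w n).2.2 = (w n').2.2 := by
      have e1 := C.eq
      have e2 := C'.eq
      rw [h3, h4] at e1
      rw [e1] at e2
      exact_mod_cast e2
    rw [← C.n_eq, ← C'.n_eq, h3, h4, h5]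
  have hfin : A.Finite := Set.Finite.of_injOn hmaps hinj (Finset.finite_toSet _)
  refine ⟨hfin, ?_⟩
  have h1 := Set.ncard_le_ncard_of_injOn _ hmaps hinj (Finset.finite_toSet _)
  rw [Set.ncard_coe_finset] at h1
  calc A.ncard ≤ (data (X / y) W (q - 1)).card := h1
    _ ≤ (X / y) * ((q - 1) + 1) ^ (2 * W) := card_data _ _ _
    _ = (X / y) * q ^ (2 * W) := by rw [Nat.sub_add_cancel hq0]
    _ ≤ (X / y) * QQ W ^ (2 * W) := by gcongr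

end Pool.Agent.H374R2.Z.RE
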