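import Pool.Agent.H374R2.Z.Defs

/-! Project Z, task RF: facts on the radical. -/

namespace Pool.Agent.H374R2.Z.RF

open Finset Pool.Agent.H374R2.Z

theorem primeFactors_rad (n : ℕ) : (rad n).primeFactors = n.primeFactors := by
  unfold rad
  exact Nat.primeFactors_prod (fun p hp => Nat.prime_of_mem_primeFactors hp)

theorem sqf (n : ℕ) : Squarefree (rad n) := by
  unfold rad
  refine Finset.squarefree_prod_of_pairwise_isCoprime ?_ ?_
  · intro p hp q hq hpq
    exact Nat.coprime_iff_isRelPrime.1
      ((Nat.coprime_primes (Nat.prime_of_mem_primeFactors (by simpa using hp))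
        (Nat.prime_of_mem_primeFactors (by simpa using hq))).2 hpq)
  · intro p hp
    exact (Nat.prime_of_mem_primeFactors hp).prime.squarefree

/-- Task RF (radical). -/
theorem rad_facts :
    (∀ n, 0 < rad n) ∧ (∀ n, rad n ∣ n) ∧ (∀ n, Squarefree (rad n)) ∧
    (∀ n, (rad n).primeFactors = n.primeFactors) ∧
    (∀ m n, m ≠ 0 → n ≠ 0 → Nat.Coprime m n → rad (m * n) = rad m * rad n) ∧
    (∀ s E, s ≠ 0 → Nat.log 2 s ≤ E → s ∣ rad s ^ E) := by
  refine ⟨?_, ?_, sqf, primeFactors_rad, ?_, ?_⟩
  · intro n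
    exact Finset.prod_pos (fun p hp => (Nat.prime_of_mem_primeFactors hp).pos)
  · intro n
    exact Nat.prod_primeFactors_dvd n
  · intro m n hm hn hc
    unfold rad
    rw [Nat.primeFactors_mul hm hn, Finset.prod_union hc.disjoint_primeFactors]
  · intro s E hs hE
    conv_lhs => rw [← Nat.factorization_prod_pow_eq_self hs]
    rw [Finsupp.prod, Nat.support_factorization]
    unfold rad
    rw [← Finset.prod_pow]
    refine Finset.prod_dvd_prod_of_dvd _ _ ?_
    intro p hp
    refine pow_dvd_pow p ?_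
    refine le_trans ?_ hE
    refine Nat.le_log_of_pow_le (by norm_num) ?_
    calc 2 ^ s.factorization p ≤ p ^ s.factorization p :=
          Nat.pow_le_pow_left (Nat.prime_of_mem_primeFactors hp).two_le _
      _ ≤ s := Nat.le_of_dvd (Nat.pos_of_ne_zero hs) (Nat.ordProj_dvd s p)

end Pool.Agent.H374R2.Z.RF
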