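import Pool.Agent.H374R2.Z.Defs

/-!
Solutions of small height.
-/

set_option autoImplicit false

namespace Pool.Agent.H374R2.Z.SM

open Finset Pool.Agent.H374R2.Z

/-- Task SM (solutions of small height; from RF, CD). -/
theorem small_card
    (hRF : (∀ n, 0 < rad n) ∧ (∀ n, rad n ∣ n) ∧ (∀ n, Squarefree (rad n)) ∧
      (∀ n, (rad n).primeFactors = n.primeFactors) ∧
      (∀ m n, m ≠ 0 → n ≠ 0 → Nat.Coprime m n → rad (m * n) = rad m * rad n) ∧
      (∀ s E, s ≠ 0 → Nat.log 2 s ≤ E → s ∣ rad s ^ E))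
    (hCD : ∀ Z W E : ℕ, (data Z W E).card ≤ Z * (E + 1) ^ (2 * W))
    {X W y : ℕ} {σ : ℤ} (hX : 2 ≤ X) (hy : 1 ≤ y) (hσ : σ = 1 ∨ σ = -1) :
    {n | ∃ s t T, Cfg X W y n σ s t T ∧ max s t < X ^ (QQ W ^ 2)}.Finite ∧
    {n | ∃ s t T, Cfg X W y n σ s t T ∧ max s t < X ^ (QQ W ^ 2)}.ncard ≤
      (X / y) * (EE X W + 1) ^ (2 * W) := by
  obtain ⟨r0, rd, rs, rp, rm, re⟩ := hRF
  have hlog : ∀ s : ℕ, s ≠ 0 → s < X ^ (QQ W ^ 2) → Nat.log 2 s ≤ EE X W := by
    intro s hs h
    apply le_of_lt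
    apply Nat.log_lt_of_lt_pow hs
    refine lt_of_lt_of_le h ?_
    unfold EE
    rw [mul_comm, pow_mul]
    exact Nat.pow_le_pow_left (Nat.lt_pow_succ_log_self (by norm_num) X).le _
  have hsub : {n | ∃ s t T, Cfg X W y n σ s t T ∧ max s t < X ^ (QQ W ^ 2)} ⊆
      ↑((data (X / y) W (EE X W)).image
        (fun w : ℕ × ℕ => rad (w.1 * w.2 * ((w.2 : ℤ) - σ * w.1).toNat))) := by
    rintro n ⟨s, t, T, C, hmax⟩
    rw [Finset.coe_image]
    refine ⟨(s, t), ?_, ?_⟩
    · rw [Finset.mem_coe]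
      unfold data
      rw [Finset.mem_biUnion]
      have hs0 : s ≠ 0 := C.s0.ne'
      have ht0 : t ≠ 0 := C.t0.ne'
      have hT0 : T ≠ 0 := C.T0.ne'
      have e1 : rad (s * t * T) = rad (s * t) * rad T :=
        rm _ _ (mul_ne_zero hs0 ht0) hT0 (Nat.Coprime.mul_left C.sT C.tT)
      have e2 : rad (s * t) = rad s * rad t := rm _ _ hs0 ht0 C.st
      obtain ⟨P, hP⟩ : (T.primeFactors.filter (fun p => y < p)).Nonempty := by
        rw [← Finset.card_pos]
        have := C.two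
        omega
      rw [Finset.mem_filter] at hP
      have hP1 : P ≤ rad T := by
        apply Nat.le_of_dvd (r0 T)
        apply Nat.dvd_of_mem_primeFactors
        rw [rp]
        exact hP.1
      refine ⟨rad (s * t), ?_, ?_⟩
      · rw [Finset.mem_filter, Finset.mem_Icc]
        refine ⟨⟨r0 _, ?_⟩, rs _, ?_⟩
        · rw [Nat.le_div_iff_mul_le (by omega)]
          calc rad (s * t) * y ≤ rad (s * t) * rad T :=
                Nat.mul_le_mul_left _ (hP.2.le.trans hP1)
            _ = n := by rw [← e1, C.n_eq]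
            _ ≤ X := C.nX
        · refine le_trans (Finset.card_le_card ?_) C.om
          rw [rp, ← C.n_eq, rp]
          exact Nat.primeFactors_mono (Dvd.intro _ rfl)
            (mul_ne_zero (mul_ne_zero hs0 ht0) hT0)
      · rw [Finset.mem_product, Nat.mem_divisors, Nat.mem_divisors]
        have hne : rad (s * t) ^ EE X W ≠ 0 := pow_ne_zero _ (r0 _).ne'
        refine ⟨⟨?_, hne⟩, ?_, hne⟩
        · refine (re s _ hs0 (hlog s hs0 (lt_of_le_of_lt (le_max_left _ _) hmax))).trans ?_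
          rw [e2]
          exact pow_dvd_pow_of_dvd (Dvd.intro _ rfl) _
        · refine (re t _ ht0 (hlog t ht0 (lt_of_le_of_lt (le_max_right _ _) hmax))).trans ?_
          rw [e2]
          exact pow_dvd_pow_of_dvd (Dvd.intro_left _ rfl) _
    · show rad (s * t * ((t : ℤ) - σ * s).toNat) = n
      rw [C.eq, Int.toNat_natCast, C.n_eq]
  refine ⟨(Finset.finite_toSet _).subset hsub, ?_⟩
  refine (Set.ncard_le_ncard hsub (Finset.finite_toSet _)).trans ?_
  rw [Set.ncard_coe_finset]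
  exact Finset.card_image_le.trans (hCD _ _ _)

end Pool.Agent.H374R2.Z.SM
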