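import Pool.Agent.H374R2.Z.Defs

/-!
Task TQ: two prime powers.
-/

namespace Pool.Agent.H374R2.Z.TQ

open Pool.Agent.H374R2.Z

/-- A power of the prime `b` between `N` and `b N`. -/
theorem pow_between {b N : ℕ} (hb : b.Prime) (hN : 1 ≤ N) :
    ∃ k : ℕ, 0 < k ∧ N ≤ b ^ k ∧ b ^ k ≤ b * N := by
  refine ⟨Nat.log b N + 1, Nat.succ_pos _, (Nat.lt_pow_succ_log_self hb.one_lt N).le, ?_⟩
  rw [pow_succ, mul_comm]
  exact Nat.mul_le_mul_left b (Nat.pow_log_le_self b (by omega))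

/-- Task TQ (two prime powers). -/
theorem two_q {W : ℕ} (hW : 1 ≤ W) : ∃ q₂ q₃ : ℕ, IsPrimePow q₂ ∧ IsPrimePow q₃ ∧
    6400 * W ^ 2 ≤ q₂ ∧ q₂ ≤ QQ W ∧ 6400 * W ^ 2 ≤ q₃ ∧ q₃ ≤ QQ W ∧
    ∀ p : ℕ, p.Prime → ¬ p ∣ q₂ ∨ ¬ p ∣ q₃ := by
  have hN : 1 ≤ 6400 * W ^ 2 := by
    have : 1 ≤ W ^ 2 := Nat.one_le_pow _ _ hW
    omega
  obtain ⟨k, hk0, hk1, hk2⟩ := pow_between Nat.prime_two hN
  obtain ⟨l, hl0, hl1, hl2⟩ := pow_between Nat.prime_three hN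
  refine ⟨2 ^ k, 3 ^ l, ?_, ?_, hk1, ?_, hl1, ?_, ?_⟩
  · exact Nat.prime_two.isPrimePow.pow hk0.ne'
  · exact Nat.prime_three.isPrimePow.pow hl0.ne'
  · unfold QQ
    omega
  · unfold QQ
    omega
  · intro p hp
    by_contra h
    push Not at h
    have h2 := (Nat.prime_dvd_prime_iff_eq hp Nat.prime_two).1 (hp.dvd_of_dvd_pow h.1)
    have h3 := (Nat.prime_dvd_prime_iff_eq hp Nat.prime_three).1 (hp.dvd_of_dvd_pow h.2)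
    omega

end Pool.Agent.H374R2.Z.TQ
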