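import Mathlib
import Pool.Agent.H374R2.W.Glue
import Pool.Agent.H374R2.Z.Defs

/-!
Task UPT of project Z: uniqueness, `p`-adic case.
-/

set_option autoImplicit false

namespace Pool.Agent.H374R2.Z.UPT

open Finset
open Pool.Agent.H374R2.V (HH)
open Pool.Agent.H374R2.W (SolP SolR)

theorem lo_pos {q s : ℕ} : 0 < lo q s := by
  unfold lo
  refine Finset.prod_pos fun p hp => ?_
  exact pow_pos (Nat.prime_of_mem_primeFactors hp).pos _

theorem hi_pos {q s : ℕ} : 0 < hi q s := by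
  unfold hi
  refine Finset.prod_pos fun p hp => ?_
  exact pow_pos (Nat.prime_of_mem_primeFactors hp).pos _

theorem lo_hi_eq {q s : ℕ} (hs : 0 < s) : lo q s * hi q s ^ q = s := by
  unfold lo hi
  rw [← Finset.prod_pow, ← Finset.prod_mul_distrib]
  conv_rhs => rw [← Nat.prod_factorization_pow_eq_self hs.ne']
  rw [Finsupp.prod, Nat.support_factorization]
  refine Finset.prod_congr rfl fun p _ => ?_
  rw [← pow_mul, ← pow_add]
  congr 1
  rw [mul_comm]
  exact Nat.mod_add_div _ _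

/-- the solution of the Thue equation attached to a pair -/
theorem solP {κ : ℝ} {q p s t T : ℕ} {σ : ℤ} (hq : 0 < q) (hp : p.Prime)
    (hσ : σ = 1 ∨ σ = -1) (S : PairP κ q p σ s t T) :
    SolP κ q p (σ * lo q s * (lo q t : ℤ) ^ (q - 1)) (lo q t * hi q t) (hi q s)
      ((lo q t : ℤ) ^ (q - 1) * T) := by
  have hs := lo_hi_eq (q := q) S.s0
  have ht := lo_hi_eq (q := q) S.t0
  have hls : 0 < lo q s := lo_pos
  have hlt : 0 < lo q t := lo_pos
  have hhs : 0 < hi q s := hi_pos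
  have hht : 0 < hi q t := hi_pos
  obtain ⟨r, hr⟩ : ∃ r, q = r + 1 := ⟨q - 1, by omega⟩
  have hr' : q - 1 = r := by omega
  have hσ1 : σ.natAbs = 1 := by rcases hσ with h | h <;> rw [h] <;> rfl
  -- the height
  have hHH : HH q (σ * lo q s * (lo q t : ℤ) ^ (q - 1)) (lo q t * hi q t) (hi q s) =
      lo q t ^ (q - 1) * max s t := by
    unfold HH
    have e1 : (lo q t * hi q t) ^ q = lo q t ^ (q - 1) * t := by
      have e0 : lo q t ^ (q - 1) * t = lo q t ^ (q - 1) * (lo q t * hi q t ^ q) := by rw [ht]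
      rw [e0, hr', mul_pow, ← mul_assoc, ← pow_succ, ← hr]
    have e2 : (σ * lo q s * (lo q t : ℤ) ^ (q - 1)).natAbs * hi q s ^ q =
        lo q t ^ (q - 1) * s := by
      rw [Int.natAbs_mul, Int.natAbs_mul, hσ1, one_mul, Int.natAbs_natCast, Int.natAbs_pow,
        Int.natAbs_natCast]
      have e0 : lo q t ^ (q - 1) * s = lo q t ^ (q - 1) * (lo q s * hi q s ^ q) := by rw [hs]
      rw [e0]
      ring
    rw [e1, e2, max_comm s t]
    exact (Nat.mul_max_mul_left _ _ _)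
  have hmax : 0 < max s t := lt_max_of_lt_left S.s0
  have hlog : Real.log (HH q (σ * lo q s * (lo q t : ℤ) ^ (q - 1)) (lo q t * hi q t) (hi q s) : ℕ) =
      (q - 1 : ℕ) * Real.log (lo q t) + Real.log (max s t : ℕ) := by
    rw [hHH, Nat.cast_mul, Real.log_mul (by positivity) (by positivity), Nat.cast_pow,
      Real.log_pow]
  have hlog0 : 0 ≤ ((q - 1 : ℕ) : ℝ) * Real.log (lo q t) :=
    mul_nonneg (Nat.cast_nonneg _) (Real.log_nonneg (by exact_mod_cast hlt))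
  have hpt : ¬ p ∣ t := by
    intro h
    have h1 : (p : ℤ) ∣ σ * s := by
      have e : σ * s = (t : ℤ) - T := by linarith [S.eq]
      rw [e]
      exact dvd_sub (Int.natCast_dvd_natCast.2 h) (Int.natCast_dvd_natCast.2 S.pT)
    have h2 : p ∣ s := by
      have h3 := Int.natAbs_dvd_natAbs.2 h1
      rwa [Int.natAbs_mul, hσ1, one_mul, Int.natAbs_natCast, Int.natAbs_natCast] at h3
    have h3 := Nat.dvd_gcd h2 h
    rw [S.co] at h3
    exact hp.one_lt.ne' (Nat.dvd_one.1 h3)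
  have hps : ¬ p ∣ s := by
    intro h
    have h1 : (p : ℤ) ∣ (t : ℤ) := by
      have e : (t : ℤ) = T + σ * s := by linarith [S.eq]
      rw [e]
      exact dvd_add (Int.natCast_dvd_natCast.2 S.pT)
        (Dvd.dvd.mul_left (Int.natCast_dvd_natCast.2 h) _)
    exact hpt (Int.natCast_dvd_natCast.1 h1)
  have d1 : lo q t ∣ t := ⟨hi q t ^ q, ht.symm⟩
  have d2 : hi q t ∣ t := by
    refine (dvd_pow_self _ hq.ne').trans ?_
    exact ⟨lo q t, by rw [mul_comm]; exact ht.symm⟩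
  have d3 : hi q s ∣ s := by
    refine (dvd_pow_self _ hq.ne').trans ?_
    exact ⟨lo q s, by rw [mul_comm]; exact hs.symm⟩
  have hT0 : (T : ℤ) ≠ 0 := by exact_mod_cast S.T0.ne'
  have hlt0 : (lo q t : ℤ) ≠ 0 := by exact_mod_cast hlt.ne'
  have hls0 : (lo q s : ℤ) ≠ 0 := by exact_mod_cast hls.ne'
  have hσ0 : σ ≠ 0 := by rintro rfl; simp at hσ1
  refine ⟨Nat.mul_pos hlt hht, hhs, mul_ne_zero (pow_ne_zero _ hlt0) hT0,
    mul_ne_zero (mul_ne_zero hσ0 hls0) (pow_ne_zero _ hlt0), ?_, ?_, ?_, ?_, ?_, ?_⟩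
  · have hsz : (lo q s : ℤ) * (hi q s : ℤ) ^ q = s := by exact_mod_cast hs
    have htz : (lo q t : ℤ) * (hi q t : ℤ) ^ q = t := by exact_mod_cast ht
    have e1 : ((lo q t : ℤ) * hi q t) ^ q = (lo q t : ℤ) ^ (q - 1) * t := by
      have e0 : (lo q t : ℤ) ^ (q - 1) * t = (lo q t : ℤ) ^ (q - 1) * (lo q t * hi q t ^ q) := by
        rw [htz]
      rw [e0, hr', mul_pow, ← mul_assoc, ← pow_succ, ← hr]
    push_cast
    rw [e1, ← S.eq]
    calc (lo q t : ℤ) ^ (q - 1) * t - σ * lo q s * (lo q t : ℤ) ^ (q - 1) * (hi q s : ℤ) ^ q =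
        (lo q t : ℤ) ^ (q - 1) * (t - σ * ((lo q s : ℤ) * (hi q s : ℤ) ^ q)) := by ring
      _ = _ := by rw [hsz]
  · have hco : Nat.Coprime t s := S.co.symm
    exact Nat.Coprime.mul_left ((hco.coprime_dvd_left d1).coprime_dvd_right d3)
      ((hco.coprime_dvd_left d2).coprime_dvd_right d3)
  · intro h
    rcases hp.dvd_mul.1 h with h | h
    · exact hpt (h.trans d1)
    · exact hpt (h.trans d2)
  · exact fun h => hps (h.trans d3)
  · obtain ⟨v, hv, hg⟩ := S.good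
    refine ⟨v, ?_, ?_⟩
    · refine Dvd.dvd.mul_left ?_ _
      exact_mod_cast hv
    · rw [hlog]
      exact hg
  · rw [hlog]
    linarith [S.large]

/-- Task UPT (uniqueness, `p`-adic). -/
theorem unique_pt {κ : ℝ} {q p s t T s' t' T' : ℕ} {σ : ℤ} (hκ0 : 0 < κ) (hκ1 : κ ≤ 1)
    (hq : IsPrimePow q) (hqκ : 100 / κ ^ 2 ≤ q) (hp : p.Prime) (hpq : ¬ p ∣ q)
    (hσ : σ = 1 ∨ σ = -1) (S : PairP κ q p σ s t T) (S' : PairP κ q p σ s' t' T')
    (hs : lo q s = lo q s') (ht : lo q t = lo q t')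
    (hroot : hi q t * hi q s' ≡ hi q t' * hi q s [MOD p]) : s = s' ∧ t = t' := by
  have hq0 : 0 < q := hq.pos
  have h1 := solP hq0 hp hσ S
  have h2 := solP hq0 hp hσ S'
  rw [← hs, ← ht] at h2
  have hr : lo q t * hi q t * hi q s' ≡ lo q t * hi q t' * hi q s [MOD p] := by
    rw [mul_assoc, mul_assoc]
    exact hroot.mul_left _
  obtain ⟨hU, hV⟩ := Pool.Agent.H374R2.W.unique_p hκ0 hκ1 hq hqκ hp hpq h1 h2 hr
  have hlt : 0 < lo q t := lo_pos
  have hU' : hi q t = hi q t' := Nat.eq_of_mul_eq_mul_left hlt hU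
  refine ⟨?_, ?_⟩
  · rw [← lo_hi_eq (q := q) S.s0, ← lo_hi_eq (q := q) S'.s0, hs, hV]
  · rw [← lo_hi_eq (q := q) S.t0, ← lo_hi_eq (q := q) S'.t0, ht, hU']

end Pool.Agent.H374R2.Z.UPT
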