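import Mathlib
import Pool.Agent.H374R2.W.Glue
import Pool.Agent.H374R2.Z.Defs

/-!
Task URT: uniqueness, real case.
-/

set_option autoImplicit false

namespace Pool.Agent.H374R2.Z.URT

open Finset
open Pool.Agent.H374R2.V (HH)
open Pool.Agent.H374R2.W (SolP SolR)

/-- A pair of the real kind gives a solution of `U ^ q - a V ^ q = T`. -/
theorem toSolR
    (hL : ∀ {q s : ℕ}, 0 < q → 0 < s →
      0 < lo q s ∧ 0 < hi q s ∧ lo q s * hi q s ^ q = s ∧ lo q s ∣ rad s ^ (q - 1))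
    {κ : ℝ} {q s t T : ℕ} (hq : 0 < q) (S : PairR κ q s t T) :
    SolR κ q ((lo q s * (lo q t) ^ (q - 1) : ℕ) : ℤ) (lo q t * hi q t) (hi q s)
      (((lo q t) ^ (q - 1) * T : ℕ) : ℤ) := by
  have ht0 : 0 < t := by have := S.eq; have := S.s0; omega
  obtain ⟨hs1, hs2, hs3, -⟩ := hL hq S.s0
  obtain ⟨ht1, ht2, ht3, -⟩ := hL hq ht0
  have hpow : (lo q t) ^ q = (lo q t) ^ (q - 1) * lo q t := by
    rw [← pow_succ]; congr 1; omega
  have hUq : (lo q t * hi q t) ^ q = (lo q t) ^ (q - 1) * t := by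
    calc (lo q t * hi q t) ^ q = (lo q t) ^ (q - 1) * (lo q t * hi q t ^ q) := by
          rw [mul_pow, hpow, mul_assoc]
      _ = _ := by rw [ht3]
  have haV : (lo q s * (lo q t) ^ (q - 1)) * (hi q s) ^ q = (lo q t) ^ (q - 1) * s := by
    calc (lo q s * (lo q t) ^ (q - 1)) * (hi q s) ^ q =
          (lo q t) ^ (q - 1) * (lo q s * hi q s ^ q) := by ring
      _ = _ := by rw [hs3]
  have hst : s ≤ t := by have := S.eq; omega
  have hHH : HH q ((lo q s * (lo q t) ^ (q - 1) : ℕ) : ℤ) (lo q t * hi q t) (hi q s) =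
      (lo q t) ^ (q - 1) * t := by
    unfold HH
    rw [Int.natAbs_natCast, hUq, haV]
    exact max_eq_left (Nat.mul_le_mul_left _ hst)
  have hlt : (lo q t : ℝ) ≠ 0 := by
    have : lo q t ≠ 0 := by omega
    exact_mod_cast this
  have htR : (t : ℝ) ≠ 0 := by
    have : t ≠ 0 := by omega
    exact_mod_cast this
  have hTR : (T : ℝ) ≠ 0 := by
    have : T ≠ 0 := by have := S.T0; omega
    exact_mod_cast this
  have hlogH : Real.log ((HH q ((lo q s * (lo q t) ^ (q - 1) : ℕ) : ℤ) (lo q t * hi q t)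
      (hi q s) : ℕ) : ℝ) = (q - 1 : ℕ) * Real.log (lo q t) + Real.log t := by
    rw [hHH]
    push_cast
    rw [Real.log_mul (pow_ne_zero _ hlt) htR, Real.log_pow]
  have hdt : hi q t ∣ t := by
    have h1 : hi q t ∣ hi q t ^ q := dvd_pow_self _ (by omega)
    exact (h1.mul_left (lo q t)).trans (dvd_of_eq ht3)
  have hds : hi q s ∣ s := by
    have h1 : hi q s ∣ hi q s ^ q := dvd_pow_self _ (by omega)
    exact (h1.mul_left (lo q s)).trans (dvd_of_eq hs3)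
  have hlt' : lo q t ∣ t := (Dvd.intro _ ht3)
  refine ⟨by positivity, hs2, ?_, ?_, ?_, ?_, ?_, ?_⟩
  · have h1 : 0 < (lo q t) ^ (q - 1) * T := Nat.mul_pos (pow_pos ht1 _) S.T0
    exact_mod_cast h1.ne'
  · have h1 : 0 < lo q s * (lo q t) ^ (q - 1) := Nat.mul_pos hs1 (pow_pos ht1 _)
    exact_mod_cast h1
  · have h1 : (((lo q t * hi q t : ℕ) : ℤ)) ^ q = (((lo q t) ^ (q - 1) * t : ℕ) : ℤ) := by
      rw [← hUq]; push_cast; rfl
    have h2 : ((lo q s * (lo q t) ^ (q - 1) : ℕ) : ℤ) * ((hi q s : ℕ) : ℤ) ^ q =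
        (((lo q t) ^ (q - 1) * s : ℕ) : ℤ) := by
      rw [← haV]; push_cast; rfl
    rw [h1, h2, ← S.eq]
    push_cast
    ring
  · exact Nat.Coprime.mul_left
      ((S.co.coprime_dvd_left hds).symm.coprime_dvd_left hlt')
      ((S.co.coprime_dvd_left hds).symm.coprime_dvd_left hdt)
  · rw [hlogH]
    have h1 : |(((((lo q t) ^ (q - 1) * T : ℕ) : ℤ)) : ℝ)| = (lo q t : ℝ) ^ (q - 1) * T := by
      push_cast
      exact abs_of_nonneg (by positivity)
    rw [h1, Real.log_mul (pow_ne_zero _ hlt) hTR, Real.log_pow]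
    exact S.good
  · rw [hlogH]
    refine S.large.trans ?_
    have h1 : (1 : ℝ) ≤ lo q t := by exact_mod_cast ht1
    have h2 : 0 ≤ ((q - 1 : ℕ) : ℝ) * Real.log (lo q t) :=
      mul_nonneg (Nat.cast_nonneg _) (Real.log_nonneg h1)
    linarith

/-- Task URT (uniqueness, real). -/
theorem unique_rt
    (hL : ∀ {q s : ℕ}, 0 < q → 0 < s →
      0 < lo q s ∧ 0 < hi q s ∧ lo q s * hi q s ^ q = s ∧ lo q s ∣ rad s ^ (q - 1))
    {κ : ℝ} {q s t T s' t' T' : ℕ} (hκ0 : 0 < κ) (hκ1 : κ ≤ 1)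
    (hq : IsPrimePow q) (hqκ : 100 / κ ^ 2 ≤ q) (S : PairR κ q s t T) (S' : PairR κ q s' t' T')
    (hs : lo q s = lo q s') (ht : lo q t = lo q t') : s = s' ∧ t = t' := by
  have hq0 : 0 < q := hq.pos
  have ht0 : 0 < t := by have := S.eq; have := S.s0; omega
  have ht0' : 0 < t' := by have := S'.eq; have := S'.s0; omega
  have h1 := toSolR (fun h1 h2 => hL h1 h2) hq0 S
  have h2 := toSolR (fun h1 h2 => hL h1 h2) hq0 S'
  rw [← hs, ← ht] at h2
  obtain ⟨h3, h4⟩ := Pool.Agent.H374R2.W.unique_r hκ0 hκ1 hq hqκ h1 h2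
  obtain ⟨-, -, hs3, -⟩ := hL hq0 S.s0
  obtain ⟨-, -, hs3', -⟩ := hL hq0 S'.s0
  obtain ⟨ht1, -, ht3, -⟩ := hL hq0 ht0
  obtain ⟨-, -, ht3', -⟩ := hL hq0 ht0'
  have h5 : hi q t = hi q t' := Nat.eq_of_mul_eq_mul_left ht1 h3
  constructor
  · rw [← hs3, ← hs3', hs, h4]
  · rw [← ht3, ← ht3', ht, h5]

end Pool.Agent.H374R2.Z.URT
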