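import Mathlib
import Pool.Agent.H374R2.W.Glue
import Pool.Agent.H374R2.Z.Defs
import Pool.Agent.H374R2.Z.L
import Pool.Agent.H374R2.Z.RF
import Pool.Agent.H374R2.Z.UPT
import Pool.Agent.H374R2.Z.URT
import Pool.Agent.H374R2.Z.CL
import Pool.Agent.H374R2.Z.DOM
import Pool.Agent.H374R2.Z.NUM
import Pool.Agent.H374R2.Z.KQ
import Pool.Agent.H374R2.Z.PP
import Pool.Agent.H374R2.Z.PR
import Pool.Agent.H374R2.Z.CD
import Pool.Agent.H374R2.Z.PIG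
import Pool.Agent.H374R2.Z.SM
import Pool.Agent.H374R2.Z.RE
import Pool.Agent.H374R2.Z.PA
import Pool.Agent.H374R2.Z.TQ
import Pool.Agent.H374R2.Z.MC
import Pool.Agent.H374R2.Z.H1
import Pool.Agent.H374R2.Z.H2
import Pool.Agent.H374R2.Z.H3
import Pool.Agent.H374R2.Z.H4
import Pool.Agent.H374R2.Z.MP
import Pool.Agent.H374R2.Z.NF
import Pool.Agent.H374R2.Z.FIN

/-!
The finished tasks of the first wave of project Z, put together.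
-/

set_option autoImplicit false

namespace Pool.Agent.H374R2.Z

open Finset

theorem unique_rt {κ : ℝ} {q s t T s' t' T' : ℕ} (hκ0 : 0 < κ) (hκ1 : κ ≤ 1)
    (hq : IsPrimePow q) (hqκ : 100 / κ ^ 2 ≤ q) (S : PairR κ q s t T) (S' : PairR κ q s' t' T')
    (hs : lo q s = lo q s') (ht : lo q t = lo q t') : s = s' ∧ t = t' :=
  URT.unique_rt (fun h1 h2 => L.lo_hi h1 h2) hκ0 hκ1 hq hqκ S S' hs ht

theorem class_card {κ : ℝ} {q p d e : ℕ} {σ : ℤ} (hκ0 : 0 < κ) (hκ1 : κ ≤ 1)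
    (hq : IsPrimePow q) (hqκ : 100 / κ ^ 2 ≤ q) (hp : p.Prime) (hpq : ¬ p ∣ q)
    (hσ : σ = 1 ∨ σ = -1) :
    {w : ℕ × ℕ | (∃ T, PairP κ q p σ w.1 w.2 T) ∧ lo q w.1 = d ∧ lo q w.2 = e}.Finite ∧
    {w : ℕ × ℕ | (∃ T, PairP κ q p σ w.1 w.2 T) ∧ lo q w.1 = d ∧ lo q w.2 = e}.ncard ≤ q :=
  CL.class_card (fun h1 h2 => L.lo_hi h1 h2)
    (fun h1 h2 h3 h4 h5 h6 h7 h8 h9 h10 h11 h12 =>
      UPT.unique_pt h1 h2 h3 h4 h5 h6 h7 h8 h9 h10 h11 h12) hκ0 hκ1 hq hqκ hp hpq hσ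

theorem pairP_of {X W y n q p s t T : ℕ} {σ : ℤ} (hX : 2 ≤ X) (hW : 1 ≤ W)
    (hq : 6400 * W ^ 2 ≤ q) (hqQ : q ≤ QQ W) (C : Cfg X W y n σ s t T)
    (hbig : X ^ (QQ W ^ 2) ≤ max s t) (hlt : max s t < T ^ 2) (hp : p ∈ T.primeFactors)
    (hdom : T ≤ (p ^ T.factorization p) ^ W) : PairP (kap W) q p σ s t T :=
  PP.pairP_of RF.rad_facts (fun h1 h2 => L.lo_hi h1 h2) (fun h1 h2 h3 => NUM.num_large h1 h2 h3)
    hX hW hq hqQ C hbig hlt hp hdom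

theorem pairR_of {X W y n q s t T : ℕ} (hX : 2 ≤ X) (hW : 1 ≤ W)
    (hq : 6400 * W ^ 2 ≤ q) (hqQ : q ≤ QQ W) (C : Cfg X W y n 1 s t T)
    (hbig : X ^ (QQ W ^ 2) ≤ max s t) (hle : T ^ 2 ≤ max s t) : PairR (kap W) q s t T :=
  PR.pairR_of (fun h1 h2 h3 => NUM.num_large h1 h2 h3) hX hW hq hqQ C hbig hle

theorem main_count {X W y : ℕ} (hX : 2 ≤ X) (hW : 1 ≤ W) (hy : 1 ≤ y) :
    {n | Typ X W y n ∧ IsRad n}.Finite ∧
    {n | Typ X W y n ∧ IsRad n}.ncard ≤ (X / y) * (8 * W * (EE X W + 2) ^ (2 * W + 1)) :=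
  MC.main_count (fun h1 h2 => PIG.exists_cfg h1 h2)
    (fun h1 h2 h3 => SM.small_card RF.rad_facts CD.card_data h1 h2 h3)
    (fun h1 h2 h3 h4 h5 h6 => RE.real_card (fun h1 h2 => L.lo_hi h1 h2) RF.rad_facts
      (fun h1 h2 h3 h4 h5 h6 h7 h8 => unique_rt h1 h2 h3 h4 h5 h6 h7 h8)
      (fun h1 h2 => KQ.kap_q h1 h2)
      (fun h1 h2 h3 h4 h5 h6 h7 => pairR_of h1 h2 h3 h4 h5 h6 h7) CD.card_data
      h1 h2 h3 h4 h5 h6)
    (fun h1 h2 h3 h4 h5 h6 h7 => PA.padic_card (fun h1 h2 => L.lo_hi h1 h2) RF.rad_facts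
      (fun h1 h2 h3 h4 h5 h6 h7 => class_card h1 h2 h3 h4 h5 h6 h7)
      (fun h1 h2 => KQ.kap_q h1 h2)
      (fun h1 h2 h3 h4 h5 h6 h7 h8 h9 => pairP_of h1 h2 h3 h4 h5 h6 h7 h8 h9) CD.card_dataP
      h1 h2 h3 h4 h5 h6 h7)
    (fun h1 => TQ.two_q h1) (fun h1 h2 => DOM.dom h1 h2) hX hW hy

theorem few_large {z : ℝ} (hz0 : 0 < z) (hz1 : z ≤ 1) : ∃ C : ℝ, 0 < C ∧ ∀ y X : ℕ, 3 ≤ y →
    y ≤ X → (((Icc 1 X).filter
      (fun n => (n.primeFactors.filter (fun p => y < p)).card ≤ 3)).card : ℝ) ≤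
      C * X * (Real.log y / Real.log X) ^ (1 - z) :=
  H4.few_large (H2.wt_sum H1.wt_log_sum) H3.wt_div_sum hz0 hz1

/-- For every `ε > 0` there are `O(X / (log X) ^ (1 - ε))` integers `n ≤ X` which are radicals of
`a b (a + b)` for coprime positive integers `a`, `b`. -/
theorem final {ε : ℝ} (hε : 0 < ε) : ∃ C : ℝ, 0 < C ∧ ∀ X : ℕ, 2 ≤ X →
    ({n | n ≤ X ∧ IsRad n}.ncard : ℝ) ≤ C * X / Real.log X ^ (1 - ε) :=
  FIN.final (fun h1 h2 h3 => main_count h1 h2 h3) (fun h1 h2 => few_large h1 h2)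
    (fun h1 => MP.many_primes h1) NF.num_final hε

end Pool.Agent.H374R2.Z
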