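import Mathlib
import Pool.Agent.H374R2.Z.Defs
import Pool.Agent.H925R.Szpiro.Twist
import Pool.Agent.H510R2.Div

/-!
Task TW of project Z: conductors of all curves with full 2-torsion (twists included).
-/

set_option autoImplicit false

namespace Pool.Agent.H374R2.Z.TW

open Finset

/-- The shape of the conductor of a minimal model with full 2-torsion. -/
theorem shape (a b : ℤ) (hmin : Pool.Agent.H925R.Szpiro.IsMin a b)
    (hf : Pool.Agent.H925R.Szpiro.FullS a b) :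
    ∃ d r e : ℕ, 0 < d ∧ 0 < r ∧ Pool.Agent.H925R.Szpiro.condS a b = d ^ 2 * r ∧ e ∣ 6 * d ∧
      IsRad (e * r) := by
  classical
  obtain ⟨i, j, g₁, g₂, u, v, hi, hj, hg₁, hg₂, hu, hv, hco, -, h3a, hD, -⟩ :=
    Pool.Agent.H925R.Szpiro.twist_pair a b hmin hf
  set G := g₁ * g₂ with hG
  have hG0 : 0 < G := Nat.mul_pos hg₁ hg₂
  obtain ⟨n, hn⟩ : ∃ n : ℕ, n = u * v * (u + v) := ⟨_, rfl⟩
  have hn0 : n ≠ 0 := by rw [hn]; positivity
  obtain ⟨g, hg⟩ : ∃ g : ℕ, g = 2 ^ i * 3 ^ j * G := ⟨_, rfl⟩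
  have hg0 : g ≠ 0 := by rw [hg]; positivity
  rw [← hg] at h3a hD
  have hDn : (Pool.Agent.H925R.Szpiro.D a b).natAbs = g ^ 6 * n ^ 2 := by
    have : Pool.Agent.H925R.Szpiro.D a b = ((g ^ 6 * n ^ 2 : ℕ) : ℤ) := by
      rw [hD, hn]; push_cast; ring
    rw [this, Int.natAbs_natCast]
  have hpG : ∀ p : ℕ, p.Prime → 5 ≤ p → (p ∣ g ↔ p ∣ G) := by
    intro p hp h5
    constructor
    · intro h
      rw [hg] at h
      rcases hp.dvd_mul.mp h with h | h
      · exfalso
        rcases hp.dvd_mul.mp h with h | h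
        · have := (Nat.prime_dvd_prime_iff_eq hp Nat.prime_two).mp (hp.dvd_of_dvd_pow h)
          omega
        · have := (Nat.prime_dvd_prime_iff_eq hp Nat.prime_three).mp (hp.dvd_of_dvd_pow h)
          omega
      · exact h
    · intro h
      rw [hg]
      exact h.mul_left _
  obtain ⟨P, hP⟩ : ∃ P : Finset ℕ, P =
      (Pool.Agent.H925R.Szpiro.D a b).natAbs.primeFactors.filter (fun p => 5 ≤ p) := ⟨_, rfl⟩
  have hPmem : ∀ p, p ∈ P ↔ p.Prime ∧ 5 ≤ p ∧ (p ∣ G ∨ p ∣ n) := by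
    intro p
    rw [hP, mem_filter, hDn, Nat.mem_primeFactors]
    constructor
    · rintro ⟨⟨hp, hd, -⟩, h5⟩
      refine ⟨hp, h5, ?_⟩
      rcases hp.dvd_mul.mp hd with h | h
      · exact Or.inl ((hpG p hp h5).mp (hp.dvd_of_dvd_pow h))
      · exact Or.inr (hp.dvd_of_dvd_pow h)
    · rintro ⟨hp, h5, h⟩
      refine ⟨⟨hp, ?_, by positivity⟩, h5⟩
      rcases h with h | h
      · exact Dvd.dvd.mul_right (Dvd.dvd.pow ((hpG p hp h5).mpr h) (by norm_num)) _
      · exact Dvd.dvd.mul_left (Dvd.dvd.pow h (by norm_num)) _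
  have hpa : ∀ p ∈ P, ((p : ℤ) ∣ a ↔ p ∣ G) := by
    intro p hp
    obtain ⟨hpp, h5, hor⟩ := (hPmem p).mp hp
    have hpi : Prime (p : ℤ) := Nat.prime_iff_prime_int.mp hpp
    constructor
    · intro ha
      by_contra hnG
      have hpn : p ∣ n := by tauto
      have hng : ¬ p ∣ g := fun h => hnG ((hpG p hpp h5).mp h)
      have h1 : (p : ℤ) ∣ (g : ℤ) ^ 2 * (u ^ 2 + u * v + v ^ 2) := by
        rw [← h3a]; exact ha.mul_left _
      have h2 : (p : ℤ) ∣ (u : ℤ) ^ 2 + u * v + v ^ 2 := by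
        rcases hpi.dvd_or_dvd h1 with h | h
        · exact absurd (by exact_mod_cast hpi.dvd_of_dvd_pow h) hng
        · exact h
      have h3 : p ∣ u ^ 2 + u * v + v ^ 2 := by exact_mod_cast h2
      have hnot : ¬ (p ∣ u ∧ p ∣ v) := by
        rintro ⟨h4, h5'⟩
        have := Nat.dvd_gcd h4 h5'
        rw [hco] at this
        have := Nat.dvd_one.mp this
        omega
      rw [hn] at hpn
      have hcase : p ∣ u ∨ p ∣ v ∨ p ∣ u + v := by
        rcases hpp.dvd_mul.mp hpn with h | h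
        · rcases hpp.dvd_mul.mp h with h | h
          · exact Or.inl h
          · exact Or.inr (Or.inl h)
        · exact Or.inr (Or.inr h)
      rcases hcase with h | h | h
      · apply hnot
        refine ⟨h, ?_⟩
        have h6 : p ∣ u ^ 2 + u * v := dvd_add (h.pow (by norm_num)) (h.mul_right _)
        exact hpp.dvd_of_dvd_pow ((Nat.dvd_add_right h6).mp h3)
      · apply hnot
        refine ⟨?_, h⟩
        have h6 : p ∣ u * v + v ^ 2 := dvd_add (h.mul_left _) (h.pow (by norm_num))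
        rw [add_assoc] at h3
        exact hpp.dvd_of_dvd_pow ((Nat.dvd_add_left h6).mp h3)
      · have h6 : p ∣ (u ^ 2 + u * v + v ^ 2) + u * v := by
          have : (u ^ 2 + u * v + v ^ 2) + u * v = (u + v) ^ 2 := by ring
          rw [this]
          exact h.pow (by norm_num)
        have h7 : p ∣ u * v := (Nat.dvd_add_right h3).mp h6
        rcases hpp.dvd_mul.mp h7 with h8 | h8
        · exact hnot ⟨h8, (Nat.dvd_add_right h8).mp h⟩
        · exact hnot ⟨(Nat.dvd_add_left h8).mp h, h8⟩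
    · intro h
      have h1 : (p : ℤ) ∣ 3 * a := by
        rw [h3a]
        have h2 : (p : ℤ) ∣ (g : ℤ) := by exact_mod_cast (hpG p hpp h5).mpr h
        exact Dvd.dvd.mul_right (h2.pow (by norm_num)) _
      rcases hpi.dvd_or_dvd h1 with h2 | h2
      · exfalso
        have h3 : p ∣ 3 := by exact_mod_cast h2
        have := Nat.le_of_dvd (by norm_num) h3
        omega
      · exact h2
  have hPpos : ∀ p ∈ P, 0 < p := fun p hp => ((hPmem p).mp hp).1.pos
  refine ⟨∏ p ∈ P.filter (fun p => p ∣ G), p, ∏ p ∈ P.filter (fun p => ¬ p ∣ G), p,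
    ∏ p ∈ n.primeFactors.filter (fun p => ¬ (5 ≤ p ∧ ¬ p ∣ G)), p,
    prod_pos (fun p hp => hPpos p (mem_filter.mp hp).1),
    prod_pos (fun p hp => hPpos p (mem_filter.mp hp).1), ?_, ?_, ?_⟩
  · unfold Pool.Agent.H925R.Szpiro.condS
    rw [← hP, ← prod_filter_mul_prod_filter_not P (fun p => p ∣ G), ← prod_pow]
    congr 1
    · refine prod_congr rfl (fun p hp => ?_)
      rw [mem_filter] at hp
      rw [if_pos ((hpa p hp.1).mpr hp.2)]
    · refine prod_congr rfl (fun p hp => ?_)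
      rw [mem_filter] at hp
      rw [if_neg (fun h => hp.2 ((hpa p hp.1).mp h))]
  · have h6 : (6 : ℕ) = ∏ p ∈ ({2, 3} : Finset ℕ), p := by
      rw [prod_pair (by norm_num)]; norm_num
    have hdis : Disjoint ({2, 3} : Finset ℕ) (P.filter (fun p => p ∣ G)) := by
      rw [Finset.disjoint_left]
      intro p h1 h2
      rw [mem_filter, hPmem] at h2
      simp only [mem_insert, mem_singleton] at h1
      omega
    rw [h6, ← prod_union hdis]
    apply prod_dvd_prod_of_subset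
    intro p hp
    rw [mem_filter, Nat.mem_primeFactors] at hp
    rw [mem_union, mem_filter, hPmem]
    by_cases h5 : 5 ≤ p
    · right
      have : p ∣ G := by
        by_contra h
        exact hp.2 ⟨h5, h⟩
      exact ⟨⟨hp.1.1, h5, Or.inl this⟩, this⟩
    · left
      have h2 := hp.1.1.two_le
      have h4 : p ≠ 4 := by
        rintro rfl
        exact absurd hp.1.1 (by norm_num)
      simp only [mem_insert, mem_singleton]
      omega
  · refine ⟨u, v, hu, hv, hco, ?_⟩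
    rw [← hn]
    unfold rad
    rw [← prod_filter_mul_prod_filter_not n.primeFactors (fun p => 5 ≤ p ∧ ¬ p ∣ G), mul_comm]
    congr 1
    refine prod_congr ?_ (fun _ _ => rfl)
    ext p
    rw [mem_filter, mem_filter, hPmem, Nat.mem_primeFactors]
    constructor
    · rintro ⟨⟨h1, h2, -⟩, h3, h4⟩
      exact ⟨⟨h1, h3, Or.inr h2⟩, h4⟩
    · rintro ⟨⟨h1, h2, h3⟩, h4⟩
      exact ⟨⟨h1, by tauto, hn0⟩, h2, h4⟩

/-- The number of radicals up to `Y`. -/
noncomputable def F (Y : ℕ) : ℕ := {n : ℕ | n ≤ Y ∧ IsRad n}.ncard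

theorem fin_F (Y : ℕ) : {n : ℕ | n ≤ Y ∧ IsRad n}.Finite :=
  (Set.finite_Iic Y).subset (fun _ hn => hn.1)

theorem count_e (X d e : ℕ) (hd : 0 < d) (he : e ∣ 6 * d) :
    {r : ℕ | d ^ 2 * r ≤ X ∧ IsRad (e * r)}.ncard ≤ F (6 * X / d) := by
  have he0 : 0 < e := Nat.pos_of_dvd_of_pos he (by positivity)
  unfold F
  refine Set.ncard_le_ncard_of_injOn (fun r => e * r) ?_ ?_ (fin_F _)
  · rintro r ⟨h1, h2⟩
    refine ⟨?_, h2⟩
    rw [Nat.le_div_iff_mul_le hd]
    have : e ≤ 6 * d := Nat.le_of_dvd (by positivity) he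
    calc e * r * d ≤ (6 * d) * r * d := by gcongr
      _ = 6 * (d ^ 2 * r) := by ring
      _ ≤ 6 * X := by gcongr
  · intro r _ s _ h
    exact Nat.eq_of_mul_eq_mul_left he0 h

theorem count_main (X L : ℕ) :
    {n : ℕ | n ≤ X ∧ ∃ a b : ℤ, Pool.Agent.H925R.Szpiro.IsMin a b ∧
      Pool.Agent.H925R.Szpiro.FullS a b ∧ Pool.Agent.H925R.Szpiro.condS a b = n}.ncard ≤
      ∑ d ∈ Icc 1 L, (6 * d).divisors.card * F (6 * X / d) +
        ∑ d ∈ Ioo L (X + 1), X / d ^ 2 := by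
  classical
  obtain ⟨A, hA⟩ : ∃ A : ℕ → ℕ → Finset ℕ, A = fun d e => (range (X + 1)).filter
    (fun r => d ^ 2 * r ≤ X ∧ IsRad (e * r)) := ⟨_, rfl⟩
  set U1 := (Icc 1 L).biUnion (fun d => (6 * d).divisors.biUnion
    (fun e => (A d e).image (fun r => d ^ 2 * r))) with hU1
  set U2 := (Ioo L (X + 1)).biUnion (fun d => (Icc 1 (X / d ^ 2)).image
    (fun r => d ^ 2 * r)) with hU2
  have hsub : {n : ℕ | n ≤ X ∧ ∃ a b : ℤ, Pool.Agent.H925R.Szpiro.IsMin a b ∧
      Pool.Agent.H925R.Szpiro.FullS a b ∧ Pool.Agent.H925R.Szpiro.condS a b = n} ⊆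
      ((U1 ∪ U2 : Finset ℕ) : Set ℕ) := by
    rintro n ⟨hn, a, b, hmin, hf, hc⟩
    obtain ⟨d, r, e, hd, hr, hc', he, hrad⟩ := shape a b hmin hf
    rw [hc] at hc'
    rw [Finset.mem_coe, mem_union]
    by_cases hL : d ≤ L
    · left
      rw [hU1, mem_biUnion]
      refine ⟨d, mem_Icc.mpr ⟨hd, hL⟩, mem_biUnion.mpr ⟨e, Nat.mem_divisors.mpr
        ⟨he, by positivity⟩, mem_image.mpr ⟨r, ?_, hc'.symm⟩⟩⟩
      rw [hA, mem_filter, mem_range]
      refine ⟨?_, by omega, hrad⟩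
      have : r ≤ d ^ 2 * r := Nat.le_mul_of_pos_left _ (by positivity)
      omega
    · right
      rw [hU2, mem_biUnion]
      refine ⟨d, mem_Ioo.mpr ⟨by omega, ?_⟩, mem_image.mpr ⟨r, mem_Icc.mpr ⟨hr, ?_⟩, hc'.symm⟩⟩
      · have h1 : d ≤ d ^ 2 := Nat.le_self_pow (by norm_num) d
        have h2 : d ^ 2 ≤ d ^ 2 * r := Nat.le_mul_of_pos_right _ hr
        omega
      · rw [Nat.le_div_iff_mul_le (by positivity), mul_comm]
        omega
  calc _ ≤ ((U1 ∪ U2 : Finset ℕ) : Set ℕ).ncard :=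
        Set.ncard_le_ncard hsub (Finset.finite_toSet _)
    _ = (U1 ∪ U2).card := Set.ncard_coe_finset _
    _ ≤ U1.card + U2.card := card_union_le _ _
    _ ≤ _ := by
      refine add_le_add ?_ ?_
      · refine card_biUnion_le.trans (sum_le_sum (fun d hd => ?_))
        refine card_biUnion_le.trans ?_
        rw [← smul_eq_mul ((6 * d).divisors.card)]
        refine sum_le_card_nsmul _ _ _ (fun e he => ?_)
        refine card_image_le.trans ?_
        refine le_trans ?_ (count_e X d e (mem_Icc.mp hd).1 (Nat.dvd_of_mem_divisors he))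
        rw [← Set.ncard_coe_finset]
        refine Set.ncard_le_ncard ?_ ?_
        · intro r hr
          rw [hA, Finset.mem_coe, mem_filter] at hr
          exact hr.2
        · refine (Set.finite_Iic X).subset (fun r hr => ?_)
          have hd0 : 0 < d := (mem_Icc.mp hd).1
          have : r ≤ d ^ 2 * r := Nat.le_mul_of_pos_left _ (by positivity)
          exact this.trans hr.1
      · refine card_biUnion_le.trans (sum_le_sum (fun d hd => ?_))
        refine card_image_le.trans ?_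
        rw [Nat.card_Icc, Nat.add_sub_cancel]

/-- The tail. -/
theorem tail_le {X : ℕ} (hX : 2 ≤ X) :
    ((∑ d ∈ Ioo ⌊Real.log X⌋₊ (X + 1), X / d ^ 2 : ℕ) : ℝ) ≤ 2 * X / Real.log X := by
  have hl : 0 < Real.log X := Real.log_pos (by exact_mod_cast (by omega : 1 < X))
  push_cast
  calc ∑ d ∈ Ioo ⌊Real.log X⌋₊ (X + 1), ((X / d ^ 2 : ℕ) : ℝ)
      ≤ ∑ d ∈ Ioo ⌊Real.log X⌋₊ (X + 1), (X : ℝ) * ((d : ℝ) ^ 2)⁻¹ := by
        refine sum_le_sum (fun d _ => ?_)
        refine Nat.cast_div_le.trans ?_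
        push_cast
        rw [div_eq_mul_inv]
    _ = X * ∑ d ∈ Ioo ⌊Real.log X⌋₊ (X + 1), ((d : ℝ) ^ 2)⁻¹ := by rw [mul_sum]
    _ ≤ X * (2 / (⌊Real.log X⌋₊ + 1)) := by
        refine mul_le_mul_of_nonneg_left ?_ (by positivity)
        exact sum_Ioo_inv_sq_le _ _
    _ ≤ X * (2 / Real.log X) := by
        refine mul_le_mul_of_nonneg_left ?_ (by positivity)
        exact div_le_div_of_nonneg_left (by norm_num) hl (Nat.lt_floor_add_one _).le
    _ = 2 * X / Real.log X := by ring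

/-- One value of `d`. -/
theorem one_d {η C : ℝ} (hη : η < 1) (hC : 0 < C) (h : ∀ Y : ℕ, 2 ≤ Y →
    (F Y : ℝ) ≤ C * Y / Real.log Y ^ (1 - η)) (hη0 : 0 ≤ η) {X d : ℕ} (hX : 2 ≤ X) (hd : 0 < d)
    (hdX : (d : ℝ) ≤ Real.log X) :
    (F (6 * X / d) : ℝ) ≤ 12 * C * X / (d * Real.log X ^ (1 - η)) := by
  have hX1 : (1 : ℝ) < X := by exact_mod_cast (by omega : 1 < X)
  have hl : 0 < Real.log X := Real.log_pos hX1
  have hd' : (0 : ℝ) < d := by exact_mod_cast hd
  set s := Real.sqrt X with hs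
  have hs1 : 1 ≤ s := Real.one_le_sqrt.mpr hX1.le
  have hss : s * s = X := Real.mul_self_sqrt (by positivity)
  have hls : Real.log s = Real.log X / 2 := Real.log_sqrt (by positivity)
  have hl2 : Real.log X ≤ 2 * s := by
    have := Real.log_le_sub_one_of_pos (by linarith : 0 < s)
    rw [hls] at this
    linarith
  have hY : (2 : ℝ) * s ≤ ((6 * X / d : ℕ) : ℝ) := by
    have h1 : ((6 * X : ℕ) : ℝ) / d < ((6 * X / d : ℕ) : ℝ) + 1 := by
      rw [div_lt_iff₀ hd']
      have := Nat.lt_div_mul_add (a := 6 * X) hd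
      have h2 : 6 * X < (6 * X / d + 1) * d := by
        rw [add_mul, one_mul]; exact this
      exact_mod_cast h2
    have h3 : 3 * s ≤ ((6 * X : ℕ) : ℝ) / d := by
      rw [le_div_iff₀ hd']
      push_cast
      have : (d : ℝ) ≤ 2 * s := hdX.trans hl2
      nlinarith
    linarith
  have hY2 : 2 ≤ 6 * X / d := by
    have : (2 : ℝ) ≤ ((6 * X / d : ℕ) : ℝ) := by linarith
    exact_mod_cast this
  have hYd : ((6 * X / d : ℕ) : ℝ) ≤ 6 * X / d := by
    refine Nat.cast_div_le.trans ?_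
    push_cast
    exact le_refl _
  have hlY : Real.log X / 2 ≤ Real.log ((6 * X / d : ℕ) : ℝ) := by
    rw [← hls]
    exact Real.log_le_log (by linarith) (by linarith)
  have hpow : Real.log X ^ (1 - η) / 2 ≤ Real.log ((6 * X / d : ℕ) : ℝ) ^ (1 - η) := by
    calc Real.log X ^ (1 - η) / 2 ≤ Real.log X ^ (1 - η) / 2 ^ (1 - η) := by
          refine div_le_div_of_nonneg_left (by positivity) (by positivity) ?_
          calc (2 : ℝ) ^ (1 - η) ≤ 2 ^ (1 : ℝ) :=
                Real.rpow_le_rpow_of_exponent_le (by norm_num) (by linarith)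
            _ = 2 := Real.rpow_one 2
      _ = (Real.log X / 2) ^ (1 - η) := (Real.div_rpow hl.le (by norm_num) _).symm
      _ ≤ _ := Real.rpow_le_rpow (by positivity) hlY (by linarith)
  calc (F (6 * X / d) : ℝ) ≤ C * ((6 * X / d : ℕ) : ℝ) /
        Real.log ((6 * X / d : ℕ) : ℝ) ^ (1 - η) := h _ hY2
    _ ≤ C * (6 * X / d) / (Real.log X ^ (1 - η) / 2) := by
        refine div_le_div₀ (by positivity) ?_ (by positivity) hpow
        exact mul_le_mul_of_nonneg_left hYd hC.le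
    _ = 12 * C * X / (d * Real.log X ^ (1 - η)) := by
        field_simp
        ring

theorem twist_small (hFIN : ∀ {ε : ℝ}, 0 < ε → ∃ C : ℝ, 0 < C ∧ ∀ X : ℕ, 2 ≤ X →
    ({n | n ≤ X ∧ IsRad n}.ncard : ℝ) ≤ C * X / Real.log X ^ (1 - ε)) {ε : ℝ} (hε : 0 < ε)
    (hε1 : ε ≤ 1) : ∃ C : ℝ, 0 < C ∧ ∀ X : ℕ, 2 ≤ X →
    ({n : ℕ | n ≤ X ∧ ∃ a b : ℤ, Pool.Agent.H925R.Szpiro.IsMin a b ∧
      Pool.Agent.H925R.Szpiro.FullS a b ∧ Pool.Agent.H925R.Szpiro.condS a b = n}.ncard : ℝ) ≤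
      C * X / Real.log X ^ (1 - ε) := by
  obtain ⟨C1, hC1, hF⟩ := hFIN (ε := ε / 2) (by positivity)
  obtain ⟨C2, hC2, hdiv⟩ := Pool.Agent.H510R2.divisor_bound (ε / 4) (by positivity)
  have hsum : Summable (fun n : ℕ => 1 / (n : ℝ) ^ (1 + ε / 4)) :=
    Real.summable_one_div_nat_rpow.mpr (by linarith)
  set Z := ∑' n : ℕ, 1 / (n : ℝ) ^ (1 + ε / 4) with hZ
  have hZ0 : 0 ≤ Z := tsum_nonneg (fun n => by positivity)
  set K := C2 * 6 ^ (ε / 4) * (12 * C1) * Z with hK
  have hK0 : 0 ≤ K := by positivity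
  have hlog2 : 0 < Real.log 2 := Real.log_pos (by norm_num)
  refine ⟨K + 2 * Real.log 2 ^ (-ε), by positivity, fun X hX => ?_⟩
  have hX1 : (1 : ℝ) < X := by exact_mod_cast (by omega : 1 < X)
  have hX2 : (2 : ℝ) ≤ X := by exact_mod_cast hX
  have hl : 0 < Real.log X := Real.log_pos hX1
  have hmain := count_main X ⌊Real.log X⌋₊
  have htail := tail_le hX
  have htail2 : 2 * X / Real.log X ≤ 2 * Real.log 2 ^ (-ε) * X / Real.log X ^ (1 - ε) := by
    rw [div_le_div_iff₀ hl (by positivity), Real.rpow_sub hl, Real.rpow_one]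
    have h1 : Real.log X ^ (-ε) ≤ Real.log 2 ^ (-ε) :=
      Real.rpow_le_rpow_of_nonpos hlog2 (Real.log_le_log (by norm_num) hX2)
        (by linarith)
    have h2 : Real.log X / Real.log X ^ ε = Real.log X * Real.log X ^ (-ε) := by
      rw [Real.rpow_neg hl.le, div_eq_mul_inv]
    rw [h2]
    have h3 : (0 : ℝ) ≤ 2 * X * Real.log X := by positivity
    nlinarith [mul_le_mul_of_nonneg_left h1 h3]
  have hfirst : ((∑ d ∈ Icc 1 ⌊Real.log X⌋₊, (6 * d).divisors.card * F (6 * X / d) : ℕ) : ℝ) ≤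
      K * X / Real.log X ^ (1 - ε) := by
    push_cast
    have hterm : ∀ d ∈ Icc 1 ⌊Real.log X⌋₊, ((6 * d).divisors.card : ℝ) * F (6 * X / d) ≤
        (C2 * 6 ^ (ε / 4) * (12 * C1) * X / Real.log X ^ (1 - ε)) *
          (1 / (d : ℝ) ^ (1 + ε / 4)) := by
      intro d hd
      rw [mem_Icc] at hd
      have hd0 : 0 < d := hd.1
      have hd' : (0 : ℝ) < d := by exact_mod_cast hd0
      have hdl : (d : ℝ) ≤ Real.log X := (Nat.le_floor_iff hl.le).mp hd.2
      have h1 := one_d (by linarith) hC1 hF (by positivity) hX hd0 hdl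
      have h2 := hdiv (6 * d) (by omega)
      push_cast at h2
      rw [Real.mul_rpow (by norm_num) hd'.le] at h2
      have h3 : (d : ℝ) ^ (ε / 4) * (d : ℝ) ^ (ε / 4) ≤ Real.log X ^ (ε / 2) := by
        rw [← Real.rpow_add hd']
        have : ε / 4 + ε / 4 = ε / 2 := by ring
        rw [this]
        exact Real.rpow_le_rpow hd'.le hdl (by positivity)
      have h4 : Real.log X ^ (1 - ε / 2) = Real.log X ^ (1 - ε) * Real.log X ^ (ε / 2) := by
        rw [← Real.rpow_add hl]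
        congr 1; ring
      have h5 : (d : ℝ) ^ (1 + ε / 4) = d * (d : ℝ) ^ (ε / 4) := by
        rw [Real.rpow_add hd', Real.rpow_one]
      calc ((6 * d).divisors.card : ℝ) * F (6 * X / d)
          ≤ (C2 * (6 ^ (ε / 4) * (d : ℝ) ^ (ε / 4))) *
            (12 * C1 * X / (d * Real.log X ^ (1 - ε / 2))) :=
            mul_le_mul h2 h1 (by positivity) (by positivity)
        _ = (C2 * 6 ^ (ε / 4) * (12 * C1) * X / (Real.log X ^ (1 - ε) * d)) *
            ((d : ℝ) ^ (ε / 4) / Real.log X ^ (ε / 2)) := by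
            rw [h4]
            field_simp
        _ ≤ (C2 * 6 ^ (ε / 4) * (12 * C1) * X / (Real.log X ^ (1 - ε) * d)) *
            (1 / (d : ℝ) ^ (ε / 4)) := by
            refine mul_le_mul_of_nonneg_left ?_ (by positivity)
            rw [div_le_div_iff₀ (by positivity) (by positivity), one_mul]
            exact h3
        _ = _ := by
            rw [h5]
            field_simp
    refine (sum_le_sum hterm).trans ?_
    rw [← mul_sum]
    have hs : ∑ d ∈ Icc 1 ⌊Real.log X⌋₊, 1 / (d : ℝ) ^ (1 + ε / 4) ≤ Z :=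
      hsum.sum_le_tsum _ (fun n _ => by positivity)
    calc _ ≤ (C2 * 6 ^ (ε / 4) * (12 * C1) * X / Real.log X ^ (1 - ε)) * Z :=
          mul_le_mul_of_nonneg_left hs (by positivity)
      _ = K * X / Real.log X ^ (1 - ε) := by
          rw [hK]; ring
  calc _ ≤ ((∑ d ∈ Icc 1 ⌊Real.log X⌋₊, (6 * d).divisors.card * F (6 * X / d) +
        ∑ d ∈ Ioo ⌊Real.log X⌋₊ (X + 1), X / d ^ 2 : ℕ) : ℝ) := by exact_mod_cast hmain
    _ ≤ K * X / Real.log X ^ (1 - ε) + 2 * Real.log 2 ^ (-ε) * X / Real.log X ^ (1 - ε) := by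
        rw [Nat.cast_add]
        exact add_le_add hfirst (htail.trans htail2)
    _ = _ := by ring

/-- Task TW (prime-to-6 parts of the conductors of all curves with full 2-torsion;
hypothesis FIN). -/
theorem twist (hFIN : ∀ {ε : ℝ}, 0 < ε → ∃ C : ℝ, 0 < C ∧ ∀ X : ℕ, 2 ≤ X →
    ({n | n ≤ X ∧ Pool.Agent.H374R2.Z.IsRad n}.ncard : ℝ) ≤ C * X / Real.log X ^ (1 - ε))
    {ε : ℝ} (hε : 0 < ε) : ∃ C : ℝ, 0 < C ∧ ∀ X : ℕ, 2 ≤ X →
    ({n : ℕ | n ≤ X ∧ ∃ a b : ℤ, Pool.Agent.H925R.Szpiro.IsMin a b ∧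
      Pool.Agent.H925R.Szpiro.FullS a b ∧ Pool.Agent.H925R.Szpiro.condS a b = n}.ncard : ℝ) ≤
      C * X / Real.log X ^ (1 - ε) := by
  have hlog2 : 0 < Real.log 2 := Real.log_pos (by norm_num)
  rcases le_total ε 1 with h1 | h1
  · exact twist_small hFIN hε h1
  · obtain ⟨C, hC, h⟩ := twist_small hFIN one_pos le_rfl
    refine ⟨C * Real.log 2 ^ (1 - ε), by positivity, fun X hX => (h X hX).trans ?_⟩
    have hX1 : (1 : ℝ) < X := by exact_mod_cast (by omega : 1 < X)
    have hX2 : (2 : ℝ) ≤ X := by exact_mod_cast hX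
    have hl : 0 < Real.log X := Real.log_pos hX1
    have h2 : Real.log X ^ (1 - ε) ≤ Real.log 2 ^ (1 - ε) :=
      Real.rpow_le_rpow_of_nonpos hlog2 (Real.log_le_log (by norm_num) hX2)
        (by linarith)
    rw [sub_self, Real.rpow_zero, div_one, le_div_iff₀ (by positivity)]
    have h3 : (0 : ℝ) ≤ C * X := by positivity
    nlinarith [mul_le_mul_of_nonneg_left h2 h3]

end Pool.Agent.H374R2.Z.TW
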