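import Mathlib
import Pool.Agent.H374R2.Z.Glue
import Pool.Agent.H374R2.Z.EC
import Pool.Agent.H374R2.Z.TW

/-!
Conductors of elliptic curves with full rational 2-torsion.
-/

set_option autoImplicit false

namespace Pool.Agent.H374R2.Z

theorem curves_semi {ε : ℝ} (hε : 0 < ε) : ∃ C : ℝ, 0 < C ∧ ∀ X : ℕ, 2 ≤ X →
    ({n : ℕ | n ≤ X ∧ ∃ W : WeierstrassCurve ℤ, W.Δ ≠ 0 ∧ IsCoprime W.c₄ W.Δ ∧
      Pool.Agent.H925R.Szpiro.Full W ∧ Pool.Agent.H925R.Szpiro.cond W = n}.ncard : ℝ) ≤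
      C * X / Real.log X ^ (1 - ε) :=
  EC.semi (fun h => final h) hε

theorem curves_all {ε : ℝ} (hε : 0 < ε) : ∃ C : ℝ, 0 < C ∧ ∀ X : ℕ, 2 ≤ X →
    ({n : ℕ | n ≤ X ∧ ∃ a b : ℤ, Pool.Agent.H925R.Szpiro.IsMin a b ∧
      Pool.Agent.H925R.Szpiro.FullS a b ∧ Pool.Agent.H925R.Szpiro.condS a b = n}.ncard : ℝ) ≤
      C * X / Real.log X ^ (1 - ε) :=
  TW.twist (fun h => final h) hε

end Pool.Agent.H374R2.Z
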