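import Pool.Agent.H374R2.Z.Defs

namespace Pool.Agent.H374R2.Z.Q1

open Finset

/-- The function `n ↦ n ^ (-γ)` as a monoid homomorphism. -/
noncomputable def pw (γ : ℝ) : ℕ →* ℝ where
  toFun n := (n : ℝ) ^ (-γ)
  map_one' := by simp
  map_mul' a b := by
    rw [Nat.cast_mul, Real.mul_rpow (Nat.cast_nonneg a) (Nat.cast_nonneg b)]

theorem pw_apply (γ : ℝ) (n : ℕ) : pw γ n = (n : ℝ) ^ (-γ) := rfl

/-- Task Q1 (Rankin). -/
theorem rankin {γ : ℝ} (hγ : 0 < γ) : ∃ C : ℝ, 1 ≤ C ∧ ∀ Z m : ℕ, 1 ≤ Z → 0 < m →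
    (((Icc 1 Z).filter (fun s => rad s ∣ m)).card : ℝ) ≤
      C ^ m.primeFactors.card * (Z : ℝ) ^ γ := by
  have h2 : (2 : ℝ) ^ (-γ) < 1 := Real.rpow_lt_one_of_one_lt_of_neg (by norm_num) (by linarith)
  have h20 : 0 < (2 : ℝ) ^ (-γ) := by positivity
  refine ⟨(1 - (2 : ℝ) ^ (-γ))⁻¹, ?_, ?_⟩
  · rw [one_le_inv₀ (by linarith)]; linarith
  intro Z m hZ hm
  have hlt : ∀ {p : ℕ}, p.Prime → ‖pw γ p‖ < 1 := by
    intro p hp
    have hp1 : (1 : ℝ) < p := by exact_mod_cast hp.one_lt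
    rw [pw_apply, Real.norm_of_nonneg (by positivity)]
    exact Real.rpow_lt_one_of_one_lt_of_neg hp1 (by linarith)
  obtain ⟨hsum, hhas⟩ :=
    EulerProduct.summable_and_hasSum_factoredNumbers_prod_filter_prime_geometric hlt m.primeFactors
  set T := (Icc 1 Z).filter (fun s => rad s ∣ m) with hT
  have hmem : ∀ s ∈ T, s ∈ Nat.factoredNumbers m.primeFactors := by
    intro s hs
    rw [hT, mem_filter, mem_Icc] at hs
    refine Nat.mem_factoredNumbers_of_primeFactors_subset (by omega) ?_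
    intro p hp
    have h1 : p ∣ rad s := dvd_prod_of_mem _ hp
    exact Nat.mem_primeFactors.mpr ⟨(Nat.prime_of_mem_primeFactors hp), h1.trans hs.2, hm.ne'⟩
  have hsum' : Summable (fun n : Nat.factoredNumbers m.primeFactors ↦ pw γ n) := hsum.of_norm
  -- finite sum over T
  have hle : ∑ s ∈ T, pw γ s ≤ ∏ p ∈ m.primeFactors with p.Prime, (1 - pw γ p)⁻¹ := by
    rw [← hhas.tsum_eq]
    have hinj : Function.Injective (fun s : T => (⟨s.1, hmem s.1 s.2⟩ :
        Nat.factoredNumbers m.primeFactors)) := by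
      intro a b hab
      exact Subtype.ext (by simpa using congrArg Subtype.val hab)
    have h3 : ∑ s ∈ T, pw γ s = ∑ s ∈ (univ : Finset T).map ⟨_, hinj⟩,
        pw γ (s : Nat.factoredNumbers m.primeFactors) := by
      rw [sum_map, ← sum_coe_sort T]
      rfl
    rw [h3]
    exact hsum'.sum_le_tsum _ (fun i _ => by rw [pw_apply]; positivity)
  have hprod : ∏ p ∈ m.primeFactors with p.Prime, (1 - pw γ p)⁻¹ ≤
      ((1 - (2 : ℝ) ^ (-γ))⁻¹) ^ m.primeFactors.card := by
    have hf : (m.primeFactors.filter (fun p => p.Prime)) = m.primeFactors :=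
      filter_true_of_mem (fun p hp => Nat.prime_of_mem_primeFactors hp)
    rw [hf]
    calc ∏ p ∈ m.primeFactors, (1 - pw γ p)⁻¹
        ≤ ∏ _p ∈ m.primeFactors, (1 - (2 : ℝ) ^ (-γ))⁻¹ := by
          refine prod_le_prod (fun p hp => ?_) (fun p hp => ?_)
          · have h5 := hlt (Nat.prime_of_mem_primeFactors hp)
            have h6 := (abs_lt.mp (by rwa [Real.norm_eq_abs] at h5)).2
            exact inv_nonneg.mpr (by linarith)
          · refine inv_anti₀ (by linarith) ?_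
            have h7 : pw γ p ≤ (2 : ℝ) ^ (-γ) := by
              rw [pw_apply]
              exact Real.rpow_le_rpow_of_nonpos (by norm_num)
                (by exact_mod_cast (Nat.prime_of_mem_primeFactors hp).two_le) (by linarith)
            linarith
      _ = _ := by rw [prod_const]
  have hlow : (T.card : ℝ) * (Z : ℝ) ^ (-γ) ≤ ∑ s ∈ T, pw γ s := by
    rw [← nsmul_eq_mul]
    refine card_nsmul_le_sum _ _ _ ?_
    intro s hs
    rw [hT, mem_filter, mem_Icc] at hs
    rw [pw_apply]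
    exact Real.rpow_le_rpow_of_nonpos (by exact_mod_cast hs.1.1) (by exact_mod_cast hs.1.2)
      (by linarith)
  have hZ0 : (0 : ℝ) < Z := by exact_mod_cast hZ
  have hZg : (0 : ℝ) < (Z : ℝ) ^ γ := by positivity
  have h4 := hlow.trans (hle.trans hprod)
  rw [Real.rpow_neg hZ0.le, ← div_eq_mul_inv, div_le_iff₀ hZg] at h4
  exact h4

end Pool.Agent.H374R2.Z.Q1
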