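import Mathlib

/-! Task Q2. -/

set_option autoImplicit false

namespace Pool.Agent.H374R2.Z.Q2

open Finset

/-- Task Q2 (`K ^ ω(m)` is `O(m ^ γ)`). -/
theorem pow_omega {K γ : ℝ} (hK : 1 ≤ K) (hγ : 0 < γ) : ∃ C : ℝ, 1 ≤ C ∧ ∀ m : ℕ, 0 < m →
    K ^ m.primeFactors.card ≤ C * (m : ℝ) ^ γ := by
  set P : ℕ := ⌈K ^ (1 / γ)⌉₊ with hP
  have hK0 : 0 < K := by linarith
  refine ⟨K ^ P, one_le_pow₀ hK, fun m hm => ?_⟩
  have hloc : ∀ p ∈ m.primeFactors, K ≤ (if p < P then K else 1) * (p : ℝ) ^ γ := by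
    intro p hp
    have hp2 := (Nat.prime_of_mem_primeFactors hp).one_lt
    have hp1 : (1 : ℝ) ≤ p := by exact_mod_cast hp2.le
    have h1 : (1 : ℝ) ≤ (p : ℝ) ^ γ := Real.one_le_rpow hp1 hγ.le
    split_ifs with h
    · nlinarith
    · rw [one_mul]
      have h2 : K ^ (1 / γ) ≤ (p : ℝ) := (Nat.le_ceil _).trans (by exact_mod_cast not_lt.mp h)
      calc K = (K ^ (1 / γ)) ^ γ := by
            rw [← Real.rpow_mul hK0.le, one_div_mul_cancel hγ.ne', Real.rpow_one]
        _ ≤ (p : ℝ) ^ γ := Real.rpow_le_rpow (by positivity) h2 hγ.le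
  have hprod : ∏ p ∈ m.primeFactors, (p : ℝ) ^ γ ≤ (m : ℝ) ^ γ := by
    rw [Real.finsetProd_rpow _ _ (fun p _ => Nat.cast_nonneg p)]
    refine Real.rpow_le_rpow (Finset.prod_nonneg fun p _ => Nat.cast_nonneg p) ?_ hγ.le
    have : ∏ p ∈ m.primeFactors, p ≤ m := Nat.le_of_dvd hm (Nat.prod_primeFactors_dvd m)
    calc ∏ p ∈ m.primeFactors, (p : ℝ) = ((∏ p ∈ m.primeFactors, p : ℕ) : ℝ) := by push_cast; rfl
      _ ≤ m := by exact_mod_cast this
  have hsmall : ∏ p ∈ m.primeFactors, (if p < P then K else 1) ≤ K ^ P := by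
    rw [← Finset.prod_filter, Finset.prod_const]
    refine pow_le_pow_right₀ hK ?_
    calc (m.primeFactors.filter (fun p => p < P)).card ≤ (Finset.range P).card := by
          refine Finset.card_le_card fun p hp => ?_
          rw [Finset.mem_range]
          exact (Finset.mem_filter.mp hp).2
      _ = P := Finset.card_range P
  calc K ^ m.primeFactors.card = ∏ _p ∈ m.primeFactors, K := by rw [Finset.prod_const]
    _ ≤ ∏ p ∈ m.primeFactors, (if p < P then K else 1) * (p : ℝ) ^ γ :=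
        Finset.prod_le_prod (fun _ _ => hK0.le) hloc
    _ = (∏ p ∈ m.primeFactors, (if p < P then K else 1)) * ∏ p ∈ m.primeFactors, (p : ℝ) ^ γ :=
        Finset.prod_mul_distrib
    _ ≤ K ^ P * (m : ℝ) ^ γ := by
        refine mul_le_mul hsmall hprod (Finset.prod_nonneg fun p _ => by positivity) (by positivity)

end Pool.Agent.H374R2.Z.Q2
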