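import Pool.Agent.H374R2.Z.Defs2
import Pool.Agent.H374R2.Z.CD
import Pool.Agent.H374R2.Z.Q2

/-! Task Q3. -/

set_option autoImplicit false

namespace Pool.Agent.H374R2.Z.Q3

open Finset
open Pool.Agent.H374R2.Z

/-- Task Q3 (from Q2). -/
theorem dataQ_card (E : ℕ) {γ : ℝ} (hγ : 0 < γ) : ∃ C : ℝ, 1 ≤ C ∧ ∀ M : ℕ, 1 ≤ M →
    ((dataQ M E).card : ℝ) ≤ C * (M : ℝ) ^ (1 + γ) := by
  obtain ⟨C, hC, h⟩ := Q2.pow_omega (K := ((E : ℝ) + 1) ^ 2)
    (by nlinarith [(Nat.cast_nonneg E : (0 : ℝ) ≤ E)]) hγ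
  refine ⟨C, hC, fun M hM => ?_⟩
  have hM0 : (0 : ℝ) < M := by exact_mod_cast hM
  have h1 : (dataQ M E).card ≤ ∑ m ∈ (Icc 1 M).filter Squarefree,
      (E + 1) ^ m.primeFactors.card * (E + 1) ^ m.primeFactors.card := by
    unfold dataQ
    refine Finset.card_biUnion_le.trans (Finset.sum_le_sum fun m hm => ?_)
    rw [Finset.mem_filter, Finset.mem_Icc] at hm
    rw [Finset.card_product]
    have := CD.card_div (E := E) (by omega : m ≠ 0) hm.2 le_rfl
    exact Nat.mul_le_mul this this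
  have h2 : ((dataQ M E).card : ℝ) ≤ ∑ m ∈ (Icc 1 M).filter Squarefree,
      (((E : ℝ) + 1) ^ 2) ^ m.primeFactors.card := by
    calc ((dataQ M E).card : ℝ) ≤ ((∑ m ∈ (Icc 1 M).filter Squarefree,
          (E + 1) ^ m.primeFactors.card * (E + 1) ^ m.primeFactors.card : ℕ) : ℝ) := by
          exact_mod_cast h1
      _ = _ := by
          push_cast
          refine Finset.sum_congr rfl fun m _ => ?_
          rw [← pow_add, ← pow_mul, two_mul]
  calc ((dataQ M E).card : ℝ) ≤ ∑ m ∈ (Icc 1 M).filter Squarefree,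
        (((E : ℝ) + 1) ^ 2) ^ m.primeFactors.card := h2
    _ ≤ ∑ m ∈ Icc 1 M, (((E : ℝ) + 1) ^ 2) ^ m.primeFactors.card :=
        Finset.sum_le_sum_of_subset_of_nonneg (Finset.filter_subset _ _)
          fun _ _ _ => by positivity
    _ ≤ ∑ m ∈ Icc 1 M, C * (M : ℝ) ^ γ := by
        refine Finset.sum_le_sum fun m hm => ?_
        rw [Finset.mem_Icc] at hm
        refine (h m (by omega)).trans ?_
        have : (m : ℝ) ≤ M := by exact_mod_cast hm.2
        gcongr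
    _ = C * (M : ℝ) ^ (1 + γ) := by
        rw [Finset.sum_const, Nat.card_Icc, nsmul_eq_mul, Real.rpow_add hM0, Real.rpow_one]
        simp
        ring

end Pool.Agent.H374R2.Z.Q3
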