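import Mathlib
import Pool.Agent.H374R2.Z.Defs2

/-!
Task Q4: pairs of small height (from Q1, Q2).
-/

set_option autoImplicit false

namespace Pool.Agent.H374R2.Z.Q4

open Finset Pool.Agent.H374R2.Z

theorem rad_pos (n : ℕ) : 1 ≤ rad n := by
  unfold rad
  exact Finset.prod_pos fun p hp => (Nat.prime_of_mem_primeFactors hp).pos

theorem rad_dvd_left {a b : ℕ} (ha : a ≠ 0) (hb : b ≠ 0) : rad a ∣ rad (a * b) := by
  unfold rad
  apply Finset.prod_dvd_prod_of_subset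
  rw [Nat.primeFactors_mul ha hb]
  exact Finset.subset_union_left

theorem rad_dvd_right {a b : ℕ} (ha : a ≠ 0) (hb : b ≠ 0) : rad b ∣ rad (a * b) := by
  unfold rad
  apply Finset.prod_dvd_prod_of_subset
  rw [Nat.primeFactors_mul ha hb]
  exact Finset.subset_union_right

/-- Task Q4 (from Q1, Q2). -/
theorem small_pairs
    (hQ1 : ∀ {γ : ℝ}, 0 < γ → ∃ C : ℝ, 1 ≤ C ∧ ∀ Z m : ℕ, 1 ≤ Z → 0 < m →
      (((Icc 1 Z).filter (fun s => rad s ∣ m)).card : ℝ) ≤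
        C ^ m.primeFactors.card * (Z : ℝ) ^ γ)
    (hQ2 : ∀ {K γ : ℝ}, 1 ≤ K → 0 < γ → ∃ C : ℝ, 1 ≤ C ∧ ∀ m : ℕ, 0 < m →
      K ^ m.primeFactors.card ≤ C * (m : ℝ) ^ γ)
    (K : ℕ) {γ : ℝ} (hγ : 0 < γ) : ∃ C : ℝ, 1 ≤ C ∧ ∀ N M : ℕ, 1 ≤ N → 1 ≤ M →
    M ≤ N → (((Icc 1 (N ^ K) ×ˢ Icc 1 (N ^ K)).filter
      (fun w : ℕ × ℕ => w.1.Coprime w.2 ∧ rad (w.1 * w.2) ≤ M)).card : ℝ) ≤
      C * M * (N : ℝ) ^ γ := by
  have hg : 0 < γ / (4 * ((K : ℝ) + 1)) := by positivity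
  obtain ⟨C1, hC1, h1⟩ := hQ1 hg
  obtain ⟨C2, hC2, h2⟩ := hQ2 (K := C1 ^ 2) (γ := γ / 2) (one_le_pow₀ hC1) (by positivity)
  refine ⟨C2, hC2, fun N M hN hM hMN => ?_⟩
  have hN0 : (0 : ℝ) < N := by exact_mod_cast (show 0 < N by omega)
  have hN1 : (1 : ℝ) ≤ N := by exact_mod_cast hN
  have hsub : ((Icc 1 (N ^ K) ×ˢ Icc 1 (N ^ K)).filter
      (fun w : ℕ × ℕ => w.1.Coprime w.2 ∧ rad (w.1 * w.2) ≤ M)) ⊆
      (Icc 1 M).biUnion fun m => ((Icc 1 (N ^ K)).filter (fun s => rad s ∣ m)) ×ˢ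
        ((Icc 1 (N ^ K)).filter (fun s => rad s ∣ m)) := by
    intro w hw
    rw [mem_filter, mem_product] at hw
    obtain ⟨⟨ha, hb⟩, -, hr⟩ := hw
    rw [mem_Icc] at ha hb
    have ha0 : w.1 ≠ 0 := by omega
    have hb0 : w.2 ≠ 0 := by omega
    rw [mem_biUnion]
    refine ⟨rad (w.1 * w.2), mem_Icc.2 ⟨rad_pos _, hr⟩, ?_⟩
    rw [mem_product, mem_filter, mem_filter, mem_Icc, mem_Icc]
    exact ⟨⟨ha, rad_dvd_left ha0 hb0⟩, ⟨hb, rad_dvd_right ha0 hb0⟩⟩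
  have hcard := (card_le_card hsub).trans card_biUnion_le
  have hcardR : ((((Icc 1 (N ^ K) ×ˢ Icc 1 (N ^ K)).filter
      (fun w : ℕ × ℕ => w.1.Coprime w.2 ∧ rad (w.1 * w.2) ≤ M)).card : ℕ) : ℝ) ≤
      ∑ m ∈ Icc 1 M, (((Icc 1 (N ^ K)).filter (fun s => rad s ∣ m)).card : ℝ) ^ 2 := by
    refine (Nat.cast_le.2 hcard).trans (le_of_eq ?_)
    push_cast
    refine Finset.sum_congr rfl fun m _ => ?_
    rw [card_product]
    push_cast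
    ring
  refine hcardR.trans ?_
  have hterm : ∀ m ∈ Icc 1 M, (((Icc 1 (N ^ K)).filter (fun s => rad s ∣ m)).card : ℝ) ^ 2 ≤
      C2 * (N : ℝ) ^ γ := by
    intro m hm
    rw [mem_Icc] at hm
    have hm0 : (0 : ℝ) < m := by exact_mod_cast (show 0 < m by omega)
    have hmN : (m : ℝ) ≤ N := by exact_mod_cast (hm.2.trans hMN)
    have e1 := h1 (N ^ K) m (Nat.one_le_pow _ _ (by omega)) (by omega)
    have e2 := h2 m (by omega)
    have e3 : (((Icc 1 (N ^ K)).filter (fun s => rad s ∣ m)).card : ℝ) ^ 2 ≤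
        (C1 ^ m.primeFactors.card * ((N ^ K : ℕ) : ℝ) ^ (γ / (4 * ((K : ℝ) + 1)))) ^ 2 :=
      pow_le_pow_left₀ (Nat.cast_nonneg _) e1 2
    refine e3.trans ?_
    have e4 : (C1 ^ m.primeFactors.card * ((N ^ K : ℕ) : ℝ) ^ (γ / (4 * ((K : ℝ) + 1)))) ^ 2 =
        (C1 ^ 2) ^ m.primeFactors.card *
          (((N ^ K : ℕ) : ℝ) ^ (γ / (4 * ((K : ℝ) + 1)))) ^ 2 := by
      rw [mul_pow, ← pow_mul, ← pow_mul, mul_comm 2]
    rw [e4]
    have e5 : (((N ^ K : ℕ) : ℝ) ^ (γ / (4 * ((K : ℝ) + 1)))) ^ 2 ≤ (N : ℝ) ^ (γ / 2) := by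
      have h3 : ((N ^ K : ℕ) : ℝ) = (N : ℝ) ^ (K : ℝ) := by
        push_cast
        rw [Real.rpow_natCast]
      rw [h3, ← Real.rpow_mul hN0.le, ← Real.rpow_natCast, ← Real.rpow_mul hN0.le]
      apply Real.rpow_le_rpow_of_exponent_le hN1
      have hK0 : (0 : ℝ) ≤ K := Nat.cast_nonneg K
      push_cast
      rw [mul_div_assoc', div_mul_eq_mul_div, div_le_div_iff₀ (by positivity) (by norm_num)]
      nlinarith
    have e6 : (m : ℝ) ^ (γ / 2) ≤ (N : ℝ) ^ (γ / 2) :=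
      Real.rpow_le_rpow hm0.le hmN (by positivity)
    calc (C1 ^ 2) ^ m.primeFactors.card *
          (((N ^ K : ℕ) : ℝ) ^ (γ / (4 * ((K : ℝ) + 1)))) ^ 2
        ≤ (C2 * (N : ℝ) ^ (γ / 2)) * (N : ℝ) ^ (γ / 2) := by
          refine mul_le_mul (e2.trans (mul_le_mul_of_nonneg_left e6 (by linarith))) e5
            (by positivity) (by positivity)
      _ = C2 * (N : ℝ) ^ γ := by
          rw [mul_assoc, ← Real.rpow_add hN0]
          congr 2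
          ring
  calc ∑ m ∈ Icc 1 M, (((Icc 1 (N ^ K)).filter (fun s => rad s ∣ m)).card : ℝ) ^ 2
      ≤ ∑ m ∈ Icc 1 M, C2 * (N : ℝ) ^ γ := Finset.sum_le_sum hterm
    _ = C2 * M * (N : ℝ) ^ γ := by
      rw [Finset.sum_const, Nat.card_Icc, nsmul_eq_mul, Nat.add_sub_cancel]
      ring

end Pool.Agent.H374R2.Z.Q4
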