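import Mathlib
import Pool.Agent.H374R2.W.CR
import Pool.Agent.H374R2.Z.Defs2
import Pool.Agent.H374R2.Z.CL
import Pool.Agent.H374R2.Z.L
import Pool.Agent.H374R2.Z.RF
import Pool.Agent.H374R2.Z.UPT

/-!
Task Q5: the number of bases of powers in triples of the `p`-adic kind.
-/

set_option autoImplicit false

namespace Pool.Agent.H374R2.Z.Q5

open Finset Pool.Agent.H374R2.Z

/-- `rad` of a divisor -/
theorem rad_dvd_rad {s m : ℕ} (hm : m ≠ 0) (h : s ∣ m) : rad s ∣ rad m := by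
  unfold rad
  exact Finset.prod_dvd_prod_of_subset _ _ _ (Nat.primeFactors_mono h hm)

theorem mem_dataQ {q M s t : ℕ} (hq : 0 < q) (hs : 0 < s) (ht : 0 < t) (h : rad (s * t) ≤ M) :
    (lo q s, lo q t) ∈ dataQ M (q - 1) := by
  have hst : s * t ≠ 0 := (Nat.mul_pos hs ht).ne'
  have hr0 : 0 < rad (s * t) := RF.rad_facts.1 _
  have hne : rad (s * t) ^ (q - 1) ≠ 0 := (pow_pos hr0 _).ne'
  unfold dataQ
  rw [mem_biUnion]
  refine ⟨rad (s * t), ?_, ?_⟩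
  · rw [mem_filter, mem_Icc]
    exact ⟨⟨hr0, h⟩, RF.rad_facts.2.2.1 _⟩
  · rw [mem_product, Nat.mem_divisors, Nat.mem_divisors]
    refine ⟨⟨?_, hne⟩, ⟨?_, hne⟩⟩
    · exact (L.lo_hi hq hs).2.2.2.trans (pow_dvd_pow_of_dvd (rad_dvd_rad hst ⟨t, rfl⟩) _)
    · exact (L.lo_hi hq ht).2.2.2.trans (pow_dvd_pow_of_dvd (rad_dvd_rad hst ⟨s, mul_comm s t⟩) _)

/-- Task Q5 (p-adic kind; from CL, L, RF). -/
theorem setQP_card {κ : ℝ} {q p M N : ℕ} {σ : ℤ} (hκ0 : 0 < κ) (hκ1 : κ ≤ 1)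
    (hq : IsPrimePow q) (hqκ : 100 / κ ^ 2 ≤ q) (hp : p.Prime) (hpq : ¬ p ∣ q)
    (hσ : σ = 1 ∨ σ = -1) :
    (SetQP κ q p M N σ).Finite ∧ (SetQP κ q p M N σ).ncard ≤ q * (dataQ M (q - 1)).card := by
  classical
  have hq0 : 0 < q := hq.pos
  have hfin : (SetQP κ q p M N σ).Finite :=
    (Set.finite_Icc 0 N).subset (fun B hB => ⟨Nat.zero_le _, hB.2.1⟩)
  refine ⟨hfin, ?_⟩
  have hch : ∀ B : ℕ, ∃ w : ℕ × ℕ × ℕ, B ∈ SetQP κ q p M N σ →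
      0 < w.1 ∧ PairP κ q p σ w.2.1 w.2.2 (B ^ w.1) ∧ rad (w.2.1 * w.2.2) ≤ M := by
    intro B
    by_cases h : B ∈ SetQP κ q p M N σ
    · obtain ⟨h1, h2, h3, y, s, t, h4, h5, h6⟩ := h
      exact ⟨(y, s, t), fun _ => ⟨h4, h5, h6⟩⟩
    · exact ⟨(0, 0, 0), fun h' => absurd h' h⟩
  choose w hw using hch
  rw [Set.ncard_eq_toFinset_card _ hfin]
  refine Finset.card_le_mul_card_image_of_maps_to
    (f := fun B => (lo q (w B).2.1, lo q (w B).2.2)) ?_ q ?_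
  · intro B hB
    rw [Set.Finite.mem_toFinset] at hB
    obtain ⟨h1, h2, h3⟩ := hw B hB
    exact mem_dataQ hq0 h2.s0 h2.t0 h3
  · rintro ⟨d, e⟩ _
    obtain ⟨hf, hc⟩ := CL.class_card (@L.lo_hi) (@UPT.unique_pt) (d := d) (e := e) hκ0 hκ1 hq hqκ
      hp hpq hσ
    refine le_trans ?_ hc
    rw [← Set.ncard_coe_finset]
    refine Set.ncard_le_ncard_of_injOn (fun B => ((w B).2.1, (w B).2.2)) ?_ ?_ hf
    · intro B hB
      rw [Finset.mem_coe, mem_filter, Set.Finite.mem_toFinset] at hB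
      obtain ⟨h1, h2⟩ := hB
      obtain ⟨h3, h4, h5⟩ := hw B h1
      refine ⟨⟨_, h4⟩, congrArg Prod.fst h2, congrArg Prod.snd h2⟩
    · intro B hB B' hB' heq
      rw [Finset.mem_coe, mem_filter, Set.Finite.mem_toFinset] at hB hB'
      obtain ⟨h3, h4, h5⟩ := hw B hB.1
      obtain ⟨h3', h4', h5'⟩ := hw B' hB'.1
      have e1 : (w B).2.1 = (w B').2.1 := congrArg Prod.fst heq
      have e2 : (w B).2.2 = (w B').2.2 := congrArg Prod.snd heq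
      have e3 := h4.eq
      rw [e1, e2, h4'.eq] at e3
      have e4 : B' ^ (w B').1 = B ^ (w B).1 := by exact_mod_cast e3
      exact W.CR.eq_of_pow_eq hB.1.1 hB'.1.1 h3 h3' hB.1.2.2.1 hB'.1.2.2.1 e4.symm

end Pool.Agent.H374R2.Z.Q5
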