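import Pool.Agent.H374R2.Z.Defs2
import Pool.Agent.H374R2.Z.L
import Pool.Agent.H374R2.Z.RF
import Pool.Agent.H374R2.T.Count

/-!
# Z, task Q6: triples of the real kind
-/

namespace Pool.Agent.H374R2.Z.Q6

open Finset Pool.Agent.H374R2.Z

/-- The two `q`-free parts belong to the data. -/
theorem mem_dataQ {q s t M : ℕ} (hq : 0 < q) (hs : 0 < s) (ht : 0 < t) (hco : Nat.Coprime s t)
    (hM : rad (s * t) ≤ M) : (lo q s, lo q t) ∈ dataQ M (q - 1) := by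
  obtain ⟨r1, -, r3, -, r5, -⟩ := Pool.Agent.H374R2.Z.RF.rad_facts
  have hrad : rad (s * t) = rad s * rad t := r5 s t hs.ne' ht.ne' hco
  have hls := (Pool.Agent.H374R2.Z.L.lo_hi (q := q) hq hs).2.2.2
  have hlt := (Pool.Agent.H374R2.Z.L.lo_hi (q := q) hq ht).2.2.2
  have hne : rad (s * t) ^ (q - 1) ≠ 0 := (pow_pos (r1 _) _).ne'
  unfold dataQ
  rw [mem_biUnion]
  refine ⟨rad (s * t), ?_, ?_⟩
  · rw [mem_filter, mem_Icc]
    exact ⟨⟨r1 _, hM⟩, r3 _⟩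
  · rw [mem_product, Nat.mem_divisors, Nat.mem_divisors]
    exact ⟨⟨hls.trans (pow_dvd_pow_of_dvd (hrad ▸ Dvd.intro _ rfl) _), hne⟩,
      ⟨hlt.trans (pow_dvd_pow_of_dvd (hrad ▸ Dvd.intro_left _ rfl) _), hne⟩⟩

/-- Task Q6 (real kind; from URT, L, RF). -/
theorem setQR_card
    (hURT : ∀ {κ : ℝ} {q s t T s' t' T' : ℕ}, 0 < κ → κ ≤ 1 → IsPrimePow q → 100 / κ ^ 2 ≤ q →
      PairR κ q s t T → PairR κ q s' t' T' → lo q s = lo q s' → lo q t = lo q t' →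
      s = s' ∧ t = t')
    {κ : ℝ} {q M N : ℕ} (hκ0 : 0 < κ) (hκ1 : κ ≤ 1)
    (hq : IsPrimePow q) (hqκ : 100 / κ ^ 2 ≤ q) :
    (SetQR κ q M N).Finite ∧ (SetQR κ q M N).ncard ≤ (dataQ M (q - 1)).card := by
  classical
  have hq0 : 0 < q := hq.pos
  have hch : ∀ B : ℕ, ∃ w : ℕ × ℕ × ℕ, B ∈ SetQR κ q M N →
      0 < w.1 ∧ PairR κ q w.2.1 w.2.2 (B ^ w.1) ∧ rad (w.2.1 * w.2.2) ≤ M := by
    intro B
    by_cases hB : B ∈ SetQR κ q M N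
    · obtain ⟨y, s, t, h1, h2, h3⟩ := hB.2.2.2
      exact ⟨(y, s, t), fun _ => ⟨h1, h2, h3⟩⟩
    · exact ⟨(0, 0, 0), fun h => absurd h hB⟩
  choose w hw using hch
  have hmaps : ∀ B ∈ SetQR κ q M N, (lo q (w B).2.1, lo q (w B).2.2) ∈
      ((dataQ M (q - 1) : Finset (ℕ × ℕ)) : Set (ℕ × ℕ)) := by
    intro B hB
    obtain ⟨-, h2, h3⟩ := hw B hB
    have ht : 0 < (w B).2.2 := by
      rw [← h2.eq]
      exact Nat.add_pos_left h2.s0 _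
    exact mem_dataQ hq0 h2.s0 ht h2.co h3
  have hinj : Set.InjOn (fun B => (lo q (w B).2.1, lo q (w B).2.2)) (SetQR κ q M N) := by
    intro B hB B' hB' he
    obtain ⟨h1, h2, -⟩ := hw B hB
    obtain ⟨h1', h2', -⟩ := hw B' hB'
    simp only [Prod.mk.injEq] at he
    obtain ⟨e1, e2⟩ := hURT hκ0 hκ1 hq hqκ h2 h2' he.1 he.2
    have e3 := h2.eq
    have e4 := h2'.eq
    rw [← e1, ← e2, ← e3] at e4
    exact Pool.Agent.H374R2.T.eq_of_pow_eq hB.1 hB'.1 h1 h1' hB.2.2.1 hB'.2.2.1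
      (Nat.add_left_cancel e4).symm
  refine ⟨Set.Finite.of_injOn hmaps hinj (finite_toSet _), ?_⟩
  rw [← Set.ncard_coe_finset]
  exact Set.ncard_le_ncard_of_injOn _ hmaps hinj (finite_toSet _)

end Pool.Agent.H374R2.Z.Q6
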