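import Mathlib
import Pool.Agent.H374R2.W.Glue
import Pool.Agent.H374R2.T.TaskD2
import Pool.Agent.H374R2.Z.Defs2

/-!
Task QM: powers as terms of abc triples, assembly.
-/

set_option autoImplicit false

namespace Pool.Agent.H374R2.Z.QM

open Finset Filter Topology

theorem cover {ι : Type*} {K : ℕ} (J : Finset ι) (S : ι → Set ℕ)
    (hS : ∀ j ∈ J, (S j).Finite ∧ (S j).ncard ≤ K) (P : Set ℕ) (hP : ∀ b ∈ P, ∃ j ∈ J, b ∈ S j) :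
    P.Finite ∧ P.ncard ≤ J.card * K := by
  classical
  let F : ι → Finset ℕ := fun j => if h : (S j).Finite then h.toFinset else ∅
  have hF : ∀ j ∈ J, (F j).card ≤ K := by
    intro j hj
    simp only [F]
    rw [dif_pos (hS j hj).1, ← Set.ncard_eq_toFinset_card _ (hS j hj).1]
    exact (hS j hj).2
  have hsub : P ⊆ ((J.biUnion F : Finset ℕ) : Set ℕ) := by
    intro b hb
    obtain ⟨j, hj, hbj⟩ := hP b hb
    rw [Finset.mem_coe, Finset.mem_biUnion]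
    refine ⟨j, hj, ?_⟩
    simp only [F]
    rw [dif_pos (hS j hj).1, Set.Finite.mem_toFinset]
    exact hbj
  refine ⟨(Finset.finite_toSet _).subset hsub, ?_⟩
  calc P.ncard ≤ ((J.biUnion F : Finset ℕ) : Set ℕ).ncard :=
        Set.ncard_le_ncard hsub (Finset.finite_toSet _)
    _ = (J.biUnion F).card := Set.ncard_coe_finset _
    _ ≤ ∑ j ∈ J, (F j).card := Finset.card_biUnion_le
    _ ≤ ∑ _j ∈ J, K := Finset.sum_le_sum hF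
    _ = J.card * K := by rw [Finset.sum_const, smul_eq_mul]

/-- the set in question -/
def SS (N : ℕ) (ε : ℝ) : Set ℕ :=
  {B : ℕ | 0 < B ∧ B ≤ N ∧ ∃ y s t : ℕ, 0 < y ∧ 0 < s ∧ 0 < t ∧ Nat.Coprime s t ∧
      (s + t = B ^ y ∨ s + B ^ y = t) ∧ (rad (s * t) : ℝ) ≤ (N : ℝ) ^ (1 - ε)}

/-- a solution of small height -/
def SSm (σ : ℤ) (w : ℕ × ℕ) : Set ℕ :=
  {B : ℕ | 0 < B ∧ (¬ ∃ w k : ℕ, 2 ≤ k ∧ B = w ^ k) ∧ ∃ y : ℕ, 0 < y ∧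
    (w.2 : ℤ) - σ * w.1 = (B : ℤ) ^ y}

theorem ssm_card (σ : ℤ) (w : ℕ × ℕ) : (SSm σ w).Finite ∧ (SSm σ w).ncard ≤ 1 := by
  have hsub : (SSm σ w).Subsingleton := by
    rintro B ⟨hB, hBp, y, hy, h⟩ B' ⟨hB', hBp', y', hy', h'⟩
    apply W.CR.eq_of_pow_eq hB hB' hy hy' hBp hBp'
    have : (B : ℤ) ^ y = (B' : ℤ) ^ y' := by rw [← h, ← h']
    exact_mod_cast this
  exact ⟨hsub.finite, (Set.ncard_le_one hsub.finite).mpr fun a ha b hb => hsub ha hb⟩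

/-- Task QM (from Q3, Q4, Q5, Q6, Q7, `W.prime_between`, `T.TaskD2.perfect_powers`). -/
theorem powers
    (hQ3 : ∀ (E : ℕ) {γ : ℝ} (_ : 0 < γ), ∃ C : ℝ, 1 ≤ C ∧ ∀ M : ℕ, 1 ≤ M →
      ((dataQ M E).card : ℝ) ≤ C * (M : ℝ) ^ (1 + γ))
    (hQ4 : ∀ (K : ℕ) {γ : ℝ} (_ : 0 < γ), ∃ C : ℝ, 1 ≤ C ∧ ∀ N M : ℕ, 1 ≤ N → 1 ≤ M →
      M ≤ N → (((Icc 1 (N ^ K) ×ˢ Icc 1 (N ^ K)).filter
        (fun w : ℕ × ℕ => w.1.Coprime w.2 ∧ rad (w.1 * w.2) ≤ M)).card : ℝ) ≤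
        C * M * (N : ℝ) ^ γ)
    (hQ5 : ∀ {κ : ℝ} {q p M N : ℕ} {σ : ℤ} (_ : 0 < κ) (_ : κ ≤ 1)
      (_ : IsPrimePow q) (_ : 100 / κ ^ 2 ≤ q) (_ : p.Prime) (_ : ¬ p ∣ q)
      (_ : σ = 1 ∨ σ = -1),
      (SetQP κ q p M N σ).Finite ∧ (SetQP κ q p M N σ).ncard ≤ q * (dataQ M (q - 1)).card)
    (hQ6 : ∀ {κ : ℝ} {q M N : ℕ} (_ : 0 < κ) (_ : κ ≤ 1)
      (_ : IsPrimePow q) (_ : 100 / κ ^ 2 ≤ q),
      (SetQR κ q M N).Finite ∧ (SetQR κ q M N).ncard ≤ (dataQ M (q - 1)).card)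
    (hQ7 : ∀ {κ₁ : ℝ} {q : ℕ} (_ : 0 < κ₁) (_ : κ₁ ≤ 1) (_ : 2 ≤ q), ∃ N₀ : ℕ,
      ∀ N p B y s t : ℕ, ∀ σ : ℤ, N₀ ≤ N → p.Prime → (N : ℝ) ^ κ₁ < p → p ∣ B → 0 < B → B ≤ N →
      0 < y → 0 < s → 0 < t → Nat.Coprime s t → σ = 1 ∨ σ = -1 → (t : ℤ) - σ * s = (B : ℤ) ^ y →
      rad (s * t) ≤ N → N ^ (q ^ 2) ≤ max s t →
      PairP (κ₁ / 4) q p σ s t (B ^ y) ∨ (σ = 1 ∧ PairR (κ₁ / 4) q s t (B ^ y))) :
    ∀ ε : ℝ, 0 < ε → ∃ N₀ : ℕ, ∀ N : ℕ, N₀ ≤ N →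
    (({B : ℕ | 0 < B ∧ B ≤ N ∧ ∃ y s t : ℕ, 0 < y ∧ 0 < s ∧ 0 < t ∧ Nat.Coprime s t ∧
      (s + t = B ^ y ∨ s + B ^ y = t) ∧ (rad (s * t) : ℝ) ≤ (N : ℝ) ^ (1 - ε)}.ncard : ℕ) : ℝ) ≤
      ε * N := by
  classical
  intro ε hε
  rcases lt_or_ge ε 1 with hε1 | hε1
  swap
  · refine ⟨0, fun N _ => ?_⟩
    have h1 : SS N ε ⊆ ((Finset.Icc 1 N : Finset ℕ) : Set ℕ) := by
      intro B hB
      rw [Finset.coe_Icc]
      exact ⟨hB.1, hB.2.1⟩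
    have h2 := Set.ncard_le_ncard h1 (Finset.finite_toSet _)
    rw [Set.ncard_coe_finset, Nat.card_Icc, Nat.add_sub_cancel] at h2
    have h3 : ((SS N ε).ncard : ℝ) ≤ N := by exact_mod_cast h2
    have h4 : (0 : ℝ) ≤ N := Nat.cast_nonneg N
    calc ((SS N ε).ncard : ℝ) ≤ N := h3
      _ ≤ ε * N := by nlinarith
  obtain ⟨κ₁, hκ0, hκθ, N₁, hN₁⟩ := W.prime_between (ε := ε / 8) (θ := ε / 4) (by positivity)
    (by positivity) (by linarith)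
  obtain ⟨N₂, hN₂⟩ := T.TaskD2.perfect_powers (ε := ε / 8) (by positivity)
  have hκ1 : κ₁ ≤ 1 := by linarith
  have hκ4 : 0 < κ₁ / 4 := by positivity
  have hκ4' : κ₁ / 4 ≤ 1 := by linarith
  obtain ⟨k, hk⟩ := pow_unbounded_of_one_lt (100 / (κ₁ / 4) ^ 2) (by norm_num : (1 : ℝ) < 2)
  set q : ℕ := 2 ^ (k + 1) with hq
  have hqR : 100 / (κ₁ / 4) ^ 2 ≤ (q : ℝ) := by
    rw [hq]
    push_cast
    have : (2 : ℝ) ^ k ≤ 2 ^ (k + 1) := pow_le_pow_right₀ (by norm_num) (by omega)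
    linarith
  have hqp : IsPrimePow q := ⟨2, k + 1, Nat.prime_two.prime, by omega, rfl⟩
  have hq2 : 2 ≤ q := by
    calc 2 = 2 ^ 1 := rfl
      _ ≤ 2 ^ (k + 1) := Nat.pow_le_pow_right (by norm_num) (by omega)
  obtain ⟨C3, hC3, h3⟩ := hQ3 (q - 1) (show 0 < ε / 4 by positivity)
  obtain ⟨C4, hC4, h4⟩ := hQ4 (q ^ 2) (show 0 < ε / 4 by positivity)
  obtain ⟨N₇, h7⟩ := hQ7 hκ0 hκ1 hq2
  have ht1 : Tendsto (fun N : ℕ => (N : ℝ) ^ κ₁) atTop atTop :=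
    (tendsto_rpow_atTop hκ0).comp tendsto_natCast_atTop_atTop
  have ht2 : Tendsto (fun N : ℕ => (N : ℝ) ^ (ε / 2)) atTop atTop :=
    (tendsto_rpow_atTop (by positivity)).comp tendsto_natCast_atTop_atTop
  obtain ⟨N₆, hN₆⟩ := eventually_atTop.mp ((ht1.eventually_ge_atTop 2).and
    ((ht2.eventually_ge_atTop ((2 * q * C3 + C3 + 2 * C4) / (ε / 4))).and
      (eventually_ge_atTop 2)))
  refine ⟨max N₁ (max N₂ (max N₇ N₆)), fun N hN => ?_⟩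
  simp only [max_le_iff] at hN
  obtain ⟨g1, g2, g7, g6⟩ := hN
  obtain ⟨b1, b2, b3⟩ := hN₆ N g6
  have hNpos : 0 < N := by omega
  have hNR : (0 : ℝ) < N := by exact_mod_cast hNpos
  have hN1 : (1 : ℝ) ≤ N := by exact_mod_cast hNpos
  set M : ℕ := ⌊(N : ℝ) ^ (1 - ε)⌋₊ with hM
  have hMle : (M : ℝ) ≤ (N : ℝ) ^ (1 - ε) := Nat.floor_le (Real.rpow_nonneg hNR.le _)
  have hM1 : 1 ≤ M := by
    apply Nat.le_floor
    push_cast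
    exact Real.one_le_rpow hN1 (by linarith)
  have hMN : M ≤ N := by
    have : (M : ℝ) ≤ N := by
      calc (M : ℝ) ≤ (N : ℝ) ^ (1 - ε) := hMle
        _ ≤ (N : ℝ) ^ (1 : ℝ) := Real.rpow_le_rpow_of_exponent_le hN1 (by linarith)
        _ = N := Real.rpow_one _
    exact_mod_cast this
  set P : ℕ := ⌊(N : ℝ) ^ (ε / 4)⌋₊ with hP
  have hPle : (P : ℝ) ≤ (N : ℝ) ^ (ε / 4) := Nat.floor_le (Real.rpow_nonneg hNR.le _)
  set D : ℕ := (dataQ M (q - 1)).card with hD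
  have hDle : (D : ℝ) ≤ C3 * (N : ℝ) ^ (1 - 3 * ε / 4) := by
    refine (h3 M hM1).trans ?_
    apply mul_le_mul_of_nonneg_left _ (by linarith)
    calc (M : ℝ) ^ (1 + ε / 4) ≤ ((N : ℝ) ^ (1 - ε)) ^ (1 + ε / 4) :=
          Real.rpow_le_rpow (by positivity) hMle (by positivity)
      _ = (N : ℝ) ^ ((1 - ε) * (1 + ε / 4)) := by rw [← Real.rpow_mul hNR.le]
      _ ≤ (N : ℝ) ^ (1 - 3 * ε / 4) := by
          apply Real.rpow_le_rpow_of_exponent_le hN1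
          nlinarith
  -- the pieces
  set T1 : Set ℕ := {B : ℕ | 0 < B ∧ B ≤ N ∧ ∀ p : ℕ, p.Prime → (N : ℝ) ^ κ₁ < p →
    (p : ℝ) ≤ (N : ℝ) ^ (ε / 4) → ¬ p ∣ B} with hT1
  set T2 : Set ℕ := {B : ℕ | 0 < B ∧ B ≤ N ∧ ∃ w k : ℕ, 2 ≤ k ∧ B = w ^ k} with hT2
  have k1 : (T1.ncard : ℝ) ≤ ε / 8 * N := hN₁ N g1
  have k2 : (T2.ncard : ℝ) ≤ ε / 8 * N := hN₂ N g2
  have hT1f : T1.Finite := (Set.finite_Icc 0 N).subset fun B hB => ⟨Nat.zero_le _, hB.2.1⟩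
  have hT2f : T2.Finite := (Set.finite_Icc 0 N).subset fun B hB => ⟨Nat.zero_le _, hB.2.1⟩
  set Sg : Finset ℤ := {1, -1} with hSg
  have hSgc : Sg.card = 2 := by rw [hSg]; rfl
  -- p-adic kind
  set J3 : Finset (ℕ × ℤ) := ((Finset.Icc 1 P).filter (fun p => p.Prime ∧ ¬ p ∣ q)) ×ˢ Sg with hJ3
  set U3 : Set ℕ := {B | ∃ j ∈ J3, B ∈ SetQP (κ₁ / 4) q j.1 M N j.2} with hU3
  have k3 := cover (K := q * D) J3 (fun j => SetQP (κ₁ / 4) q j.1 M N j.2) (by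
    rintro ⟨p, σ⟩ hj
    rw [hJ3, Finset.mem_product, Finset.mem_filter] at hj
    obtain ⟨⟨_, hp, hpq⟩, hσ⟩ := hj
    have hσ' : σ = 1 ∨ σ = -1 := by simpa [hSg] using hσ
    exact hQ5 hκ4 hκ4' hqp hqR hp hpq hσ') U3 (fun b hb => hb)
  have hJ3c : J3.card ≤ P * 2 := by
    rw [hJ3, Finset.card_product, hSgc]
    apply Nat.mul_le_mul_right
    refine (Finset.card_filter_le _ _).trans ?_
    rw [Nat.card_Icc]; omega
  -- real kind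
  obtain ⟨k4f, k4⟩ := hQ6 (κ := κ₁ / 4) (q := q) (M := M) (N := N) hκ4 hκ4' hqp hqR
  set U4 : Set ℕ := SetQR (κ₁ / 4) q M N with hU4
  -- small solutions
  set W5 : Finset (ℕ × ℕ) := (Icc 1 (N ^ (q ^ 2)) ×ˢ Icc 1 (N ^ (q ^ 2))).filter
    (fun w : ℕ × ℕ => w.1.Coprime w.2 ∧ rad (w.1 * w.2) ≤ M) with hW5
  have hW5c : (W5.card : ℝ) ≤ C4 * M * (N : ℝ) ^ (ε / 4) := h4 N M hNpos hM1 hMN
  set J5 : Finset ((ℕ × ℕ) × ℤ) := W5 ×ˢ Sg with hJ5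
  set U5 : Set ℕ := {B | ∃ j ∈ J5, B ∈ SSm j.2 j.1} with hU5
  have k5 := cover (K := 1) J5 (fun j => SSm j.2 j.1) (fun j _ => ssm_card j.2 j.1) U5
    (fun b hb => hb)
  have hJ5c : J5.card = W5.card * 2 := by
    rw [hJ5, Finset.card_product, hSgc]
  -- the covering
  have hsub : SS N ε ⊆ T1 ∪ (T2 ∪ (U3 ∪ (U4 ∪ U5))) := by
    rintro B ⟨hB0, hBN, y, s, t, hy, hs, ht, hco, heq, hrad⟩
    by_cases hB1 : B ∈ T1
    · exact Or.inl hB1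
    by_cases hB2 : B ∈ T2
    · exact Or.inr (Or.inl hB2)
    right; right
    have hnp : ¬ ∃ w k : ℕ, 2 ≤ k ∧ B = w ^ k := fun h => hB2 ⟨hB0, hBN, h⟩
    obtain ⟨p, hp, hpl, hpu, hpB⟩ : ∃ p : ℕ, p.Prime ∧ (N : ℝ) ^ κ₁ < p ∧
        (p : ℝ) ≤ (N : ℝ) ^ (ε / 4) ∧ p ∣ B := by
      by_contra hn
      apply hB1
      exact ⟨hB0, hBN, fun p hp hpl hpu hpB => hn ⟨p, hp, hpl, hpu, hpB⟩⟩
    have hradM : rad (s * t) ≤ M := Nat.le_floor hrad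
    obtain ⟨σ, hσ, heq'⟩ : ∃ σ : ℤ, (σ = 1 ∨ σ = -1) ∧ (t : ℤ) - σ * s = (B : ℤ) ^ y := by
      rcases heq with h | h
      · refine ⟨-1, Or.inr rfl, ?_⟩
        have h' : (s : ℤ) + t = (B : ℤ) ^ y := by exact_mod_cast h
        linarith
      · refine ⟨1, Or.inl rfl, ?_⟩
        have h' : (s : ℤ) + (B : ℤ) ^ y = t := by exact_mod_cast h
        linarith
    have hσS : σ ∈ Sg := by rw [hSg]; simpa using hσ
    by_cases hbig : N ^ (q ^ 2) ≤ max s t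
    · rcases h7 N p B y s t σ g7 hp hpl hpB hB0 hBN hy hs ht hco hσ heq' (hradM.trans hMN) hbig
        with h | ⟨_, h⟩
      · left
        refine ⟨(p, σ), ?_, hB0, hBN, hnp, y, s, t, hy, h, hradM⟩
        rw [hJ3, Finset.mem_product, Finset.mem_filter, Finset.mem_Icc]
        refine ⟨⟨⟨hp.one_lt.le, Nat.le_floor hpu⟩, hp, ?_⟩, hσS⟩
        intro hdvd
        have h2 : p ∣ 2 := hp.dvd_of_dvd_pow hdvd
        have h3 : p ≤ 2 := Nat.le_of_dvd (by norm_num) h2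
        have h4 : (p : ℝ) ≤ 2 := by exact_mod_cast h3
        linarith
      · right; left
        exact ⟨hB0, hBN, hnp, y, s, t, hy, h, hradM⟩
    · right; right
      rw [not_le, max_lt_iff] at hbig
      refine ⟨((s, t), σ), ?_, hB0, hnp, y, hy, heq'⟩
      rw [hJ5, Finset.mem_product]
      refine ⟨?_, hσS⟩
      rw [hW5, Finset.mem_filter, Finset.mem_product, Finset.mem_Icc, Finset.mem_Icc]
      exact ⟨⟨⟨hs, hbig.1.le⟩, ⟨ht, hbig.2.le⟩⟩, hco, hradM⟩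
  have hfin : (T1 ∪ (T2 ∪ (U3 ∪ (U4 ∪ U5)))).Finite :=
    hT1f.union (hT2f.union (k3.1.union (k4f.union k5.1)))
  have c1 := Set.ncard_le_ncard hsub hfin
  have c2 := Set.ncard_union_le T1 (T2 ∪ (U3 ∪ (U4 ∪ U5)))
  have c3 := Set.ncard_union_le T2 (U3 ∪ (U4 ∪ U5))
  have c4 := Set.ncard_union_le U3 (U4 ∪ U5)
  have c5 := Set.ncard_union_le U4 U5
  have c6 : (SS N ε).ncard ≤ T1.ncard + T2.ncard + (P * 2) * (q * D) + D + W5.card * 2 * 1 := by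
    have e1 : J3.card * (q * D) ≤ (P * 2) * (q * D) := Nat.mul_le_mul_right _ hJ3c
    have e2 := k3.2
    have e3 := k5.2
    rw [hJ5c] at e3
    omega
  have c7 : ((SS N ε).ncard : ℝ) ≤ T1.ncard + T2.ncard + (P * 2) * (q * D) + D +
      W5.card * 2 * 1 := by exact_mod_cast c6
  set X : ℝ := (N : ℝ) ^ (1 - ε / 2) with hX
  have hXpos : 0 < X := Real.rpow_pos_of_pos hNR _
  have d1 : (P : ℝ) * 2 * (q * D) ≤ 2 * q * C3 * X := by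
    have e1 : (P : ℝ) * D ≤ (N : ℝ) ^ (ε / 4) * (C3 * (N : ℝ) ^ (1 - 3 * ε / 4)) :=
      mul_le_mul hPle hDle (by positivity) (by positivity)
    have e2 : (N : ℝ) ^ (ε / 4) * (C3 * (N : ℝ) ^ (1 - 3 * ε / 4)) = C3 * X := by
      rw [hX]
      calc (N : ℝ) ^ (ε / 4) * (C3 * (N : ℝ) ^ (1 - 3 * ε / 4)) =
          C3 * ((N : ℝ) ^ (ε / 4) * (N : ℝ) ^ (1 - 3 * ε / 4)) := by ring
        _ = _ := by
          rw [← Real.rpow_add hNR]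
          congr 2
          ring
    rw [e2] at e1
    calc (P : ℝ) * 2 * (q * D) = 2 * q * (P * D) := by ring
      _ ≤ 2 * q * (C3 * X) := mul_le_mul_of_nonneg_left e1 (by positivity)
      _ = _ := by ring
  have hle1 : (N : ℝ) ^ (1 - 3 * ε / 4) ≤ X :=
    Real.rpow_le_rpow_of_exponent_le hN1 (by linarith)
  have d2 : (D : ℝ) ≤ C3 * X := hDle.trans (mul_le_mul_of_nonneg_left hle1 (by linarith))
  have d3 : (W5.card : ℝ) * 2 * 1 ≤ 2 * C4 * X := by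
    have e1 : (M : ℝ) * (N : ℝ) ^ (ε / 4) ≤ X := by
      calc (M : ℝ) * (N : ℝ) ^ (ε / 4) ≤ (N : ℝ) ^ (1 - ε) * (N : ℝ) ^ (ε / 4) :=
            mul_le_mul_of_nonneg_right hMle (by positivity)
        _ = (N : ℝ) ^ (1 - 3 * ε / 4) := by
            rw [← Real.rpow_add hNR]; congr 1; ring
        _ ≤ X := hle1
    calc (W5.card : ℝ) * 2 * 1 = 2 * W5.card := by ring
      _ ≤ 2 * (C4 * M * (N : ℝ) ^ (ε / 4)) := mul_le_mul_of_nonneg_left hW5c (by norm_num)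
      _ = 2 * C4 * (M * (N : ℝ) ^ (ε / 4)) := by ring
      _ ≤ 2 * C4 * X := mul_le_mul_of_nonneg_left e1 (by linarith)
  have d4 : (2 * q * C3 + C3 + 2 * C4) * X ≤ ε / 4 * N := by
    rw [div_le_iff₀ (by positivity)] at b2
    have e1 : (N : ℝ) ^ (ε / 2) * X = N := by
      rw [hX, ← Real.rpow_add hNR]
      have : ε / 2 + (1 - ε / 2) = 1 := by ring
      rw [this, Real.rpow_one]
    calc (2 * q * C3 + C3 + 2 * C4) * X ≤ ((N : ℝ) ^ (ε / 2) * (ε / 4)) * X :=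
          mul_le_mul_of_nonneg_right b2 hXpos.le
      _ = ε / 4 * ((N : ℝ) ^ (ε / 2) * X) := by ring
      _ = ε / 4 * N := by rw [e1]
  have hεN : 0 ≤ ε * N := by positivity
  calc ((SS N ε).ncard : ℝ) ≤ _ := c7
    _ ≤ ε / 8 * N + ε / 8 * N + 2 * q * C3 * X + C3 * X + 2 * C4 * X := by linarith
    _ = ε / 4 * N + (2 * q * C3 + C3 + 2 * C4) * X := by ring
    _ ≤ ε / 4 * N + ε / 4 * N := by linarith
    _ ≤ ε * N := by linarith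

end Pool.Agent.H374R2.Z.QM
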