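import Mathlib
import Pool.Agent.H374R2.Z.Defs

/-! Task RO2: numbers `e ≤ X ^ (1/(5K))` have few prime factors. -/

set_option autoImplicit false

namespace Pool.Agent.H374R2.Z.RO2

open Finset

theorem aux_prod (S : Finset ℕ) : (∀ a ∈ S, 0 < a) → S.card.factorial ≤ ∏ a ∈ S, a := by
  induction S using Finset.induction_on_max with
  | empty => intro _; simp
  | insert a s hmax ih =>
    intro h
    have ha : a ∉ s := fun hh => lt_irrefl _ (hmax a hh)
    rw [Finset.card_insert_of_notMem ha, Finset.prod_insert ha, Nat.factorial_succ]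
    have h1 := ih (fun b hb => h b (Finset.mem_insert_of_mem hb))
    have h2 : s.card + 1 ≤ a := by
      have hsub : s ⊆ Finset.Ioo 0 a := by
        intro b hb
        rw [Finset.mem_Ioo]
        exact ⟨h b (Finset.mem_insert_of_mem hb), hmax b hb⟩
      have h3 := Finset.card_le_card hsub
      rw [Nat.card_Ioo] at h3
      have h4 := h a (Finset.mem_insert_self _ _)
      omega
    exact Nat.mul_le_mul h2 h1

theorem aux_fact {m : ℕ} (hm : 0 < m) : (m.primeFactors.card).factorial ≤ m := by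
  have h1 := aux_prod m.primeFactors (fun p hp => (Nat.prime_of_mem_primeFactors hp).pos)
  exact h1.trans (Nat.le_of_dvd hm (Nat.prod_primeFactors_dvd m))

theorem aux_log (w : ℕ) (hw : 0 < w) :
    (w : ℝ) * (Real.log w - 1) ≤ Real.log (w.factorial : ℝ) := by
  have hw' : (0 : ℝ) < w := by exact_mod_cast hw
  have hf : (0 : ℝ) < (w.factorial : ℝ) := by exact_mod_cast w.factorial_pos
  have h1 := Real.pow_div_factorial_le_exp (w : ℝ) hw'.le w
  have h2 := Real.log_le_log (by positivity) h1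
  rw [Real.log_exp, Real.log_div (by positivity) hf.ne', Real.log_pow] at h2
  linarith

theorem omega_small (K : ℕ) (hK : 1 ≤ K) : ∃ X₀ : ℕ, ∀ X a l e : ℕ, X₀ ≤ X →
    a = Nat.log 2 X → l = Nat.log 2 a + 1 → 0 < e → (e : ℝ) ≤ (X : ℝ) ^ (1 / (5 * (K : ℝ))) →
    2 * e.primeFactors.card ≤ a / (K * l) := by
  have hK' : (1 : ℝ) ≤ K := by exact_mod_cast hK
  set A₀ : ℕ := ⌈Real.exp (1 + 5 / 2 * Real.log (20 * K))⌉₊ with hA₀
  refine ⟨2 ^ (A₀ + 10), ?_⟩
  intro X a l e hX ha hl he heX
  by_contra hcon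
  rw [not_le] at hcon
  have hl0 : 0 < l := by omega
  have hKl : 0 < K * l := by positivity
  have hlt : a < 2 * e.primeFactors.card * (K * l) := (Nat.div_lt_iff_lt_mul hKl).1 hcon
  have hX0 : 0 < X := lt_of_lt_of_le (by positivity) hX
  have haA : A₀ + 10 ≤ a := by
    rw [ha]
    exact (Nat.le_log_iff_pow_le (by norm_num) hX0.ne').2 hX
  set w := e.primeFactors.card with hw
  have hw0 : 0 < w := by
    rcases Nat.eq_zero_or_pos w with h | h
    · rw [h] at hlt; simp at hlt
    · exact h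
  have ha10 : (10 : ℝ) ≤ a := by
    have : 10 ≤ a := by omega
    exact_mod_cast this
  have ha0 : (0 : ℝ) < a := by linarith
  have hl0' : (1 : ℝ) ≤ l := by exact_mod_cast hl0
  have hw0' : (1 : ℝ) ≤ w := by exact_mod_cast hw0
  have hL2 : 0.6931471803 < Real.log 2 := Real.log_two_gt_d9
  have hL2' : Real.log 2 < 0.6931471808 := Real.log_two_lt_d9
  -- the logarithm of `a`
  have hLa : 1 + 5 / 2 * Real.log (20 * K) ≤ Real.log a := by
    rw [Real.le_log_iff_exp_le ha0]
    have h1 : Real.exp (1 + 5 / 2 * Real.log (20 * K)) ≤ (A₀ : ℝ) := Nat.le_ceil _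
    have h2 : (A₀ : ℝ) ≤ a := by
      have : A₀ ≤ a := by omega
      exact_mod_cast this
    linarith
  have hl1 : (l : ℝ) * Real.log 2 ≤ Real.log a + Real.log 2 := by
    have h1 : 2 ^ (Nat.log 2 a) ≤ a := Nat.pow_log_le_self 2 (by omega)
    have h2 : ((2 : ℝ)) ^ (Nat.log 2 a) ≤ a := by exact_mod_cast h1
    have h3 := Real.log_le_log (by positivity) h2
    rw [Real.log_pow] at h3
    rw [hl]
    push_cast
    linarith
  have hlw : Real.log (2 * K * l) ≤ l / 10 + Real.log (20 * K) - 1 := by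
    have e1 : (2 : ℝ) * K * l = (l / 10) * (20 * K) := by ring
    rw [e1, Real.log_mul (by positivity) (by positivity)]
    have := Real.log_le_sub_one_of_pos (x := (l : ℝ) / 10) (by positivity)
    linarith
  have hwa : (a : ℝ) < 2 * K * l * w := by
    have : ((a : ℕ) : ℝ) < ((2 * w * (K * l) : ℕ) : ℝ) := by exact_mod_cast hlt
    push_cast at this
    linarith
  have hlogw : Real.log a - Real.log (2 * K * l) ≤ Real.log w := by
    have h1 := Real.log_le_log ha0 hwa.le
    rw [Real.log_mul (by positivity) (by positivity)] at h1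
    linarith
  have hlog20 : 0 ≤ Real.log (20 * K) := Real.log_nonneg (by linarith)
  -- the contradiction
  have hfac : (w.factorial : ℝ) ≤ e := by
    have := aux_fact he
    exact_mod_cast this
  have hf0 : (0 : ℝ) < (w.factorial : ℝ) := by exact_mod_cast w.factorial_pos
  have h1 : Real.log (w.factorial : ℝ) ≤ ((a : ℝ) + 1) * Real.log 2 / (5 * K) := by
    have hXlt : X < 2 ^ (a + 1) := by
      rw [ha]
      exact Nat.lt_pow_succ_log_self (by norm_num) X
    have hX' : (X : ℝ) ≤ 2 ^ (a + 1) := by exact_mod_cast hXlt.le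
    have hX0' : (0 : ℝ) < X := by exact_mod_cast hX0
    have h2 := Real.log_le_log hf0 (hfac.trans heX)
    rw [Real.log_rpow hX0'] at h2
    have h3 := Real.log_le_log hX0' hX'
    rw [Real.log_pow] at h3
    push_cast at h3
    have h4 : 1 / (5 * (K : ℝ)) * Real.log X ≤ 1 / (5 * (K : ℝ)) * (((a : ℝ) + 1) * Real.log 2) :=
      mul_le_mul_of_nonneg_left h3 (by positivity)
    have h5 : 1 / (5 * (K : ℝ)) * (((a : ℝ) + 1) * Real.log 2) =
      ((a : ℝ) + 1) * Real.log 2 / (5 * K) := by ring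
    linarith
  have h2 := aux_log w hw0
  have h3 : 2 / 5 * (1 + 1 / (a : ℝ)) * (l * Real.log 2) < Real.log w - 1 := by
    have h4 : 1 / (a : ℝ) ≤ 1 / 10 := one_div_le_one_div_of_le (by norm_num) ha10
    have h5 : 2 / 5 * (1 + 1 / (a : ℝ)) * (l * Real.log 2) ≤
        2 / 5 * (1 + 1 / 10) * (Real.log a + Real.log 2) := by
      apply mul_le_mul (by linarith) hl1 (by positivity) (by norm_num)
    have h6 : (l : ℝ) ≤ 3 / 2 * Real.log a + 1 := by
      have h7 : (l - 1 : ℝ) * Real.log 2 ≤ Real.log a := by linarith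
      have h8 : (l - 1 : ℝ) * (2 / 3) ≤ (l - 1 : ℝ) * Real.log 2 :=
        mul_le_mul_of_nonneg_left (by linarith) (by linarith)
      linarith
    linarith
  have h4 : ((a : ℝ) + 1) * Real.log 2 / (5 * K) < w * (Real.log w - 1) := by
    have h5 : (a : ℝ) / (2 * K * l) < w := by
      rw [div_lt_iff₀ (by positivity)]
      linarith
    have h6 : 0 < 2 / 5 * (1 + 1 / (a : ℝ)) * (l * Real.log 2) := by positivity
    calc ((a : ℝ) + 1) * Real.log 2 / (5 * K) =
        (a : ℝ) / (2 * K * l) * (2 / 5 * (1 + 1 / (a : ℝ)) * (l * Real.log 2)) := by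
          field_simp
      _ < w * (Real.log w - 1) := mul_lt_mul'' h5 h3 (by positivity) h6.le
  linarith

end Pool.Agent.H374R2.Z.RO2
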