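import Mathlib
import Pool.Agent.H374R2.Z.Defs

/-!
Numbers with given radical.
-/

set_option autoImplicit false

namespace Pool.Agent.H374R2.Z.RO3

open Finset

/-- Task RO3 (numbers with given radical). -/
theorem card_rad_dvd {X m : ℕ} (hX : 1 ≤ X) (hm : 0 < m) :
    ((Icc 1 X).filter (fun n => rad n ∣ m)).card ≤ (Nat.log 2 X + 1) ^ m.primeFactors.card := by
  have hcard : (m.primeFactors.pi fun _ => range (Nat.log 2 X + 1)).card =
      (Nat.log 2 X + 1) ^ m.primeFactors.card := by
    rw [Finset.card_pi, Finset.prod_const, Finset.card_range]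
  rw [← hcard]
  refine Finset.card_le_card_of_injOn (fun n => fun p _ => n.factorization p) ?_ ?_
  · intro n hn
    rw [Finset.mem_coe, Finset.mem_filter, Finset.mem_Icc] at hn
    rw [Finset.mem_coe, Finset.mem_pi]
    intro p hp
    rw [Finset.mem_range, Nat.lt_succ_iff]
    have hp2 : 2 ≤ p := (Nat.prime_of_mem_primeFactors hp).two_le
    refine Nat.le_log_of_pow_le (by norm_num) ?_
    calc 2 ^ n.factorization p ≤ p ^ n.factorization p := Nat.pow_le_pow_left hp2 _
      _ ≤ n := Nat.ordProj_le p (by omega)
      _ ≤ X := hn.1.2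
  · intro n hn n' hn' h
    rw [Finset.mem_coe, Finset.mem_filter, Finset.mem_Icc] at hn hn'
    have key : ∀ k : ℕ, rad k ∣ m → ∀ p, p ∉ m.primeFactors → k.factorization p = 0 := by
      intro k hk p hp
      by_contra hne
      have hpk : p ∈ k.primeFactors := by
        rw [← Nat.support_factorization]
        exact Finsupp.mem_support_iff.2 hne
      have h1 : p ∣ rad k := Finset.dvd_prod_of_mem _ hpk
      exact hp (Nat.mem_primeFactors.2 ⟨Nat.prime_of_mem_primeFactors hpk, h1.trans hk, by omega⟩)
    refine Nat.eq_of_factorization_eq (by omega) (by omega) fun p => ?_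
    by_cases hp : p ∈ m.primeFactors
    · exact congrFun (congrFun h p) hp
    · rw [key n hn.2 p hp, key n' hn'.2 p hp]

end Pool.Agent.H374R2.Z.RO3
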