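import Mathlib
import Pool.Agent.H374R2.Z.Defs2

/-!
Task RO4: a large quotient `n / rad n` is rare.
-/

set_option autoImplicit false

namespace Pool.Agent.H374R2.Z.RO4

open Finset Filter

/-- The square root of the square part. -/
def dd (n : ℕ) : ℕ := ∏ p ∈ n.primeFactors, p ^ (n.factorization p / 2)

lemma eq_prod {n : ℕ} (hn : n ≠ 0) : ∏ p ∈ n.primeFactors, p ^ n.factorization p = n := by
  have h := Nat.prod_factorization_pow_eq_self hn
  rw [Finsupp.prod, Nat.support_factorization] at h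
  exact h

lemma dd_sq_dvd {n : ℕ} (hn : n ≠ 0) : dd n ^ 2 ∣ n := by
  conv_rhs => rw [← eq_prod hn]
  unfold dd
  rw [← Finset.prod_pow]
  apply Finset.prod_dvd_prod_of_dvd
  intro p _
  rw [← pow_mul]
  exact pow_dvd_pow _ (by omega)

lemma le_rad_dd {n : ℕ} (hn : n ≠ 0) : n ≤ rad n * dd n ^ 3 := by
  conv_lhs => rw [← eq_prod hn]
  unfold rad dd
  rw [← Finset.prod_pow, ← Finset.prod_mul_distrib]
  apply Finset.prod_le_prod'
  intro p hp
  have hpp := Nat.prime_of_mem_primeFactors hp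
  have he : 0 < n.factorization p := hpp.factorization_pos_of_dvd hn (Nat.dvd_of_mem_primeFactors hp)
  rw [← pow_mul, ← pow_succ']
  exact Nat.pow_le_pow_right hpp.pos (by omega)

lemma rad_pos (n : ℕ) : 0 < rad n :=
  Finset.prod_pos fun _ hp => (Nat.prime_of_mem_primeFactors hp).pos

/-- Task RO4 (a large quotient `n / rad n` is rare). -/
theorem rad_small {δ ε : ℝ} (hδ : 0 < δ) (hε : 0 < ε) : ∃ X₀ : ℕ, ∀ X : ℕ, X₀ ≤ X →
    (((Icc 1 X).filter (fun n => (rad n : ℝ) * (X : ℝ) ^ δ < n)).card : ℝ) ≤ ε * X := by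
  have ht : Tendsto (fun X : ℕ => ((⌊(X : ℝ) ^ (δ / 3)⌋₊ : ℕ) : ℝ)) atTop atTop :=
    tendsto_natCast_atTop_atTop.comp (tendsto_nat_floor_atTop.comp
      ((tendsto_rpow_atTop (by positivity)).comp tendsto_natCast_atTop_atTop))
  obtain ⟨X1, hX1⟩ := (tendsto_atTop.1 ht (max (1 / ε) 1)).exists_forall_of_atTop
  refine ⟨X1, fun X hX => ?_⟩
  have h1 := hX1 X hX
  set D0 : ℕ := ⌊(X : ℝ) ^ (δ / 3)⌋₊ with hD0
  have hD1 : (1 : ℝ) ≤ D0 := (le_max_right _ _).trans h1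
  have hDε : 1 / ε ≤ D0 := (le_max_left _ _).trans h1
  have hD1' : 1 ≤ D0 := by exact_mod_cast hD1
  have hX0 : (0 : ℝ) ≤ X := Nat.cast_nonneg X
  -- the set is contained in a union
  have hsub : (Icc 1 X).filter (fun n => (rad n : ℝ) * (X : ℝ) ^ δ < n) ⊆
      (Ioc D0 X).biUnion (fun d => (Ioc 0 X).filter (fun n => d ^ 2 ∣ n)) := by
    intro n hn
    rw [mem_filter, mem_Icc] at hn
    obtain ⟨⟨hn1, hnX⟩, hn2⟩ := hn
    have hn0 : n ≠ 0 := by omega
    have h2 : (n : ℝ) ≤ rad n * (dd n : ℝ) ^ 3 := by exact_mod_cast le_rad_dd hn0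
    have h3 : (0 : ℝ) < rad n := by exact_mod_cast rad_pos n
    have h4 : (X : ℝ) ^ δ < (dd n : ℝ) ^ 3 := lt_of_mul_lt_mul_left (hn2.trans_le h2) h3.le
    have h5 : (X : ℝ) ^ (δ / 3) < dd n := by
      have e : (X : ℝ) ^ δ = ((X : ℝ) ^ (δ / 3)) ^ 3 := by
        rw [← Real.rpow_natCast, ← Real.rpow_mul hX0]; congr 1; push_cast; ring
      rw [e] at h4
      exact lt_of_pow_lt_pow_left₀ 3 (Nat.cast_nonneg _) h4
    have h6 : D0 < dd n := (Nat.floor_lt (by positivity)).2 h5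
    have h7 : dd n ≤ X := by
      have h8 : dd n ^ 2 ≤ n := Nat.le_of_dvd (by omega) (dd_sq_dvd hn0)
      nlinarith
    rw [mem_biUnion]
    exact ⟨dd n, mem_Ioc.2 ⟨h6, h7⟩, mem_filter.2 ⟨mem_Ioc.2 ⟨by omega, hnX⟩, dd_sq_dvd hn0⟩⟩
  have hc : ((Icc 1 X).filter (fun n => (rad n : ℝ) * (X : ℝ) ^ δ < n)).card ≤
      ∑ d ∈ Ioc D0 X, X / d ^ 2 := by
    refine (card_le_card hsub).trans (card_biUnion_le.trans (sum_le_sum fun d _ => ?_))
    exact (Nat.Ioc_filter_dvd_card_eq_div _ _).le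
  calc (((Icc 1 X).filter (fun n => (rad n : ℝ) * (X : ℝ) ^ δ < n)).card : ℝ)
      ≤ ((∑ d ∈ Ioc D0 X, X / d ^ 2 : ℕ) : ℝ) := by exact_mod_cast hc
    _ ≤ ∑ d ∈ Ioc D0 X, (X : ℝ) * ((d : ℝ) ^ 2)⁻¹ := by
        push_cast
        refine sum_le_sum fun d _ => ?_
        have := Nat.cast_div_le (α := ℝ) (m := X) (n := d ^ 2)
        refine this.trans (le_of_eq ?_)
        push_cast
        rw [div_eq_mul_inv]
    _ ≤ (X : ℝ) * (D0 : ℝ)⁻¹ := by
        rw [← mul_sum]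
        apply mul_le_mul_of_nonneg_left _ hX0
        rcases le_or_gt D0 X with h | h
        · have := sum_Ioc_inv_sq_le_sub (α := ℝ) (k := D0) (n := X) (by omega) h
          have h2 : (0:ℝ) ≤ (X:ℝ)⁻¹ := by positivity
          linarith
        · rw [Ioc_eq_empty (by omega)]; simp
    _ ≤ ε * X := by
        rw [mul_comm]
        apply mul_le_mul_of_nonneg_right _ hX0
        rw [inv_le_comm₀ (by linarith) hε, ← one_div]
        exact hDε

end Pool.Agent.H374R2.Z.RO4
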