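import Mathlib
import Pool.Agent.H374R2.Z.Defs2

/-! RO5: numerics (helper896). -/

set_option autoImplicit false

namespace Pool.Agent.H374R2.Z.RO5

open Finset

theorem cube_le (l : ℕ) (h : 10 ≤ l) : l ^ 3 ≤ 2 ^ l := by
  induction l, h using Nat.le_induction with
  | base => norm_num
  | succ n hn ih =>
    have h1 : (n + 1) ^ 3 ≤ 2 * n ^ 3 := by nlinarith [Nat.mul_le_mul hn hn, pow_pos (show 0 < n by omega) 2]
    calc (n + 1) ^ 3 ≤ 2 * n ^ 3 := h1
      _ ≤ 2 * 2 ^ n := by gcongr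
      _ = 2 ^ (n + 1) := by rw [pow_succ]; ring

/-- Task RO5 (numerics). -/
theorem ro_num {η : ℝ} (hη : 0 < η) (hη1 : η < 1) : ∃ K : ℕ, 1 ≤ K ∧ ∃ X₀ : ℕ,
    ∀ X a l X' y W : ℕ, X₀ ≤ X → a = Nat.log 2 X → l = Nat.log 2 a + 1 →
    X' = ⌊(X : ℝ) ^ (1 + 1 / (10 * (K : ℝ)))⌋₊ → y = ⌈(X : ℝ) ^ η⌉₊ → W = a / (K * l) →
    1 ≤ W ∧ X * a ^ 2 ≤ X * 2 ^ (W / 2) ∧
    (((X' / y) * (8 * W * (EE X' W + 2) ^ (2 * W + 1)) * (a + 1) ^ W : ℕ) : ℝ) ≤
      (X : ℝ) ^ (1 - η / 4) := by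
  obtain ⟨K, hK⟩ : ∃ K : ℕ, K = ⌈40 / η⌉₊ := ⟨_, rfl⟩
  have hKη : 40 / η ≤ K := by rw [hK]; exact Nat.le_ceil _
  have hK40 : (40 : ℝ) ≤ K := by
    refine le_trans ?_ hKη
    rw [le_div_iff₀ hη]
    linarith
  have hK1 : 1 ≤ K := by
    have : (1 : ℝ) ≤ K := by linarith
    exact_mod_cast this
  have hK0 : (0 : ℝ) < K := by linarith
  refine ⟨K, hK1, 2 ^ (2 ^ (128 + 10 * K)), ?_⟩
  intro X a l X' y W hX ha hl hX' hy hW
  have hXpos : 1 ≤ X := le_trans Nat.one_le_two_pow hX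
  have ha1 : 2 ^ a ≤ X := by rw [ha]; exact Nat.pow_log_le_self 2 (by omega)
  have ha2 : X < 2 ^ (a + 1) := by rw [ha]; exact Nat.lt_pow_succ_log_self (by norm_num) X
  have ha3 : 2 ^ (128 + 10 * K) ≤ a := by
    rw [ha]; exact Nat.le_log_of_pow_le (by norm_num) hX
  have hapos : 1 ≤ a := le_trans Nat.one_le_two_pow ha3
  have hl1 : 128 + 10 * K + 1 ≤ l := by
    rw [hl]
    have := Nat.le_log_of_pow_le (by norm_num) ha3
    omega
  have hl2 : a < 2 ^ l := by rw [hl]; exact Nat.lt_pow_succ_log_self (by norm_num) a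
  have hl3 : 2 ^ l ≤ 2 * a := by
    rw [hl, pow_succ]
    have := Nat.pow_log_le_self 2 (show a ≠ 0 by omega)
    omega
  have hcube := cube_le l (by omega)
  have hlK : 10 * K ≤ l := by omega
  have hl128 : 128 ≤ l := by omega
  have C1 : K * l * (4 * l + 1) ≤ a := by
    have h1 : 2 * (K * l * (4 * l + 1)) ≤ l ^ 3 := by
      have h2 : 10 * K * (l * l) ≤ l * (l * l) := Nat.mul_le_mul_right _ hlK
      have h3 : K * l ≤ K * (l * l) := by
        have : K * l * 1 ≤ K * l * l := Nat.mul_le_mul_left _ (by omega)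
        nlinarith
      nlinarith
    omega
  have C2 : 2 * (K * (6 * l + 35)) ≤ a := by
    have h1 : 4 * (K * (6 * l + 35)) ≤ l ^ 3 := by
      have h2 : 10 * K * (l * l) ≤ l * (l * l) := Nat.mul_le_mul_right _ hlK
      have h3 : K * (128 * l) ≤ K * (l * l) := by gcongr
      have h4 : K * 128 ≤ K * l := by gcongr
      nlinarith
    omega
  have hKl : 0 < K * l := by positivity
  have hW41 : 4 * l + 1 ≤ W := by
    rw [hW, Nat.le_div_iff_mul_le hKl]
    calc (4 * l + 1) * (K * l) = K * l * (4 * l + 1) := by ring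
      _ ≤ a := C1
  have hWa : K * l * W ≤ a := by rw [hW]; exact Nat.mul_div_le a (K * l)
  have hWa' : W ≤ a := by
    calc W = 1 * W := by ring
      _ ≤ K * l * W := Nat.mul_le_mul_right _ hKl
      _ ≤ a := hWa
  refine ⟨by omega, ?_, ?_⟩
  · apply Nat.mul_le_mul_left
    calc a ^ 2 ≤ (2 ^ l) ^ 2 := by gcongr
      _ = 2 ^ (2 * l) := by rw [← pow_mul]; ring_nf
      _ ≤ 2 ^ (W / 2) := by
        apply Nat.pow_le_pow_right (by norm_num)
        omega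
  · -- bound of EE
    have hXr : (1 : ℝ) ≤ X := by exact_mod_cast hXpos
    have hX0 : (0 : ℝ) < X := by linarith
    have hexp : (1 : ℝ) / (10 * K) ≤ 1 := by
      rw [div_le_one (by positivity)]
      linarith
    have hX'1 : (X' : ℝ) ≤ (X : ℝ) ^ (1 + 1 / (10 * (K : ℝ))) := by
      rw [hX']; exact Nat.floor_le (by positivity)
    have hX'2 : X' ≤ X ^ 2 := by
      have h1 : (X' : ℝ) ≤ (X : ℝ) ^ (2 : ℝ) :=
        hX'1.trans (Real.rpow_le_rpow_of_exponent_le hXr (by linarith))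
      rw [Real.rpow_two] at h1
      exact_mod_cast h1
    have hlogX' : Nat.log 2 X' + 1 ≤ 2 ^ (l + 1) := by
      have h1 : Nat.log 2 X' ≤ Nat.log 2 (X ^ 2) := Nat.log_mono_right hX'2
      have h2 : Nat.log 2 (X ^ 2) < 2 * a + 2 := by
        apply Nat.log_lt_of_lt_pow (by positivity)
        calc X ^ 2 < (2 ^ (a + 1)) ^ 2 := by gcongr
          _ = 2 ^ (2 * a + 2) := by rw [← pow_mul]; ring_nf
      rw [pow_succ]
      omega
    have hQQ : QQ W ≤ 2 ^ (15 + 2 * l) := by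
      unfold QQ
      calc 19200 * W ^ 2 ≤ 2 ^ 15 * (2 ^ l) ^ 2 := by
            gcongr
            · norm_num
            · omega
        _ = 2 ^ (15 + 2 * l) := by rw [← pow_mul, ← pow_add]; ring_nf
    have hEE : EE X' W + 2 ≤ 2 ^ (5 * l + 32) := by
      have h1 : EE X' W ≤ 2 ^ (5 * l + 31) := by
        unfold EE
        calc QQ W ^ 2 * (Nat.log 2 X' + 1) ≤ (2 ^ (15 + 2 * l)) ^ 2 * 2 ^ (l + 1) := by gcongr
          _ = 2 ^ (5 * l + 31) := by rw [← pow_mul, ← pow_add]; ring_nf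
      have h2 : 2 ≤ 2 ^ (5 * l + 31) := by
        calc 2 = 2 ^ 1 := by norm_num
          _ ≤ 2 ^ (5 * l + 31) := Nat.pow_le_pow_right (by norm_num) (by omega)
      have h3 : 2 ^ (5 * l + 32) = 2 * 2 ^ (5 * l + 31) := by rw [pow_succ]; ring
      omega
    -- the total power of two
    obtain ⟨N, hN⟩ : ∃ N : ℕ, N = (l + 3) + (5 * l + 32) * (2 * W + 1) + l * W := ⟨_, rfl⟩
    have hprod : 8 * W * (EE X' W + 2) ^ (2 * W + 1) * (a + 1) ^ W ≤ 2 ^ N := by
      have h1 : 8 * W ≤ 2 ^ (l + 3) := by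
        rw [pow_add]; omega
      calc 8 * W * (EE X' W + 2) ^ (2 * W + 1) * (a + 1) ^ W
          ≤ 2 ^ (l + 3) * (2 ^ (5 * l + 32)) ^ (2 * W + 1) * (2 ^ l) ^ W := by
            gcongr
            omega
        _ = 2 ^ N := by rw [← pow_mul, ← pow_mul, ← pow_add, ← pow_add, hN]
    have hKN : K * N ≤ 12 * a := by
      have h1 : 128 * (K * W) ≤ a := by
        calc 128 * (K * W) ≤ l * (K * W) := Nat.mul_le_mul_right _ hl128
          _ = K * l * W := by ring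
          _ ≤ a := hWa
      have h2 : 2 * (K * N) = 22 * (K * l * W) + 128 * (K * W) + 2 * (K * (6 * l + 35)) := by
        rw [hN]; ring
      omega
    have h2N : ((2 ^ N : ℕ) : ℝ) ≤ (X : ℝ) ^ (12 / (K : ℝ)) := by
      push_cast
      have h1 : (N : ℝ) ≤ a * (12 / K) := by
        rw [mul_div_assoc', le_div_iff₀ hK0]
        have : ((K * N : ℕ) : ℝ) ≤ ((12 * a : ℕ) : ℝ) := by exact_mod_cast hKN
        push_cast at this
        linarith
      calc (2 : ℝ) ^ N = (2 : ℝ) ^ (N : ℝ) := (Real.rpow_natCast 2 N).symm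
        _ ≤ (2 : ℝ) ^ ((a : ℝ) * (12 / K)) := Real.rpow_le_rpow_of_exponent_le (by norm_num) h1
        _ = ((2 : ℝ) ^ a) ^ (12 / (K : ℝ)) := by
          rw [Real.rpow_mul (by norm_num), Real.rpow_natCast]
        _ ≤ (X : ℝ) ^ (12 / (K : ℝ)) := by
          apply Real.rpow_le_rpow (by positivity) _ (by positivity)
          exact_mod_cast ha1
    have hyr : (X : ℝ) ^ η ≤ y := by rw [hy]; exact Nat.le_ceil _
    have hXη : (0 : ℝ) < (X : ℝ) ^ η := Real.rpow_pos_of_pos hX0 _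
    have hdiv : ((X' / y : ℕ) : ℝ) ≤ (X : ℝ) ^ (1 + 1 / (10 * (K : ℝ))) / (X : ℝ) ^ η := by
      calc ((X' / y : ℕ) : ℝ) ≤ (X' : ℝ) / y := Nat.cast_div_le
        _ ≤ (X : ℝ) ^ (1 + 1 / (10 * (K : ℝ))) / (X : ℝ) ^ η := by gcongr
    have e1 : (X' / y) * (8 * W * (EE X' W + 2) ^ (2 * W + 1)) * (a + 1) ^ W =
        (X' / y) * (8 * W * (EE X' W + 2) ^ (2 * W + 1) * (a + 1) ^ W) := by ring
    rw [e1]
    calc (((X' / y) * (8 * W * (EE X' W + 2) ^ (2 * W + 1) * (a + 1) ^ W) : ℕ) : ℝ)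
        ≤ (((X' / y) * 2 ^ N : ℕ) : ℝ) := by
          exact_mod_cast Nat.mul_le_mul_left _ hprod
      _ = ((X' / y : ℕ) : ℝ) * ((2 ^ N : ℕ) : ℝ) := by rw [Nat.cast_mul]
      _ ≤ ((X : ℝ) ^ (1 + 1 / (10 * (K : ℝ))) / (X : ℝ) ^ η) * (X : ℝ) ^ (12 / (K : ℝ)) := by
          gcongr
      _ = (X : ℝ) ^ (1 + 1 / (10 * (K : ℝ)) - η + 12 / K) := by
          rw [← Real.rpow_sub hX0, ← Real.rpow_add hX0]
      _ ≤ (X : ℝ) ^ (1 - η / 4) := by
          apply Real.rpow_le_rpow_of_exponent_le hXr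
          have h1 : 1 / (K : ℝ) ≤ η / 40 := by
            rw [div_le_div_iff₀ hK0 (by norm_num)]
            rw [div_le_iff₀ hη] at hKη
            linarith
          have h2 : 1 / (10 * (K : ℝ)) = (1 / K) / 10 := by field_simp
          have h3 : 12 / (K : ℝ) = 12 * (1 / K) := by field_simp
          rw [h2, h3]
          linarith

end Pool.Agent.H374R2.Z.RO5
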