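import Pool.Agent.H374R2.Z.Defs
import Pool.Agent.H374R2.Z.RF

/-!
Task ROB of project Z: assembly of the robust theorem.
-/

set_option autoImplicit false

namespace Pool.Agent.H374R2.Z.ROB

open Finset Filter
open Pool.Agent.H374R2.Z

theorem log_le {X : ℕ} (hX : 1 ≤ X) : Real.log X ≤ (Nat.log 2 X : ℝ) + 1 := by
  have h1 : X < 2 ^ (Nat.log 2 X + 1) := Nat.lt_pow_succ_log_self (by norm_num) X
  have h2 : (X : ℝ) ≤ 2 ^ (Nat.log 2 X + 1) := by exact_mod_cast h1.le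
  have h3 : Real.log X ≤ Real.log ((2 : ℝ) ^ (Nat.log 2 X + 1)) :=
    Real.log_le_log (by exact_mod_cast hX) h2
  rw [Real.log_pow] at h3
  have h4 : Real.log 2 ≤ 1 := by
    have := Real.log_two_lt_d9
    linarith
  push_cast at h3
  have h5 : (0 : ℝ) ≤ (Nat.log 2 X : ℝ) + 1 := by positivity
  nlinarith

theorem key {X K W y n A B : ℕ} {δ : ℝ} (hK : 1 ≤ K) (hδ : δ = 1 / (10 * (K : ℝ)))
    (hRO2 : ∀ e : ℕ, 0 < e → (e : ℝ) ≤ (X : ℝ) ^ (1 / (5 * (K : ℝ))) →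
      2 * e.primeFactors.card ≤ W)
    (hn : 0 < n) (hnX : n ≤ X) (hA : 0 < A) (hB : 0 < B) (hAB : Nat.Coprime A B)
    (hdvd : n ∣ A * B * (A + B)) (hr : (rad (A * B * (A + B)) : ℝ) ≤ (n : ℝ) ^ (1 + δ))
    (h4 : 4 ≤ (n.primeFactors.filter (fun p => y < p)).card)
    (hω : n.primeFactors.card ≤ W / 2) (hrad : (n : ℝ) ≤ rad n * (X : ℝ) ^ δ) :
    (Typ ⌊(X : ℝ) ^ (1 + δ)⌋₊ W y (rad (A * B * (A + B))) ∧ IsRad (rad (A * B * (A + B)))) ∧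
      rad n ∣ rad (A * B * (A + B)) := by
  have hK0 : (0 : ℝ) < K := by exact_mod_cast hK
  have hδ0 : 0 < δ := by rw [hδ]; positivity
  have hP : A * B * (A + B) ≠ 0 := by positivity
  have hsub : n.primeFactors ⊆ (A * B * (A + B)).primeFactors := Nat.primeFactors_mono hdvd hP
  have hpm : (rad (A * B * (A + B))).primeFactors = (A * B * (A + B)).primeFactors :=
    RF.primeFactors_rad _
  have hmpos : 0 < rad (A * B * (A + B)) := RF.rad_facts.1 _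
  have hrpos : 0 < rad n := RF.rad_facts.1 _
  have hdm : rad n ∣ rad (A * B * (A + B)) := by
    unfold rad
    exact Finset.prod_dvd_prod_of_subset _ _ _ hsub
  generalize hm : rad (A * B * (A + B)) = m at *
  have hX0 : (0 : ℝ) < X := by exact_mod_cast (hn.trans_le hnX)
  have hn0 : (0 : ℝ) < n := by exact_mod_cast hn
  have hnX' : (n : ℝ) ≤ X := by exact_mod_cast hnX
  have hmX : (m : ℝ) ≤ (X : ℝ) ^ (1 + δ) :=
    hr.trans (Real.rpow_le_rpow hn0.le hnX' (by linarith))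
  obtain ⟨e, he⟩ := hdm
  have he0 : 0 < e := Nat.pos_of_ne_zero (by rintro rfl; omega)
  have hr0 : (0 : ℝ) < rad n := by exact_mod_cast hrpos
  have heX : (e : ℝ) ≤ (X : ℝ) ^ (1 / (5 * (K : ℝ))) := by
    have e1 : (1 / (5 * (K : ℝ))) = δ + δ := by rw [hδ]; field_simp; norm_num
    have e2 : (rad n : ℝ) * e ≤ rad n * ((X : ℝ) ^ δ * (X : ℝ) ^ δ) := by
      calc (rad n : ℝ) * e = m := by rw [he]; push_cast; ring
        _ ≤ (n : ℝ) ^ (1 + δ) := hr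
        _ = n * (n : ℝ) ^ δ := by rw [Real.rpow_add hn0, Real.rpow_one]
        _ ≤ (rad n * (X : ℝ) ^ δ) * (X : ℝ) ^ δ :=
            mul_le_mul hrad (Real.rpow_le_rpow hn0.le hnX' hδ0.le) (by positivity) (by positivity)
        _ = _ := by ring
    rw [e1, Real.rpow_add hX0]
    exact le_of_mul_le_mul_left e2 hr0
  have hωe := hRO2 e he0 heX
  have hωm : m.primeFactors.card ≤ n.primeFactors.card + e.primeFactors.card := by
    rw [he, Nat.primeFactors_mul hrpos.ne' he0.ne', RF.primeFactors_rad]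
    exact Finset.card_union_le _ _
  refine ⟨⟨⟨Nat.le_floor hmX, by omega, ?_⟩, ⟨A, B, hA, hB, hAB, hm⟩⟩, ⟨e, he⟩⟩
  refine h4.trans (Finset.card_le_card ?_)
  rw [hpm]
  exact Finset.filter_subset_filter _ hsub

/-- Task ROB (from MC, H4, MP, RO2, RO3, RO4, RO5). -/
theorem robust
    (main_count : ∀ {X W y : ℕ}, 2 ≤ X → 1 ≤ W → 1 ≤ y →
      {n | Typ X W y n ∧ IsRad n}.Finite ∧
      {n | Typ X W y n ∧ IsRad n}.ncard ≤ (X / y) * (8 * W * (EE X W + 2) ^ (2 * W + 1)))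
    (few_large : ∀ {z : ℝ}, 0 < z → z ≤ 1 → ∃ C : ℝ, 0 < C ∧ ∀ y X : ℕ, 3 ≤ y →
      y ≤ X → (((Icc 1 X).filter
        (fun n => (n.primeFactors.filter (fun p => y < p)).card ≤ 3)).card : ℝ) ≤
        C * X * (Real.log y / Real.log X) ^ (1 - z))
    (many_primes : ∀ {X W : ℕ}, 1 ≤ X →
      (((Icc 1 X).filter (fun n => W < n.primeFactors.card)).card : ℝ) * 2 ^ W ≤
        X * (1 + Real.log X))
    (omega_small : ∀ (K : ℕ), 1 ≤ K → ∃ X₀ : ℕ, ∀ X a l e : ℕ, X₀ ≤ X →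
      a = Nat.log 2 X → l = Nat.log 2 a + 1 → 0 < e → (e : ℝ) ≤ (X : ℝ) ^ (1 / (5 * (K : ℝ))) →
      2 * e.primeFactors.card ≤ a / (K * l))
    (card_rad_dvd : ∀ {X m : ℕ}, 1 ≤ X → 0 < m →
      ((Icc 1 X).filter (fun n => rad n ∣ m)).card ≤ (Nat.log 2 X + 1) ^ m.primeFactors.card)
    (rad_small : ∀ {δ ε : ℝ}, 0 < δ → 0 < ε → ∃ X₀ : ℕ, ∀ X : ℕ, X₀ ≤ X →
      (((Icc 1 X).filter (fun n => (rad n : ℝ) * (X : ℝ) ^ δ < n)).card : ℝ) ≤ ε * X)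
    (ro_num : ∀ {η : ℝ}, 0 < η → η < 1 → ∃ K : ℕ, 1 ≤ K ∧ ∃ X₀ : ℕ,
      ∀ X a l X' y W : ℕ, X₀ ≤ X → a = Nat.log 2 X → l = Nat.log 2 a + 1 →
      X' = ⌊(X : ℝ) ^ (1 + 1 / (10 * (K : ℝ)))⌋₊ → y = ⌈(X : ℝ) ^ η⌉₊ → W = a / (K * l) →
      1 ≤ W ∧ X * a ^ 2 ≤ X * 2 ^ (W / 2) ∧
      (((X' / y) * (8 * W * (EE X' W + 2) ^ (2 * W + 1)) * (a + 1) ^ W : ℕ) : ℝ) ≤
        (X : ℝ) ^ (1 - η / 4)) :
    ∀ ε : ℝ, 0 < ε → ∃ δ : ℝ, 0 < δ ∧ ∃ X₀ : ℕ, ∀ X : ℕ, X₀ ≤ X →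
    (({n : ℕ | 0 < n ∧ n ≤ X ∧ ∃ a b : ℕ, 0 < a ∧ 0 < b ∧ Nat.Coprime a b ∧
      n ∣ a * b * (a + b) ∧ (rad (a * b * (a + b)) : ℝ) ≤ (n : ℝ) ^ (1 + δ)}.ncard : ℕ) : ℝ) ≤
      ε * X := by
  intro ε hε
  obtain ⟨C, hC, hfew⟩ := few_large (z := 1 / 2) (by norm_num) (by norm_num)
  obtain ⟨η, hη0, hη1, hη2⟩ : ∃ η : ℝ, 0 < η ∧ η < 1 ∧ 2 * η ≤ (ε / (5 * C)) ^ 2 := by
    refine ⟨min (1 / 2) ((ε / (5 * C)) ^ 2 / 2), by positivity, ?_, ?_⟩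
    · exact (min_le_left _ _).trans_lt (by norm_num)
    · have := min_le_right (1 / 2 : ℝ) ((ε / (5 * C)) ^ 2 / 2)
      linarith
  obtain ⟨K, hK, X₅, hnum⟩ := ro_num hη0 hη1
  have hK0 : (0 : ℝ) < K := by exact_mod_cast hK
  obtain ⟨δ, hδ⟩ : ∃ δ : ℝ, δ = 1 / (10 * (K : ℝ)) := ⟨_, rfl⟩
  have hδ0 : 0 < δ := by rw [hδ]; positivity
  obtain ⟨X₄, hrs⟩ := rad_small hδ0 (show 0 < ε / 5 by positivity)
  obtain ⟨X₂, hom⟩ := omega_small K hK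
  refine ⟨δ, hδ0, ?_⟩
  have ev1 : ∀ᶠ X : ℕ in atTop, (3 : ℝ) ≤ (X : ℝ) ^ η :=
    ((tendsto_rpow_atTop hη0).comp tendsto_natCast_atTop_atTop).eventually_ge_atTop 3
  have ev2 : ∀ᶠ X : ℕ in atTop, 5 / ε ≤ (X : ℝ) ^ (η / 4) :=
    ((tendsto_rpow_atTop (show 0 < η / 4 by positivity)).comp
      tendsto_natCast_atTop_atTop).eventually_ge_atTop (5 / ε)
  obtain ⟨X₆, h6⟩ := eventually_atTop.1 (ev1.and ev2)
  refine ⟨max (max X₂ X₄) (max X₅ (max X₆ (2 ^ (⌈15 / ε⌉₊ + 1)))), ?_⟩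
  intro X hX
  simp only [max_le_iff] at hX
  obtain ⟨⟨hX2, hX4⟩, hX5, hX6, hX7⟩ := hX
  obtain ⟨hXη, hXη4⟩ := h6 X hX6
  -- basic facts
  obtain ⟨a, ha⟩ : ∃ a, a = Nat.log 2 X := ⟨_, rfl⟩
  obtain ⟨l, hl⟩ : ∃ l, l = Nat.log 2 a + 1 := ⟨_, rfl⟩
  obtain ⟨X', hX'⟩ : ∃ X' : ℕ, X' = ⌊(X : ℝ) ^ (1 + 1 / (10 * (K : ℝ)))⌋₊ := ⟨_, rfl⟩
  obtain ⟨y, hy⟩ : ∃ y : ℕ, y = ⌈(X : ℝ) ^ η⌉₊ := ⟨_, rfl⟩
  obtain ⟨W, hW⟩ : ∃ W : ℕ, W = a / (K * l) := ⟨_, rfl⟩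
  obtain ⟨hW1, haW, hbig⟩ := hnum X a l X' y W hX5 ha hl hX' hy hW
  have hXge2 : 2 ≤ X := by
    have h1 : 2 ^ 1 ≤ 2 ^ (⌈15 / ε⌉₊ + 1) := Nat.pow_le_pow_right (by norm_num) (by omega)
    omega
  have hX0 : (0 : ℝ) < X := by exact_mod_cast (by omega : 0 < X)
  have hX1 : (1 : ℝ) ≤ X := by exact_mod_cast (by omega : 1 ≤ X)
  have hlogX : 0 < Real.log X := Real.log_pos (by exact_mod_cast (by omega : 1 < X))
  have ha15 : 15 / ε ≤ (a : ℝ) ∧ (1 : ℝ) ≤ a := by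
    have h1 : ⌈15 / ε⌉₊ + 1 ≤ a := by rw [ha]; exact Nat.le_log_of_pow_le (by norm_num) hX7
    have h2 : ((⌈15 / ε⌉₊ : ℕ) : ℝ) + 1 ≤ a := by exact_mod_cast h1
    have h3 := Nat.le_ceil (15 / ε)
    have h4 : (0 : ℝ) ≤ (⌈15 / ε⌉₊ : ℕ) := Nat.cast_nonneg _
    constructor <;> linarith
  have hy3 : 3 ≤ y := by
    have h1 := Nat.le_ceil ((X : ℝ) ^ η)
    rw [← hy] at h1
    exact_mod_cast hXη.trans h1
  have hyX : y ≤ X := by
    rw [hy, Nat.ceil_le]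
    calc (X : ℝ) ^ η ≤ (X : ℝ) ^ (1 : ℝ) := Real.rpow_le_rpow_of_exponent_le hX1 hη1.le
      _ = X := Real.rpow_one _
  have hlogy : Real.log y ≤ 2 * η * Real.log X := by
    have h1 : (y : ℝ) ≤ (X : ℝ) ^ η + 1 := by
      rw [hy]; exact (Nat.ceil_lt_add_one (by positivity)).le
    have h2 : (y : ℝ) ≤ (X : ℝ) ^ η * (X : ℝ) ^ η := by nlinarith
    have h3 : (0 : ℝ) < y := by exact_mod_cast (by omega : 0 < y)
    have h4 := Real.log_le_log h3 h2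
    rw [Real.log_mul (by positivity) (by positivity), Real.log_rpow hX0] at h4
    linarith
  have hlogy0 : 0 ≤ Real.log y := Real.log_nonneg (by exact_mod_cast (by omega : 1 ≤ y))
  -- the four sets
  obtain ⟨S1, hS1⟩ : ∃ S1 : Finset ℕ, S1 = (Icc 1 X).filter
    (fun n => (n.primeFactors.filter (fun p => y < p)).card ≤ 3) := ⟨_, rfl⟩
  obtain ⟨S2, hS2⟩ : ∃ S2 : Finset ℕ, S2 = (Icc 1 X).filter
    (fun n => W / 2 < n.primeFactors.card) := ⟨_, rfl⟩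
  obtain ⟨S3, hS3⟩ : ∃ S3 : Finset ℕ, S3 = (Icc 1 X).filter
    (fun n => (rad n : ℝ) * (X : ℝ) ^ δ < n) := ⟨_, rfl⟩
  have hX'2 : 2 ≤ X' := by
    have h1 : X ≤ X' := by
      rw [hX']
      apply Nat.le_floor
      calc (X : ℝ) = (X : ℝ) ^ (1 : ℝ) := (Real.rpow_one _).symm
        _ ≤ _ := Real.rpow_le_rpow_of_exponent_le hX1 (by rw [← hδ]; linarith)
    omega
  obtain ⟨hMfin, hMcard⟩ := main_count (X := X') (W := W) (y := y) hX'2 hW1 (by omega)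
  obtain ⟨M, hM⟩ : ∃ M : Finset ℕ, M = hMfin.toFinset := ⟨_, rfl⟩
  have hMc : M.card ≤ (X' / y) * (8 * W * (EE X' W + 2) ^ (2 * W + 1)) := by
    rw [hM, ← Set.ncard_eq_toFinset_card _ hMfin]
    exact hMcard
  obtain ⟨S4, hS4⟩ : ∃ S4 : Finset ℕ, S4 = M.biUnion
    (fun m => (Icc 1 X).filter (fun n => rad n ∣ m)) := ⟨_, rfl⟩
  have c1 : (S1.card : ℝ) ≤ ε / 5 * X := by
    have h1 := hfew y X hy3 hyX
    rw [← hS1] at h1
    refine h1.trans ?_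
    have h2 : Real.log y / Real.log X ≤ (ε / (5 * C)) ^ 2 := by
      rw [div_le_iff₀ hlogX]
      calc Real.log y ≤ 2 * η * Real.log X := hlogy
        _ ≤ _ := mul_le_mul_of_nonneg_right hη2 hlogX.le
    have h3 : (Real.log y / Real.log X) ^ (1 - 1 / 2 : ℝ) ≤ ε / (5 * C) := by
      calc (Real.log y / Real.log X) ^ (1 - 1 / 2 : ℝ)
          ≤ ((ε / (5 * C)) ^ 2) ^ (1 - 1 / 2 : ℝ) :=
            Real.rpow_le_rpow (by positivity) h2 (by norm_num)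
        _ = ε / (5 * C) := by
            rw [show (1 - 1 / 2 : ℝ) = 1 / 2 by norm_num, ← Real.sqrt_eq_rpow,
              Real.sqrt_sq (by positivity)]
    calc C * X * (Real.log y / Real.log X) ^ (1 - 1 / 2 : ℝ) ≤ C * X * (ε / (5 * C)) :=
          mul_le_mul_of_nonneg_left h3 (by positivity)
      _ = ε / 5 * X := by field_simp
  have c2 : (S2.card : ℝ) ≤ ε / 5 * X := by
    have h1 := many_primes (X := X) (W := W / 2) (by omega)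
    rw [← hS2] at h1
    have h2 : (a : ℝ) ^ 2 ≤ 2 ^ (W / 2) := by
      have h3 : a ^ 2 ≤ 2 ^ (W / 2) := Nat.le_of_mul_le_mul_left haW (by omega)
      exact_mod_cast h3
    have h4 : 1 + Real.log X ≤ ε / 5 * (a : ℝ) ^ 2 := by
      have h5 := log_le (X := X) (by omega)
      rw [← ha] at h5
      have h6 : 3 ≤ ε / 5 * a := by
        have h7 : 15 ≤ a * ε := (div_le_iff₀ hε).1 ha15.1
        linarith
      nlinarith [ha15.2]
    have h8 : (0 : ℝ) < (a : ℝ) ^ 2 := by have := ha15.2; positivity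
    have h9 : (S2.card : ℝ) * (a : ℝ) ^ 2 ≤ (ε / 5 * X) * (a : ℝ) ^ 2 := by
      calc (S2.card : ℝ) * (a : ℝ) ^ 2 ≤ S2.card * 2 ^ (W / 2) :=
            mul_le_mul_of_nonneg_left h2 (Nat.cast_nonneg _)
        _ ≤ X * (1 + Real.log X) := h1
        _ ≤ X * (ε / 5 * (a : ℝ) ^ 2) := mul_le_mul_of_nonneg_left h4 hX0.le
        _ = _ := by ring
    exact le_of_mul_le_mul_right h9 h8
  have c3 : (S3.card : ℝ) ≤ ε / 5 * X := by
    have h1 := hrs X hX4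
    rw [← hS3] at h1
    exact h1
  have c4 : (S4.card : ℝ) ≤ ε / 5 * X := by
    have h1 : S4.card ≤ M.card * (a + 1) ^ W := by
      rw [hS4]
      refine Finset.card_biUnion_le_card_mul _ _ _ ?_
      intro m hm
      rw [hM, Set.Finite.mem_toFinset] at hm
      obtain ⟨⟨-, hmW, -⟩, ⟨u, v, -, -, -, hmr⟩⟩ := hm
      have hm0 : 0 < m := by rw [← hmr]; exact RF.rad_facts.1 _
      have h2 := card_rad_dvd (X := X) (m := m) (by omega) hm0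
      rw [← ha] at h2
      exact h2.trans (Nat.pow_le_pow_right (by omega) hmW)
    have h2 : S4.card ≤ (X' / y) * (8 * W * (EE X' W + 2) ^ (2 * W + 1)) * (a + 1) ^ W :=
      h1.trans (Nat.mul_le_mul_right _ hMc)
    have h3 : (S4.card : ℝ) ≤ (X : ℝ) ^ (1 - η / 4) := by
      refine le_trans ?_ hbig
      exact_mod_cast h2
    refine h3.trans ?_
    rw [Real.rpow_sub hX0, Real.rpow_one, div_le_iff₀ (by positivity)]
    have h4 : 1 ≤ ε / 5 * (X : ℝ) ^ (η / 4) := by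
      have h5 : 5 ≤ (X : ℝ) ^ (η / 4) * ε := (div_le_iff₀ hε).1 hXη4
      linarith
    calc (X : ℝ) = X * 1 := by ring
      _ ≤ X * (ε / 5 * (X : ℝ) ^ (η / 4)) := mul_le_mul_of_nonneg_left h4 hX0.le
      _ = _ := by ring
  -- the covering
  have hcov : {n : ℕ | 0 < n ∧ n ≤ X ∧ ∃ a b : ℕ, 0 < a ∧ 0 < b ∧ Nat.Coprime a b ∧
      n ∣ a * b * (a + b) ∧ (rad (a * b * (a + b)) : ℝ) ≤ (n : ℝ) ^ (1 + δ)} ⊆
      ((S1 ∪ S2) ∪ (S3 ∪ S4) : Finset ℕ) := by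
    rintro n ⟨hn, hnX, A, B, hA, hB, hAB, hdvd, hr⟩
    have hnI : n ∈ Icc 1 X := Finset.mem_Icc.2 ⟨hn, hnX⟩
    rw [Finset.mem_coe, Finset.mem_union, Finset.mem_union, Finset.mem_union]
    by_cases h1 : n ∈ S1
    · exact Or.inl (Or.inl h1)
    by_cases h2 : n ∈ S2
    · exact Or.inl (Or.inr h2)
    by_cases h3 : n ∈ S3
    · exact Or.inr (Or.inl h3)
    refine Or.inr (Or.inr ?_)
    rw [hS1, Finset.mem_filter, not_and, not_le] at h1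
    rw [hS2, Finset.mem_filter, not_and, not_lt] at h2
    rw [hS3, Finset.mem_filter, not_and, not_lt] at h3
    obtain ⟨k1, k2⟩ := key (y := y) (W := W) hK hδ
      (fun e he heX => by rw [hW]; exact hom X a l e hX2 ha hl he heX)
      hn hnX hA hB hAB hdvd hr (h1 hnI) (h2 hnI) (h3 hnI)
    rw [hS4, Finset.mem_biUnion]
    refine ⟨rad (A * B * (A + B)), ?_, ?_⟩
    · rw [hM, Set.Finite.mem_toFinset, hX', ← hδ]
      exact k1
    · rw [Finset.mem_filter]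
      exact ⟨hnI, k2⟩
  have hcard : ({n : ℕ | 0 < n ∧ n ≤ X ∧ ∃ a b : ℕ, 0 < a ∧ 0 < b ∧ Nat.Coprime a b ∧
      n ∣ a * b * (a + b) ∧ (rad (a * b * (a + b)) : ℝ) ≤ (n : ℝ) ^ (1 + δ)}.ncard : ℕ) ≤
      (S1.card + S2.card) + (S3.card + S4.card) := by
    refine (Set.ncard_le_ncard hcov (Finset.finite_toSet _)).trans ?_
    rw [Set.ncard_coe_finset]
    refine (Finset.card_union_le _ _).trans ?_
    exact Nat.add_le_add (Finset.card_union_le _ _) (Finset.card_union_le _ _)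
  have hcard' : (({n : ℕ | 0 < n ∧ n ≤ X ∧ ∃ a b : ℕ, 0 < a ∧ 0 < b ∧ Nat.Coprime a b ∧
      n ∣ a * b * (a + b) ∧ (rad (a * b * (a + b)) : ℝ) ≤ (n : ℝ) ^ (1 + δ)}.ncard : ℕ) : ℝ) ≤
      (S1.card + S2.card) + (S3.card + S4.card) := by exact_mod_cast hcard
  have hεX : 0 < ε * X := by positivity
  linarith

end Pool.Agent.H374R2.Z.ROB
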