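import Mathlib
import Pool.Agent.H374R2.Z.Glue
import Pool.Agent.H374R2.Z.Defs2
import Pool.Agent.H374R2.Z.ROB
import Pool.Agent.H374R2.Z.RO2
import Pool.Agent.H374R2.Z.RO3
import Pool.Agent.H374R2.Z.RO4
import Pool.Agent.H374R2.Z.RO5
import Pool.Agent.H374R2.Z.Q1
import Pool.Agent.H374R2.Z.Q2
import Pool.Agent.H374R2.Z.Q3
import Pool.Agent.H374R2.Z.Q4
import Pool.Agent.H374R2.Z.Q5
import Pool.Agent.H374R2.Z.Q6
import Pool.Agent.H374R2.Z.Q7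
import Pool.Agent.H374R2.Z.QM

/-!
The finished tasks of the second wave of project Z, put together.
-/

set_option autoImplicit false

namespace Pool.Agent.H374R2.Z

open Finset

/-- For almost all `n` every abc triple with `n ∣ abc` has `rad (abc) > n ^ (1 + δ)`. -/
theorem robust : ∀ ε : ℝ, 0 < ε → ∃ δ : ℝ, 0 < δ ∧ ∃ X₀ : ℕ, ∀ X : ℕ, X₀ ≤ X →
    (({n : ℕ | 0 < n ∧ n ≤ X ∧ ∃ a b : ℕ, 0 < a ∧ 0 < b ∧ Nat.Coprime a b ∧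
      n ∣ a * b * (a + b) ∧ (rad (a * b * (a + b)) : ℝ) ≤ (n : ℝ) ^ (1 + δ)}.ncard : ℕ) : ℝ) ≤
      ε * X :=
  ROB.robust (fun h1 h2 h3 => main_count h1 h2 h3) (fun h1 h2 => few_large h1 h2)
    (fun h1 => MP.many_primes h1) (fun K h1 => RO2.omega_small K h1)
    (fun h1 h2 => RO3.card_rad_dvd h1 h2) (fun h1 h2 => RO4.rad_small h1 h2)
    (fun h1 h2 => RO5.ro_num h1 h2)

/-- For almost all `B` every abc triple with a term `B ^ y` has a large radical. -/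
theorem powers : ∀ ε : ℝ, 0 < ε → ∃ N₀ : ℕ, ∀ N : ℕ, N₀ ≤ N →
    (({B : ℕ | 0 < B ∧ B ≤ N ∧ ∃ y s t : ℕ, 0 < y ∧ 0 < s ∧ 0 < t ∧ Nat.Coprime s t ∧
      (s + t = B ^ y ∨ s + B ^ y = t) ∧ (rad (s * t) : ℝ) ≤ (N : ℝ) ^ (1 - ε)}.ncard : ℕ) : ℝ) ≤
      ε * N :=
  QM.powers (fun E {_} h => Q3.dataQ_card E h)
    (fun K {_} h => Q4.small_pairs (fun h1 => Q1.rankin h1) (fun h1 h2 => Q2.pow_omega h1 h2) K h)
    (fun h1 h2 h3 h4 h5 h6 h7 => Q5.setQP_card h1 h2 h3 h4 h5 h6 h7)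
    (fun h1 h2 h3 h4 => Q6.setQR_card
      (fun h1 h2 h3 h4 h5 h6 h7 h8 => unique_rt h1 h2 h3 h4 h5 h6 h7 h8) h1 h2 h3 h4)
    (fun h1 h2 h3 => Q7.kinds h1 h2 h3)

end Pool.Agent.H374R2.Z
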