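import Mathlib
import Pool.Agent.H374R2.Z.Defs

/-!
Task PIG (pigeonhole).
-/

set_option autoImplicit false

namespace Pool.Agent.H374R2.Z.PIG

open Finset Pool.Agent.H374R2.Z

theorem primeFactors_rad (m : ℕ) : (rad m).primeFactors = m.primeFactors := by
  unfold rad
  exact Nat.primeFactors_prod (fun p hp => Nat.prime_of_mem_primeFactors hp)

/-- Task PIG (pigeonhole). -/
theorem exists_cfg {X W y n : ℕ} (h : Typ X W y n) (hr : IsRad n) :
    ∃ (σ : ℤ) (s t T : ℕ), (σ = 1 ∨ σ = -1) ∧ Cfg X W y n σ s t T := by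
  obtain ⟨a, b, ha, hb, hab, hn⟩ := hr
  obtain ⟨hX, hW, h4⟩ := h
  have hc : 0 < a + b := by omega
  have hac : Nat.Coprime a (a + b) := by simpa using hab
  have hbc : Nat.Coprime b (a + b) := by simpa using hab.symm
  have hpf : n.primeFactors = a.primeFactors ∪ b.primeFactors ∪ (a + b).primeFactors := by
    rw [← hn, primeFactors_rad, Nat.primeFactors_mul (by positivity) hc.ne',
      Nat.primeFactors_mul ha.ne' hb.ne']
  have hcard : (n.primeFactors.filter (fun p => y < p)).card ≤
      (a.primeFactors.filter (fun p => y < p)).card +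
      (b.primeFactors.filter (fun p => y < p)).card +
      ((a + b).primeFactors.filter (fun p => y < p)).card := by
    rw [hpf, filter_union, filter_union]
    refine (card_union_le _ _).trans ?_
    exact Nat.add_le_add_right (card_union_le _ _) _
  have hthree : 2 ≤ (a.primeFactors.filter (fun p => y < p)).card ∨
      2 ≤ (b.primeFactors.filter (fun p => y < p)).card ∨
      2 ≤ ((a + b).primeFactors.filter (fun p => y < p)).card := by omega
  rcases hthree with h2 | h2 | h2
  · refine ⟨1, b, a + b, a, Or.inl rfl, ⟨hb, hc, ha, by push_cast; ring, hbc, hab.symm, hac.symm,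
      ?_, hX, hW, h2⟩⟩
    rw [← hn]
    congr 1
    ring
  · refine ⟨1, a, a + b, b, Or.inl rfl, ⟨ha, hc, hb, by push_cast; ring, hac, hab, hbc.symm,
      ?_, hX, hW, h2⟩⟩
    rw [← hn]
    congr 1
    ring
  · exact ⟨-1, a, b, a + b, Or.inr rfl, ⟨ha, hb, hc, by push_cast; ring, hab, hac, hbc,
      hn, hX, hW, h2⟩⟩

end Pool.Agent.H374R2.Z.PIG
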