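import Pool.Agent.H374R2.Z.Defs2
import Pool.Agent.H374R2.Z.L
import Pool.Agent.H374R2.Z.RF

set_option autoImplicit false

namespace Pool.Agent.H374R2.Z.Q7

open Finset Pool.Agent.H374R2.Z

/-- Task Q7 (large heights are of one of the two kinds; from L, RF). -/
theorem kinds {κ₁ : ℝ} {q : ℕ} (hκ0 : 0 < κ₁) (hκ1 : κ₁ ≤ 1) (hq : 2 ≤ q) : ∃ N₀ : ℕ,
    ∀ N p B y s t : ℕ, ∀ σ : ℤ, N₀ ≤ N → p.Prime → (N : ℝ) ^ κ₁ < p → p ∣ B → 0 < B → B ≤ N →
    0 < y → 0 < s → 0 < t → Nat.Coprime s t → σ = 1 ∨ σ = -1 → (t : ℤ) - σ * s = (B : ℤ) ^ y →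
    rad (s * t) ≤ N → N ^ (q ^ 2) ≤ max s t →
    PairP (κ₁ / 4) q p σ s t (B ^ y) ∨ (σ = 1 ∧ PairR (κ₁ / 4) q s t (B ^ y)) := by
  set K : ℝ := 50 * (3 / (κ₁ / 4) + 1) * Real.log (10 ^ 8 * (q : ℝ) ^ 9) with hK
  obtain ⟨N₁, hN₁⟩ := exists_nat_ge (Real.exp K)
  refine ⟨max N₁ 1, ?_⟩
  intro N p B y s t σ hN hp hNp hpB hB hBN hy hs ht hco hσ heq hrad hH
  obtain ⟨rf0, rf1, rf2, rf3, rf4, rf5⟩ := RF.rad_facts
  have hN1 : 1 ≤ N := le_trans (le_max_right _ _) hN
  have hNpos : (0:ℝ) < N := by exact_mod_cast hN1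
  have hlogN0 : 0 ≤ Real.log N := Real.log_nonneg (by exact_mod_cast hN1)
  have hKN : K ≤ Real.log N := by
    have h1 : Real.exp K ≤ N := hN₁.trans (by exact_mod_cast le_trans (le_max_left _ _) hN)
    have := Real.log_le_log (Real.exp_pos K) h1
    rwa [Real.log_exp] at this
  set H := max s t with hHdef
  have hHpos : 0 < H := lt_of_lt_of_le hs (le_max_left _ _)
  have hlogH : ((q:ℝ) ^ 2) * Real.log N ≤ Real.log H := by
    have h1 : ((N ^ (q ^ 2) : ℕ) : ℝ) ≤ (H : ℝ) := by exact_mod_cast hH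
    have h2 := Real.log_le_log (by positivity) h1
    push_cast at h2
    rw [Real.log_pow] at h2
    push_cast at h2
    exact h2
  have hq1 : (1:ℝ) ≤ q := by exact_mod_cast (by omega : 1 ≤ q)
  have hKH : K ≤ Real.log H := by
    have h1 : Real.log N ≤ (q:ℝ) ^ 2 * Real.log N := by
      have : (1:ℝ) ≤ (q:ℝ) ^ 2 := one_le_pow₀ hq1
      nlinarith
    linarith
  -- lo
  obtain ⟨hl0, hh0, hl1, hl2⟩ := L.lo_hi (q := q) (s := t) (by omega) ht
  have hradt : rad t ≤ N := by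
    have h1 := rf4 s t (by omega) (by omega) hco
    have h2 : 1 * rad t ≤ rad s * rad t := Nat.mul_le_mul_right _ (rf0 s)
    rw [one_mul, ← h1] at h2
    exact h2.trans hrad
  have hlo : lo q t ≤ N ^ (q - 1) :=
    (Nat.le_of_dvd (pow_pos (rf0 t) _) hl2).trans (Nat.pow_le_pow_left hradt _)
  have hq1' : ((q - 1 : ℕ) : ℝ) = (q:ℝ) - 1 := by
    rw [Nat.cast_sub (by omega), Nat.cast_one]
  have hloglo : Real.log (lo q t) ≤ ((q:ℝ) - 1) * Real.log N := by
    have h1 : ((lo q t : ℕ) : ℝ) ≤ ((N ^ (q - 1) : ℕ) : ℝ) := by exact_mod_cast hlo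
    have h2 := Real.log_le_log (by exact_mod_cast hl0) h1
    push_cast at h2
    rw [Real.log_pow, hq1'] at h2
    exact h2
  have hloglo0 : 0 ≤ Real.log (lo q t) := Real.log_nonneg (by exact_mod_cast hl0)
  have hL : ((q - 1 : ℕ) : ℝ) * Real.log (lo q t) ≤ Real.log H := by
    rw [hq1']
    have h1 : ((q:ℝ) - 1) * Real.log (lo q t) ≤ ((q:ℝ) - 1) * (((q:ℝ) - 1) * Real.log N) :=
      mul_le_mul_of_nonneg_left hloglo (by linarith)
    have h2 : ((q:ℝ) - 1) * (((q:ℝ) - 1) * Real.log N) ≤ (q:ℝ) ^ 2 * Real.log N := by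
      have : ((q:ℝ) - 1) * ((q:ℝ) - 1) ≤ (q:ℝ) ^ 2 := by nlinarith
      nlinarith
    linarith
  have hL0 : 0 ≤ ((q - 1 : ℕ) : ℝ) * Real.log (lo q t) := by positivity
  have hT0 : 0 < B ^ y := pow_pos hB y
  have hlogT : Real.log ((B ^ y : ℕ) : ℝ) = y * Real.log B := by
    push_cast; rw [Real.log_pow]
  have hlogH0 : 0 ≤ Real.log H := Real.log_nonneg (by exact_mod_cast hHpos)
  by_cases hcase : (B ^ y) ^ 2 ≤ H
  · -- real case
    right
    have hTle : B ^ y ≤ H := (Nat.le_self_pow (by norm_num) _).trans hcase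
    have hσ1 : σ = 1 := by
      rcases hσ with h | h
      · exact h
      · exfalso
        subst h
        have h1 : (t : ℤ) + s = ((B ^ y : ℕ) : ℤ) := by push_cast; linarith
        have h2 : t + s = B ^ y := by exact_mod_cast h1
        have h3 : H < t + s := by
          rw [hHdef]
          rcases le_total s t with h | h
          · rw [max_eq_right h]; omega
          · rw [max_eq_left h]; omega
        omega
    subst hσ1
    have hst : s + B ^ y = t := by
      have h1 : (s : ℤ) + ((B ^ y : ℕ) : ℤ) = (t : ℤ) := by push_cast; linarith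
      exact_mod_cast h1
    have hHt : H = t := by
      rw [hHdef]; exact max_eq_right (by omega)
    refine ⟨rfl, ⟨hs, hT0, hst, hco, ?_, ?_⟩⟩
    · have h1 : Real.log ((B ^ y : ℕ) : ℝ) ≤ (1 / 2) * Real.log H := by
        have h2 : (((B ^ y) ^ 2 : ℕ) : ℝ) ≤ (H : ℝ) := by exact_mod_cast hcase
        have h3 := Real.log_le_log (by positivity) h2
        rw [Nat.cast_pow, Real.log_pow] at h3
        push_cast at h3 ⊢
        linarith
      rw [hHt] at h1 hL hlogH0
      have h4 : κ₁ / 4 * (((q - 1 : ℕ) : ℝ) * Real.log (lo q t)) ≤ 1 / 4 * Real.log t := by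
        have : κ₁ / 4 ≤ 1 / 4 := by linarith
        calc κ₁ / 4 * (((q - 1 : ℕ) : ℝ) * Real.log (lo q t)) ≤ 1 / 4 *
              (((q - 1 : ℕ) : ℝ) * Real.log (lo q t)) := mul_le_mul_of_nonneg_right this hL0
          _ ≤ _ := mul_le_mul_of_nonneg_left hL (by norm_num)
      have h5 : κ₁ / 4 * Real.log t ≤ 1 / 4 * Real.log t :=
        mul_le_mul_of_nonneg_right (by linarith) hlogH0
      nlinarith
    · rw [← hHt]; exact hKH
  · left
    push Not at hcase
    refine ⟨hs, ht, hT0, by push_cast; exact heq, hco, dvd_pow hpB (by omega), ⟨y,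
      pow_dvd_pow_of_dvd hpB y, ?_⟩, hKH⟩
    have h1 : Real.log H ≤ 2 * (y * Real.log B) := by
      have h2 : ((H : ℕ) : ℝ) ≤ (((B ^ y) ^ 2 : ℕ) : ℝ) := by exact_mod_cast hcase.le
      have h3 := Real.log_le_log (by exact_mod_cast hHpos) h2
      rw [Nat.cast_pow, Real.log_pow, hlogT] at h3
      push_cast at h3
      exact h3
    have h4 : Real.log B ≤ Real.log N :=
      Real.log_le_log (by exact_mod_cast hB) (by exact_mod_cast hBN)
    have h5 : κ₁ * Real.log N ≤ Real.log p := by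
      have h6 := Real.log_le_log (Real.rpow_pos_of_pos hNpos κ₁) hNp.le
      rwa [Real.log_rpow hNpos] at h6
    have hy0 : (0:ℝ) ≤ y := by positivity
    calc κ₁ / 4 * (((q - 1 : ℕ) : ℝ) * Real.log (lo q t) + Real.log H)
        ≤ κ₁ / 4 * (2 * Real.log H) := by
          refine mul_le_mul_of_nonneg_left ?_ (by positivity)
          linarith
      _ ≤ κ₁ / 4 * (2 * (2 * (y * Real.log B))) := by
          refine mul_le_mul_of_nonneg_left ?_ (by positivity)
          linarith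
      _ = y * (κ₁ * Real.log B) := by ring
      _ ≤ y * (κ₁ * Real.log N) := by gcongr
      _ ≤ y * Real.log p := by gcongr

end Pool.Agent.H374R2.Z.Q7
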